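import Pool.Agent.W808.HU.Stm
import Pool.Agent.H160R2.MU.T_LIF

/-!
# The planar form of the trap
-/

set_option autoImplicit false

namespace Pool.Agent.W808.HU
open H974 H906.Cyl
open H12S (Dir hbE segD rimE H4 Crs Nr sqE)
open Pool.Agent.H160R2.ML (nm vx)
open Pool.Agent.H160R2.MU (Cel csq cpos rad prd shf BxS Bxs EP inSq PC Bad Trap Cc Pt Cls Ac Dg)

namespace TTRP
open Pool.Agent.H160R2.MU.TEXI
open Pool.Agent.H160R2.MU.TLIF (lift)

/-- the connections of `Trap` -/
def TR (c n M : ℕ) (G : Finset Edg) : Pt → Pt → Prop :=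
  Relation.EqvGen (fun x y => (∃ j : ℤ, x = ((j, M), false) ∧ y = ((j, M), true)) ∨
    ∃ e ∈ Ac c n M G, Dg n M c e x y)

/-- two points of class `c` with the same image in the plane -/
theorem same {c n M : ℕ} (G : Finset Edg)
    {x y : Pt} (hx : Cls M c x) (hy : Cls M c y) (h : vx M x = vx M y) :
    TR c n M G x y := by
  have cx := cls_dd hx
  have cy := cls_dd hy
  rw [vx_eq M x hx.2] at h
  rw [vx_eq M y hy.2] at h
  simp only [Prod.mk.injEq] at h
  obtain ⟨h1, h2⟩ := h
  have hJ : x.1.1 = y.1.1 := by omega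
  have hD : dd M x = dd M y := by omega
  have tx := hx.2
  have ty := hy.2
  obtain ⟨⟨j, t⟩, β⟩ := x
  obtain ⟨⟨j', t'⟩, β'⟩ := y
  simp only [] at hJ tx ty
  subst hJ
  by_cases hβ : β = β'
  · subst hβ
    have : t = t' := by
      unfold dd at hD
      simp only [] at hD
      split_ifs at hD <;> omega
    subst this
    exact Relation.EqvGen.refl _
  · have ht : t = M ∧ t' = M ∧ dd M ((j, t), β) = 0 := by
      unfold dd at hD ⊢
      simp only [] at hD ⊢
      cases β <;> cases β' <;> simp at hD hβ ⊢ <;> omega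
    obtain ⟨e1, e2, e3⟩ := ht
    subst e1
    subst e2
    have g : TR c n t' G ((j, t'), false) ((j, t'), true) :=
      Relation.EqvGen.rel _ _ (Or.inl ⟨j, rfl, rfl⟩)
    cases β <;> cases β' <;> simp at hβ
    · exact g
    · exact g.symm

/-- every vertex of the band is the image of a point -/
theorem lift0 {c : ℕ} (hc : c < 2) (M : ℕ) (v : Vtx) (h : |v.1 - v.2| ≤ M) :
    ∃ y : Pt, Cls M c y ∧ vx M y = v ∧ (M : ℤ) - |v.1 - v.2| = y.1.2 := by
  obtain ⟨a, b⟩ := v
  simp only at h ⊢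
  have h' := abs_le.1 h
  by_cases h0 : a - b ≤ 0
  · have ht : (((M : ℤ) + (a - b)).toNat : ℤ) = M + (a - b) := Int.toNat_of_nonneg (by omega)
    refine ⟨((a + b + c, ((M : ℤ) + (a - b)).toNat), false), ⟨?_, ?_⟩, ?_, ?_⟩
    · simp only
      omega
    · simp only
      omega
    · rw [vx_eq M _ (by simp only; omega)]
      simp only [dd, Bool.false_eq_true, if_false, Prod.mk.injEq]
      omega
    · simp only [abs_of_nonpos h0]
      omega
  · have ht : (((M : ℤ) - (a - b)).toNat : ℤ) = M - (a - b) := Int.toNat_of_nonneg (by omega)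
    refine ⟨((a + b + c, ((M : ℤ) - (a - b)).toNat), true), ⟨?_, ?_⟩, ?_, ?_⟩
    · simp only
      omega
    · simp only
      omega
    · rw [vx_eq M _ (by simp only; omega)]
      simp only [dd, if_true, Prod.mk.injEq]
      omega
    · simp only [abs_of_pos (not_le.1 h0)]
      omega

theorem trap_ptr {c n M l : ℕ} (hc : c < 2) (hn : 1 ≤ n) (hM : 2 * n ≤ M) {F : Finset Edg}
    (hF : F ⊆ CE n M) (h : Trap c n M l F) : PTr c n M l F := by
  intro u v hu hR
  obtain ⟨x, hx, hxu, hxt⟩ := lift0 hc M u (hu.trans (by exact_mod_cast hM))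
  have inv : ∀ v : Vtx, Reach (Cc c n M F) u v →
      ∃ z : Pt, Cls M c z ∧ vx M z = v ∧ TR c n M F x z := by
    intro v hv
    induction hv with
    | refl => exact ⟨x, hx, hxu, Relation.EqvGen.refl _⟩
    | @tail b v' _ hbc ih =>
      obtain ⟨z, hz, hzb, hzR⟩ := ih
      obtain ⟨e', he', hadj⟩ := hbc
      obtain ⟨A, B, hA, hB, hlink, hab⟩ := lift hc hn hF he'
      have hAB : TR c n M F A B := Relation.EqvGen.rel _ _ (Or.inr hlink)
      have key : ∀ A B : Pt, Cls M c A → Cls M c B → TR c n M F A B →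
          vx M A = b → vx M B = v' →
          ∃ z : Pt, Cls M c z ∧ vx M z = v' ∧ TR c n M F x z := by
        intro A B hA hB hAB hAb hBv
        refine ⟨B, hB, hBv, (hzR.trans _ _ _ ?_).trans _ _ _ hAB⟩
        exact same F hz hA (hzb.trans hAb.symm)
      rcases hadj with ⟨h1, h2⟩ | ⟨h1, h2⟩ <;> rcases hab with ⟨g1, g2⟩ | ⟨g1, g2⟩
      · exact key A B hA hB hAB (g1.symm.trans h1) (g2.symm.trans h2)
      · exact key B A hB hA hAB.symm (g1.symm.trans h1) (g2.symm.trans h2)
      · exact key B A hB hA hAB.symm (g2.symm.trans h2) (g1.symm.trans h1)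
      · exact key A B hA hB hAB (g2.symm.trans h2) (g1.symm.trans h1)
  obtain ⟨z, hz, hzv, hzR⟩ := inv v hR
  have := h x z hx (by omega) hzR
  rw [hxu, hzv] at this
  exact this

end TTRP

theorem t_TRP : Pool.Agent.H160R2.MU.S_TRAP → S_TRP := by
  intro hT ν M4 hν hM4
  obtain ⟨κ, hκ, r0, h⟩ := hT ν M4 hν hM4
  refine ⟨κ, hκ, max r0 1, fun c r hc hr => (h c r hc (le_trans (le_max_left _ _) hr)).trans ?_⟩
  have hr1 : 1 ≤ r := le_trans (le_max_right _ _) hr
  unfold PC
  apply Pr_mono (okq (q := 1/2) (by norm_num) (by norm_num))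
  intro F hF hL
  have hn : 1 ≤ ν * r := Nat.mul_pos hν hr1
  exact TTRP.trap_ptr hc hn (by omega) hF hL

end Pool.Agent.W808.HU
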