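import Pool.Agent.W808.HU.Defs

/-!
# Upper bounds for the odd boundary arm events in the half-plane: the steps
(every step is a `Prop`; the file `T_X.lean` proves `t_X` from its hypotheses)
-/

set_option autoImplicit false

namespace Pool.Agent.W808.HU
open H974 H906.Cyl
open H12S (Dir hbE segD rimE H4 Crs Nr sqE)
open Pool.Agent.H160R2.ML (nm)
open Pool.Agent.H160R2.MU (Cel csq cpos rad prd shf BxS Bxs EP inSq PC Bad Trap Cc)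
open Pool.Agent.H863R2.Cyl
open Pool.Agent.H988R2.Perc (Word)
open Pool.Agent.W808.HB (Lw HL LegEv HArm coinsH Gd Pn)

/-! ## coarse geometry -/

def S_h1 : Prop := ∀ (N k : ℕ) (c : Fin k → Cel), 2 ≤ k → k + 4 ≤ N → AdmH N k c →
  ∀ (L L' : ℕ × ℤ) (z z' : ℤ × ℤ), z ∈ TubeH N k c L → z' ∈ TubeH N k c L' →
  |z.1 - z'.1| ≤ 1 → |z.2 - z'.2| ≤ 1 → L = L'

def S_h2 : Prop := ∀ (N k : ℕ) (c : Fin k → Cel), 2 ≤ k → k + 4 ≤ N → AdmH N k c →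
  ∀ (L : ℕ × ℤ) (s : ℤ) (z b : ℤ × ℤ), z ∈ TubeH N k c L → b ∈ BxS N k s →
  |z.1 - b.1| ≤ 1 → |z.2 - b.2| ≤ 1 → ∃ a : Fin k, labC k a s = L ∧ shf N k s z = csq N (c a)

/-- the tubes are connected and contain their cells -/
def S_h3 : Prop := ∀ (N k : ℕ) (c : Fin k → Cel), 2 ≤ k → k + 4 ≤ N → AdmH N k c →
  (∀ (r : ℕ) (L : ℕ × ℤ) (z z' : ℤ × ℤ) (u v : Vtx), 1 ≤ r → z ∈ TubeH N k c L →
    z' ∈ TubeH N k c L → inSq r z u → inSq r z' v →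
    Reach (EP r (TubeH N k c L) \ EP r (Bxs N k)) u v) ∧
  (∀ (a : Fin k) (s : ℤ) (z : ℤ × ℤ), shf N k s z = csq N (c a) → z ∈ TubeH N k c (labC k a s))

/-- no checkerboard, periodicity, extent -/
def S_h4 : Prop := ∀ (N k : ℕ) (c : Fin k → Cel), 2 ≤ k → k + 4 ≤ N → AdmH N k c →
  (∀ z ∈ CrrH N k c, 3 ≤ z.1 - z.2) ∧
  ∀ P : Set (ℤ × ℤ), P = Bxs N k ∪ CrrH N k c →
  (∀ x y : ℤ, (x, y) ∉ P → (x + 1, y + 1) ∉ P → (x + 1, y) ∉ P ∨ (x, y + 1) ∉ P) ∧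
  (∀ x y : ℤ, (x + 1, y) ∉ P → (x, y + 1) ∉ P → (x, y) ∉ P ∨ (x + 1, y + 1) ∉ P) ∧
  (∀ (z : ℤ × ℤ) (s : ℤ), z ∈ P ↔ shf N k s z ∈ P) ∧
  (∀ z ∈ P, |z.1 - z.2| ≤ prd N k + 4 * N)

/-! ## deterministic steps -/

def S_DET : Prop := ∀ (N r k : ℕ) (c : Fin k → Cel), 2 ≤ k → k + 4 ≤ N → 2 ≤ r → AdmH N k c →
  ∀ (n M : ℕ), n = prd N k * r → M = 4 * n → ∀ F : Finset Edg, F ⊆ CE n M →
  LandH N r k c (per n F) → P0 n k (per n (FA N r k c n M F))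

def S_DETP : Prop := ∀ (N r k : ℕ) (c : Fin k → Cel), 2 ≤ k → k + 4 ≤ N → 2 ≤ r → AdmH N k c →
  ∀ (n M : ℕ), n = prd N k * r → M = 4 * n →
  Pr (fun _ => (1 / 2 : ℝ)) (boxE (N * r)) (fun F => LandH N r k c (↑F : Set Edg)) ≤
    PC n M (fun F => P0 n k (per n (FA N r k c n M F)))

/-- `Sec` for the sectors of parity `q` only -/
def Secc (q m N : ℕ) (C : ℤ → ℤ → Prop) : Prop :=
  (∀ c d : ℕ, c % 2 = q → d % 2 = q → 1 ≤ c → c < m → d ≤ m → c ≠ d → ¬ C c d) ∧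
  (∀ c : ℕ, c % 2 = q → 1 ≤ c → c < m → ∃ s : ℤ, s ≠ 0 ∧ ∃ d : ℕ, 1 ≤ d ∧ d < m ∧ C c (s * N + d))

/-- one class is enough (words) -/
def S_WC : Prop := ∀ (q m M : ℕ) (w : Word), q < 2 → Even m → 4 ≤ m → Ok w →
  w.length = m + 2 * M → (Secc q m w.length (Relation.EqvGen (Lw w.length m w)) ↔ Gd m w)

/-- one class is enough (configurations) -/
def S_HG : Prop := ∀ (n M k : ℕ), 2 ≤ k → k ≤ n → ∀ F : Finset Edg, F ⊆ CE n M →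
  (P0 n k (per n F) ↔ P1 n k (per n F))

/-- the leg event implies the arm event in a smaller box -/
def S_DEC : Prop := ∀ (n M k R : ℕ), 1 ≤ k → k ≤ R → 4 * R ≤ n → 2 * R ≤ M → ∀ (B F : Finset Edg),
  B ⊆ CE n M → F ⊆ CE n M → (∀ e ∈ boxE R, red n e ∈ B ↔ red n e ∈ F) →
  P0 n k (per n B) → SEh k R (per n F)

/-! ## traps and bad events -/

def S_TRP : Prop := ∀ ν M4 : ℕ, 1 ≤ ν → 1 ≤ M4 → ∃ κ : ℝ, 0 < κ ∧ ∃ r0 : ℕ, ∀ (c r : ℕ), c < 2 →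
  r0 ≤ r → κ ≤ PC (ν * r) (4 * (ν * r)) (PTr c (ν * r) (4 * (ν * r)) (r / M4))

/-- class 0: different clusters are far from each other at the boundary of boxes and tubes -/
def S_SEPB : Prop := ∀ (N r k ρ l : ℕ) (c : Fin k → Cel), 2 ≤ k → k + 4 ≤ N → AdmH N k c → 1 ≤ l →
  32 * l ≤ ρ → 32 * ρ ≤ r → ∀ (n M : ℕ), n = prd N k * r → M = 4 * n → ∀ F : Finset Edg,
  F ⊆ CE n M → ¬ Bad 0 N r ρ l (prd N k) n M F → ∀ (s s' : ℤ) (i i' : ℕ) (u u' : Vtx),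
  i < k → i' < k →
  Reach (per n (FB N r k c n M F) ∩ Hs) (sv n s i) u →
  Reach (per n (FB N r k c n M F) ∩ Hs) (sv n s' i') u' →
  (∃ e : Edg, 0 ≤ dco e ∧ e ∉ EP r (Bxs N k) ∧ e ∉ EP r (CrrH N k c) ∧ (src e = u ∨ tgt e = u)) →
  (∃ e : Edg, 0 ≤ dco e ∧ e ∉ EP r (Bxs N k) ∧ e ∉ EP r (CrrH N k c) ∧ (src e = u' ∨ tgt e = u')) →
  Nr (4 * l) u u' →
  Reach (per n (FB N r k c n M F) ∩ Hs) (sv n s i) (sv n s' i')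

/-- the marked faces of class 1: the boundary and the closed region -/
def XA (N r k : ℕ) (c : Fin k → Cel) (p : Vtx) : Prop := p.1 = p.2 ∨
  ∃ e : Edg, 0 ≤ dco e ∧ du e ∉ EP r (Bxs N k) ∧ du e ∉ EP r (CrrH N k c) ∧ (src e = p ∨ tgt e = p)

/-- class 1 -/
def S_SEPA : Prop := ∀ (N r k ρ l : ℕ) (c : Fin k → Cel), 2 ≤ k → k + 4 ≤ N → AdmH N k c → 1 ≤ l →
  32 * l ≤ ρ → 32 * ρ ≤ r → ∀ (n M : ℕ), n = prd N k * r → M = 4 * n → ∀ F : Finset Edg,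
  F ⊆ CE n M → ¬ Bad 1 N r ρ l (prd N k) n M F → ∀ (p p' u u' : Vtx),
  XA N r k c p → XA N r k c p' →
  R1 n k (dl (per n (FA N r k c n M F))) p u → R1 n k (dl (per n (FA N r k c n M F))) p' u' →
  (∃ e : Edg, 0 ≤ dco e ∧ du e ∉ EP r (Bxs N k) ∧ du e ∈ EP r (CrrH N k c) ∧
    (src e = u ∨ tgt e = u)) →
  (∃ e : Edg, 0 ≤ dco e ∧ du e ∉ EP r (Bxs N k) ∧ du e ∈ EP r (CrrH N k c) ∧
    (src e = u' ∨ tgt e = u')) →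
  Nr (4 * l) u u' →
  R1 n k (dl (per n (FA N r k c n M F))) p p'

/-- independence -/
def S_IND : Prop := ∀ (c N r ρ l ν k : ℕ), c < 2 → 4 ≤ N → 4 * N ≤ ν → 2 ≤ r → 32 * l ≤ ρ → 1 ≤ l →
  32 * ρ ≤ r → PC (ν * r) (4 * (ν * r)) (fun F => SEh k (N * r / 2 : ℕ) (per (ν * r) F) ∧
      Bad c N r ρ l ν (ν * r) (4 * (ν * r)) F)
    ≤ sPh k (N * r / 2) * PC (ν * r) (4 * (ν * r)) (Bad c N r ρ l ν (ν * r) (4 * (ν * r)))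

/-! ## the three steps -/

def S_STB : Prop := ∀ (N k : ℕ) (c : Fin k → Cel), 2 ≤ k → k + 4 ≤ N → AdmH N k c →
  ∀ δ : ℝ, 0 < δ → ∃ C : ℝ, 0 < C ∧ ∃ r0 : ℕ, ∀ r : ℕ, r0 ≤ r → ∀ (n M : ℕ), n = prd N k * r →
  M = 4 * n →
  PC n M (fun F => P0 n k (per n (FB N r k c n M F))) ≤
    δ * sPh k (N * r / 2) + C * PC n M (fun F => P0 n k (per n F) ∧ Shl n k M (per n F))

def S_STA : Prop := ∀ (N k : ℕ) (c : Fin k → Cel), 2 ≤ k → k + 4 ≤ N → AdmH N k c →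
  ∀ δ : ℝ, 0 < δ → ∃ C : ℝ, 0 < C ∧ ∃ r0 : ℕ, ∀ r : ℕ, r0 ≤ r → ∀ (n M : ℕ), n = prd N k * r →
  M = 4 * n →
  PC n M (fun F => P0 n k (per n (FA N r k c n M F))) ≤
    δ * sPh k (N * r / 2) + C * PC n M (fun F => P0 n k (per n (FB N r k c n M F)))

/-- landing -/
def S_LAND : Prop := ∀ k : ℕ, 2 ≤ k → ∀ δ : ℝ, 0 < δ → ∃ N : ℕ, k + 4 ≤ N ∧
  ∃ Cs : Finset (Fin k → Cel), (∀ c ∈ Cs, AdmH N k c) ∧ ∃ r0 : ℕ, ∀ r : ℕ, r0 ≤ r →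
  sPh k (N * r) ≤ δ * sPh k (N * r / 2) + ∑ c ∈ Cs,
    Pr (fun _ => (1 / 2 : ℝ)) (boxE (N * r)) (fun F => LandH N r k c (↑F : Set Edg))

/-- from the band to the half-infinite cylinder -/
def S_FIN : Prop := ∀ (n M k : ℕ), 2 ≤ k → k ≤ n → 1 ≤ M →
  PC n M (fun F => P0 n k (per n F) ∧ Shl n k M (per n F)) ≤
    coinsH.real {ω | LegEv (2 * n) (2 * k) ω}

/-- the recursion -/
def S_RCR : Prop := ∀ k : ℕ, 2 ≤ k → ∀ δ : ℝ, 0 < δ → ∃ N : ℕ, k + 4 ≤ N ∧ ∃ C : ℝ, 0 < C ∧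
  ∃ r0 : ℕ, ∀ r : ℕ, r0 ≤ r →
  sPh k (N * r) ≤ δ * sPh k (N * r / 2) + C * (r : ℝ) ^ (-((k : ℝ) * (2 * k - 1) / 3))

/-- monotonicity -/
def S_MON : Prop := ∀ k R R' : ℕ, 1 ≤ k → k ≤ R → R ≤ R' → sPh k R' ≤ sPh k R

/-- **upper bound** -/
def S_UB : Prop := ∀ k : ℕ, 2 ≤ k → ∃ C : ℝ, 0 < C ∧ ∀ m : ℕ, k ≤ m →
  sPh k m ≤ C * (m : ℝ) ^ (-((k : ℝ) * (2 * k - 1) / 3))

/-! ## comparison with the boxes of `HArm` -/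

def S_CMP : Prop := ∀ k R R' : ℕ, 1 ≤ k → k ≤ R' → 2 * R' + 1 ≤ R →
  coinsH.real {ω | HArm (2 * k) R ω} ≤ sPh k R'

/-- **sharp bounds for the odd boundary arm events** -/
def S_SHARP : Prop := ∀ k : ℕ, 2 ≤ k → ∃ c C : ℝ, 0 < c ∧ 0 < C ∧ ∀ R : ℕ, k ≤ R →
  c * (R : ℝ) ^ (-((k : ℝ) * (2 * k - 1) / 3)) ≤ sPh k R ∧
  sPh k R ≤ C * (R : ℝ) ^ (-((k : ℝ) * (2 * k - 1) / 3))

end Pool.Agent.W808.HU
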