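import Pool.Agent.W808.HU.T_MON

/-!
# DEC: the leg event implies the arm event in a smaller box
-/

set_option autoImplicit false

namespace Pool.Agent.W808.HU
open H974 H906.Cyl
open Pool.Agent.H160R2.ML (nm)
open Pool.Agent.H160R2.MU.TMON (nm_le_iff mem_box)

namespace TDEC

theorem svn (n i : ℕ) : sv n 0 i = sv 0 0 i := by simp [sv]

theorem nm_far {n k R j : ℕ} {s : ℤ} (hkR : k ≤ R) (hn : 4 * R ≤ n) (hj : j < k) (hs : s ≠ 0) :
    (R : ℤ) ≤ nm (sv n s j) := by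
  by_contra hc
  have h1 : nm (sv n s j) ≤ (R : ℤ) - 1 := by omega
  rw [nm_le_iff] at h1
  have h2 : -((R : ℤ) - 1) ≤ s * n + j ∧ s * n + j ≤ (R : ℤ) - 1 := h1.1
  have hn' : (4 * R : ℤ) ≤ n := by exact_mod_cast hn
  have hj' : (j : ℤ) < R := by omega
  rcases lt_or_gt_of_ne hs with h | h
  · nlinarith [h2.1, h2.2, mul_nonneg (show (0 : ℤ) ≤ -s - 1 by omega) (show (0 : ℤ) ≤ n by omega)]
  · nlinarith [h2.1, h2.2, mul_nonneg (show (0 : ℤ) ≤ s - 1 by omega) (show (0 : ℤ) ≤ n by omega)]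

end TDEC

open TMON TDEC in
theorem t_DEC : S_DEC := by
  intro n M k R hk hkR hn hM B F hB hF hBF hP
  have h1 : ∀ e ∈ hbx (R : ℤ), (e ∈ per n B ↔ e ∈ per n F) := fun e he => hBF e (hbx_sub_box he)
  refine ⟨fun i j hi hj hij hc => ?_, fun i hi => ?_⟩
  · refine hP.1 i j hi hj hij ?_
    rw [svn n i, svn n j]
    have h2 : per n F ∩ hbx (R : ℤ) ⊆ per n B ∩ Hs :=
      fun e he => ⟨(h1 e he.2).2 he.1, he.2.1⟩
    exact Reach.mono h2 hc
  · obtain ⟨s, hs, j, hj, hr⟩ := hP.2 i hi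
    rw [svn] at hr
    have h2 := sv_nm hi
    obtain ⟨z, hz1, hz2⟩ := pass (R := (R : ℤ)) (G := per n B ∩ Hs) (fun e he => he.2) (by omega) hr
      (nm_far hkR hn hj hs)
    have h3 : (per n B ∩ Hs) ∩ hbx (R : ℤ) ⊆ per n F ∩ hbx (R : ℤ) :=
      fun e he => ⟨(h1 e he.2).1 he.1.1, he.2⟩
    exact ⟨z, hz1, Reach.mono h3 hz2⟩

end Pool.Agent.W808.HU
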