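import Pool.Agent.W808.HU.Stm
import Pool.Agent.H160R2.MU.T_DETP

/-!
# Task DETP: transport of the landing event to the cylinder (half-plane version)
-/

set_option autoImplicit false

namespace Pool.Agent.W808.HU
open H974 H906.Cyl
open H12S (Dir hbE segD rimE H4 Crs Nr sqE)
open Pool.Agent.H160R2.ML (nm)
open Pool.Agent.H160R2.MU (Cel csq cpos rad prd shf BxS Bxs EP inSq PC Bad Trap Cc)
open Pool.Agent.H863R2.Cyl

namespace TDETP

theorem inter_congr {R : ℤ} {G G' : Set Edg}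
    (h : ∀ e, nm (src e) ≤ R → nm (tgt e) ≤ R → (e ∈ G ↔ e ∈ G')) : G ∩ hbx R = G' ∩ hbx R := by
  ext e
  constructor
  · rintro ⟨h1, h2⟩
    exact ⟨(h e h2.2.1 h2.2.2).1 h1, h2⟩
  · rintro ⟨h1, h2⟩
    exact ⟨(h e h2.2.1 h2.2.2).2 h1, h2⟩

theorem LandH_congr {N r k : ℕ} {c : Fin k → Cel} {G G' : Set Edg}
    (h : ∀ e, nm (src e) ≤ (N * r : ℕ) → nm (tgt e) ≤ (N * r : ℕ) → (e ∈ G ↔ e ∈ G')) :
    LandH N r k c G ↔ LandH N r k c G' := by
  unfold LandH
  rw [inter_congr h]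

end TDETP

theorem t_DETP : S_DET → S_DETP := by
  intro hD N r k c hk hN hr hc n M hn hM
  have hNr : N * r ≤ (N + 4 * k) * r := Nat.mul_le_mul_right r (by omega)
  have hpos : 0 < N * r := Nat.mul_pos (by omega) (by omega)
  have hn' : n = 4 * ((N + 4 * k) * r) := by rw [hn, prd]; ring
  have hR := Pr_red (n := n) (q := 1/2) (S := CE n M) (B := boxE (N * r))
    (by unfold boxE; exact red_inj_x (by omega))
    (by unfold boxE; exact image_red_sub (by omega) (by omega) (by omega))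
    (fun F => LandH N r k c (↑F : Set Edg))
  rw [← hR]
  unfold PC
  apply Pr_mono (okq (q := 1/2) (by norm_num) (by norm_num))
  intro F hF hL
  apply hD N r k c hk hN hr hc n M hn hM F hF
  refine (TDETP.LandH_congr ?_).1 hL
  intro e h1 h2
  rw [Finset.mem_coe, Finset.mem_filter]
  exact ⟨fun h => h.2, fun h => ⟨Pool.Agent.H160R2.MU.TDETP.mem_box h1 h2, h⟩⟩

end Pool.Agent.W808.HU
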