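import Pool.Agent.W808.HU.T_HG
import Pool.Agent.W808.HB.T_B2

/-!
# HU, task FIN: from the band to the half-infinite cylinder
-/

set_option autoImplicit false

namespace Pool.Agent.W808.HU
open H974 H906.Cyl
open Pool.Agent.H160R2.MU (PC)
open Pool.Agent.H863R2.Cyl
open Pool.Agent.H988R2.Perc (Word)
open Pool.Agent.W808.HB (Lw HL LegEv HArm coinsH Gd Pn)
open MeasureTheory

namespace TFIN
open TDic

/-- the configuration of the half-plane given by the coins -/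
def Go (n : ℕ) (ω : ℤ × ℕ → Bool) : Set Edg :=
  {e | ω ((e.1 + e.2.1 + 1) % ((2 * n : ℕ) : ℤ), (dco e).toNat) = !e.2.2}

theorem Mt_Go (n : ℕ) (ω : ℤ × ℕ → Bool) : Mt (2 * n) ω (Go n ω) := fun _ _ => Iff.rfl

theorem Go_red {n : ℕ} {ω : ℤ × ℕ → Bool} (e : Edg) : red n e ∈ Go n ω ↔ e ∈ Go n ω := by
  show ω (((red n e).1 + (red n e).2.1 + 1) % ((2 * n : ℕ) : ℤ), (dco (red n e)).toNat) =
    !(red n e).2.2 ↔ ω ((e.1 + e.2.1 + 1) % ((2 * n : ℕ) : ℤ), (dco e).toNat) = !e.2.2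
  rw [dco_red]
  have h1 : ((red n e).1 + (red n e).2.1 + 1) % ((2 * n : ℕ) : ℤ) =
      (e.1 + e.2.1 + 1) % ((2 * n : ℕ) : ℤ) := by
    have : (red n e).1 + (red n e).2.1 + 1 =
        (e.1 + e.2.1 + 1) + ((2 * n : ℕ) : ℤ) * (-((e.1 + e.2.1) / (2 * n))) := by
      show e.1 - n * ((e.1 + e.2.1) / (2 * n)) + (e.2.1 - n * ((e.1 + e.2.1) / (2 * n))) + 1 = _
      push_cast
      ring
    rw [this, Int.add_mul_emod_self_left]
  rw [h1]
  rfl

/-- the edges of the band -/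
def Sb (n M : ℕ) : Finset Edg := (CE n M).filter (fun e => 0 ≤ dco e)

open Classical in
/-- the open edges of the band -/
noncomputable def Fo (n M : ℕ) (ω : ℤ × ℕ → Bool) : Finset Edg :=
  (Sb n M).filter (fun e => e ∈ Go n ω)

theorem mem_Fo {n M : ℕ} {ω : ℤ × ℕ → Bool} {e : Edg} :
    e ∈ Fo n M ω ↔ (e ∈ CE n M ∧ 0 ≤ dco e) ∧ e ∈ Go n ω := by
  classical
  unfold Fo Sb
  rw [Finset.mem_filter, Finset.mem_filter]

theorem per_Fo_sub {n M : ℕ} {ω : ℤ × ℕ → Bool} : per n (Fo n M ω) ⊆ Go n ω := by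
  intro e he
  have := (mem_Fo.1 (show red n e ∈ Fo n M ω from he)).2
  rwa [Go_red] at this

theorem mem_per_Fo {n M : ℕ} (hn : 0 < n) {ω : ℤ × ℕ → Bool} {e : Edg} (h : e ∈ Go n ω)
    (h0 : 0 ≤ dco e) (h1 : dco e < M) : e ∈ per n (Fo n M ω) := by
  show red n e ∈ Fo n M ω
  rw [mem_Fo]
  refine ⟨⟨red_mem hn (by omega) h1, ?_⟩, ?_⟩
  · rw [dco_red]; exact h0
  · rwa [Go_red]

/-- the clusters of the sectors are the same -/
theorem clu {n M k : ℕ} (hn : 0 < n) {ω : ℤ × ℕ → Bool} (hS : Shl n k M (per n (Fo n M ω)))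
    {i : ℕ} (hi : i < k) {u : Vtx} (h : Reach (Go n ω ∩ Hs) (sv n 0 i) u) :
    Reach (per n (Fo n M ω) ∩ Hs) (sv n 0 i) u := by
  induction h with
  | refl => exact Reach.refl _ _
  | tail _ hs ih =>
    have h1 := hS i _ hi ih
    refine Relation.ReflTransGen.tail ih ?_
    obtain ⟨e, ⟨he, h0⟩, hst⟩ := hs
    have h2 : dco e < M := by
      obtain ⟨x, y, b⟩ := e
      cases b
      · rcases hst with ⟨rfl, -⟩ | ⟨-, rfl⟩
        · simp only [src_mk] at h1
          simp only [dco, Bool.false_eq_true, if_false]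
          omega
        · simp only [tgt_false] at h1
          simp only [dco, Bool.false_eq_true, if_false]
          omega
      · rcases hst with ⟨rfl, -⟩ | ⟨-, rfl⟩
        · simp only [src_mk] at h1
          simp only [dco, if_true]
          omega
        · simp only [tgt_true] at h1
          simp only [dco, if_true]
          omega
    exact ⟨e, ⟨mem_per_Fo hn he h0 h2, h0⟩, hst⟩

theorem P0_Go {n M k : ℕ} (hn : 0 < n) {ω : ℤ × ℕ → Bool} (hP : P0 n k (per n (Fo n M ω)))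
    (hS : Shl n k M (per n (Fo n M ω))) : P0 n k (Go n ω) := by
  refine ⟨fun i j hi hj hij h => hP.1 i j hi hj hij (clu hn hS hi h), fun i hi => ?_⟩
  obtain ⟨s, hs, j, hj, hr⟩ := hP.2 i hi
  exact ⟨s, hs, j, hj, hr.mono (Set.inter_subset_inter_left _ per_Fo_sub)⟩

/-- **deterministic part** -/
theorem det (h3 : HB.S_X3) (hWG : HB.S_WG) (hWC : S_WC) {n M k : ℕ} (hk : 2 ≤ k) (hkn : k ≤ n)
    {ω : ℤ × ℕ → Bool} {t : ℕ} (hA : HB.Alt (2 * n) ω t) (hP : P0 n k (per n (Fo n M ω)))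
    (hS : Shl n k M (per n (Fo n M ω))) : LegEv (2 * n) (2 * k) ω := by
  have hn : 0 < n := by omega
  have h1 := P0_Go hn hP hS
  rw [P0_iff (Mt_Go n ω)] at h1
  obtain ⟨n', hn'⟩ : ∃ n', n' + 1 = 2 * n := ⟨2 * n - 1, by omega⟩
  rw [Secc_iff h3 hWC hk hkn hA n' hn' (t + 1) (by omega) (base n') 1 (by norm_num)] at h1
  obtain ⟨w, hw⟩ : ∃ w : Word, w = (rows n' (HB.crow (n' + 1) (t + 1) ω) (t + 1) (base n')).1 :=
    ⟨_, rfl⟩
  have hl : w.length = n' + 1 := by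
    rw [hw]
    exact (rows n' (HB.crow (n' + 1) (t + 1) ω) (t + 1) (base n')).2.1
  have hok : Pool.Agent.H863R2.Cyl.Ok w := by
    rw [hw]
    exact (rows n' (HB.crow (n' + 1) (t + 1) ω) (t + 1) (base n')).2.2
  rw [← hw, hWG (2 * k) (n - k) w hok (by rw [hl]; omega) (by rw [hl]; omega), hl, hn'] at h1
  have e : (fun a b : ℤ => Relation.EqvGen (HL (2 * n) (2 * k) ω) (a, 0) (b, 0)) =
      Relation.EqvGen (Lw (2 * n) (2 * k) w) := by
    funext a b
    rw [← hn'] at hA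
    have := h3 n' (t + 1) (2 * k) t (by omega) (by omega) ω hA (base n') a b
    rw [← hw] at this
    rw [← hn']
    exact propext this
  unfold LegEv
  rw [e]
  exact h1

/-! ## probability -/

/-- the coin of an edge -/
def cn (n M : ℕ) (x : {e // e ∈ Sb n M}) : ℤ × ℕ :=
  ((x.1.1 + x.1.2.1 + 1) % ((2 * n : ℕ) : ℤ), (dco x.1).toNat)

theorem cn_inj (n M : ℕ) : Function.Injective (cn n M) := by
  rintro ⟨e, he⟩ ⟨e', he'⟩ h
  have h1 : (e.1 + e.2.1 + 1) % ((2 * n : ℕ) : ℤ) = (e'.1 + e'.2.1 + 1) % ((2 * n : ℕ) : ℤ) :=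
    congrArg Prod.fst h
  have h2 : (dco e).toNat = (dco e').toNat := congrArg Prod.snd h
  unfold Sb at he he'
  rw [Finset.mem_filter, mem_CE] at he he'
  have h3 : dco e = dco e' := by omega
  obtain ⟨⟨⟨h5, h6⟩, -⟩, -⟩ := he
  obtain ⟨⟨⟨h7, h8⟩, -⟩, -⟩ := he'
  have h4 : e.1 + e.2.1 = e'.1 + e'.2.1 := by
    have hd : ((2 * n : ℕ) : ℤ) ∣ (e.1 + e.2.1) - (e'.1 + e'.2.1) := by
      have := Int.ModEq.dvd (show (e'.1 + e'.2.1 + 1) ≡ (e.1 + e.2.1 + 1) [ZMOD ((2 * n : ℕ) : ℤ)]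
        from h1.symm)
      have e1 : (e.1 + e.2.1) - (e'.1 + e'.2.1) = e.1 + e.2.1 + 1 - (e'.1 + e'.2.1 + 1) := by ring
      rw [e1]
      exact this
    have := Int.eq_zero_of_abs_lt_dvd hd (by
      rw [abs_lt]
      push_cast
      constructor <;> linarith)
    linarith
  apply Subtype.ext
  obtain ⟨x, y, b⟩ := e
  obtain ⟨x', y', b'⟩ := e'
  simp only at h4
  cases b <;> cases b' <;> simp only [dco, if_true, Bool.false_eq_true, if_false] at h3 <;>
    simp only [Prod.mk.injEq, Bool.true_eq_false, Bool.false_eq_true, and_false, and_true] <;>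
    omega

/-- the configuration of a family of coins -/
def Fv (n M : ℕ) (v : {e // e ∈ Sb n M} → Bool) : Finset Edg :=
  (Finset.univ.filter (fun x : {e // e ∈ Sb n M} => v x = !x.1.2.2)).map
    (Function.Embedding.subtype _)

theorem mem_Fv {n M : ℕ} {v : {e // e ∈ Sb n M} → Bool} {e : Edg} :
    e ∈ Fv n M v ↔ ∃ h : e ∈ Sb n M, v ⟨e, h⟩ = !e.2.2 := by
  unfold Fv
  simp only [Finset.mem_map, Finset.mem_filter, Finset.mem_univ, true_and,
    Function.Embedding.coe_subtype, Subtype.exists, exists_and_right, exists_eq_right]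

theorem Fv_Fo (n M : ℕ) (ω : ℤ × ℕ → Bool) : Fv n M (fun x => ω (cn n M x)) = Fo n M ω := by
  ext e
  rw [mem_Fv, mem_Fo]
  constructor
  · rintro ⟨h1, h2⟩
    unfold Sb at h1
    rw [Finset.mem_filter] at h1
    exact ⟨h1, h2⟩
  · rintro ⟨h1, h2⟩
    refine ⟨?_, h2⟩
    unfold Sb
    rw [Finset.mem_filter]
    exact h1

theorem prob (n M : ℕ) (A : Finset Edg → Prop) :
    coinsH.real {ω | A (Fo n M ω)} = Pr (fun _ => (1 / 2 : ℝ)) (Sb n M) A := by
  classical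
  have h1 := HB.TB2.split (cn n M) (cn_inj n M) (fun v => A (Fv n M v))
  have h2 : {ω : ℤ × ℕ → Bool | A (Fv n M fun x => ω (cn n M x))} = {ω | A (Fo n M ω)} := by
    ext ω
    show A (Fv n M fun x => ω (cn n M x)) ↔ A (Fo n M ω)
    rw [Fv_Fo]
  rw [h2] at h1
  rw [h1, H906.Cyl.Pr_half, Finset.mul_sum]
  refine Finset.sum_bij (fun v _ => Fv n M v) ?_ ?_ ?_ ?_
  · intro v _
    rw [Finset.mem_powerset]
    intro e he
    exact (mem_Fv.1 he).1
  · intro v _ v' _ h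
    funext x
    have h3 : x.1 ∈ Fv n M v ↔ x.1 ∈ Fv n M v' := by rw [h]
    rw [mem_Fv, mem_Fv] at h3
    have h4 : v x = !x.1.2.2 ↔ v' x = !x.1.2.2 :=
      ⟨fun h5 => (h3.1 ⟨x.2, h5⟩).2, fun h5 => (h3.2 ⟨x.2, h5⟩).2⟩
    revert h4
    cases v x <;> cases v' x <;> cases x.1.2.2 <;> simp
  · intro F hF
    refine ⟨fun x => if x.1 ∈ F then !x.1.2.2 else x.1.2.2, by simp, ?_⟩
    ext e
    rw [mem_Fv]
    constructor
    · rintro ⟨h3, h4⟩
      by_contra h5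
      rw [if_neg h5] at h4
      revert h4
      cases e.2.2 <;> simp
    · intro h3
      exact ⟨Finset.mem_powerset.1 hF h3, by rw [if_pos h3]⟩
  · intro v _
    rw [Fintype.card_coe]
    by_cases h3 : A (Fv n M v)
    · rw [if_pos h3, ind_of h3, mul_one]
    · rw [if_neg h3, ind_not_of h3, mul_zero]

theorem per_inter {n M : ℕ} {F : Finset Edg} (hF : F ⊆ CE n M) :
    per n (F ∩ Sb n M) ∩ Hs = per n F ∩ Hs := by
  ext e
  constructor
  · rintro ⟨h1, h2⟩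
    exact ⟨(Finset.mem_inter.1 (show red n e ∈ F ∩ Sb n M from h1)).1, h2⟩
  · rintro ⟨h1, h2⟩
    refine ⟨?_, h2⟩
    show red n e ∈ F ∩ Sb n M
    rw [Finset.mem_inter]
    refine ⟨h1, ?_⟩
    unfold Sb
    rw [Finset.mem_filter, dco_red]
    exact ⟨hF h1, h2⟩

theorem PC_eq (n M k : ℕ) :
    PC n M (fun F => P0 n k (per n F) ∧ Shl n k M (per n F)) =
      coinsH.real {ω | P0 n k (per n (Fo n M ω)) ∧ Shl n k M (per n (Fo n M ω))} := by
  rw [prob n M (fun F => P0 n k (per n F) ∧ Shl n k M (per n F))]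
  unfold PC
  have hsub : Sb n M ⊆ CE n M := Finset.filter_subset _ _
  apply Pr_local hsub
  intro F hF
  unfold P0 Shl
  rw [show per n (F ∩ Sb n M) ∩ Hs = per n F ∩ Hs from per_inter hF]

end TFIN

open TFIN in
theorem t_FIN (h3 : HB.S_X3) (h6 : HB.S_X6) (hWG : HB.S_WG) (hWC : S_WC) : S_FIN := by
  intro n M k hk hkn hM
  rw [PC_eq]
  obtain ⟨n', hn'⟩ : ∃ n', n' + 1 = 2 * n := ⟨2 * n - 1, by omega⟩
  refine le_of_forall_pos_le_add fun ε hε => ?_
  obtain ⟨K, hK⟩ := h6 n' ε hε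
  have hsub : {ω | P0 n k (per n (Fo n M ω)) ∧ Shl n k M (per n (Fo n M ω))} ⊆
      {ω | LegEv (2 * n) (2 * k) ω} ∪ {ω | ¬ ∃ t < K, HB.Alt (n' + 1) ω t} := by
    rintro ω ⟨hP, hS⟩
    by_cases hb : ∃ t < K, HB.Alt (n' + 1) ω t
    · left
      obtain ⟨t, -, hA⟩ := hb
      rw [hn'] at hA
      exact det h3 hWG hWC hk hkn hA hP hS
    · right
      exact hb
  have hprob : IsProbabilityMeasure coinsH := by
    unfold coinsH
    infer_instance
  have h1 := (measureReal_mono (μ := coinsH) hsub).trans (measureReal_union_le _ _)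
  linarith

end Pool.Agent.W808.HU
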