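import Pool.Agent.W808.HU.T_HGa

/-!
# HU, task HG: one class is enough (configurations)
-/

set_option autoImplicit false

namespace Pool.Agent.W808.HU
open H974 H906.Cyl
open Pool.Agent.H863R2.Cyl
open Pool.Agent.H988R2.Perc (Word)
open Pool.Agent.W808.HB (Lw HL LegEv HArm coinsH Gd Pn)

namespace TDic

open Classical in
/-- the coins of a periodic configuration -/
noncomputable def om (G : Set Edg) : ℤ × ℕ → Bool := fun p =>
  if edz (p.1 - 1) p.2 ∈ G then !(edz (p.1 - 1) p.2).2.2 else (edz (p.1 - 1) p.2).2.2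

theorem edz_shift (n : ℕ) (q : ℤ) (e : Edg) :
    edz (e.1 + e.2.1 - 2 * (n * q)) (dco e) = (e.1 + n * (-q), e.2.1 + n * (-q), e.2.2) := by
  obtain ⟨x, y, b⟩ := e
  have e0 : (n : ℤ) * (-q) = -(n * q) := by ring
  rw [e0]
  unfold edz
  cases b
  · simp only [dco, Bool.false_eq_true, if_false]
    rw [if_neg (by omega)]
    simp only [Prod.mk.injEq, and_true]
    omega
  · simp only [dco, if_true]
    rw [if_pos (by omega)]
    simp only [Prod.mk.injEq, and_true]
    omega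

theorem om_pos {G : Set Edg} {p : ℤ × ℕ} {e : Edg} (h : edz (p.1 - 1) p.2 = e) (he : e ∈ G) :
    om G p = !e.2.2 := by
  unfold om
  subst h
  rw [if_pos he]

theorem om_neg {G : Set Edg} {p : ℤ × ℕ} {e : Edg} (h : edz (p.1 - 1) p.2 = e) (he : e ∉ G) :
    om G p = e.2.2 := by
  unfold om
  subst h
  rw [if_neg he]

theorem Mt_om {n : ℕ} (hn : 0 < n) (F : Finset Edg) : Mt (2 * n) (om (per n F)) (per n F) := by
  intro e he
  have e1 : (e.1 + e.2.1 + 1) % ((2 * n : ℕ) : ℤ) - 1 =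
      e.1 + e.2.1 - 2 * (n * ((e.1 + e.2.1 + 1) / ((2 * n : ℕ) : ℤ))) := by
    have := Int.emod_def (e.1 + e.2.1 + 1) ((2 * n : ℕ) : ℤ)
    rw [this]
    push_cast
    ring
  have e2 : (((dco e).toNat : ℕ) : ℤ) = dco e := Int.toNat_of_nonneg he
  set q := (e.1 + e.2.1 + 1) / ((2 * n : ℕ) : ℤ)
  have e4 : edz ((((e.1 + e.2.1 + 1) % ((2 * n : ℕ) : ℤ), (dco e).toNat) : ℤ × ℕ).1 - 1)
      ((((e.1 + e.2.1 + 1) % ((2 * n : ℕ) : ℤ), (dco e).toNat) : ℤ × ℕ).2 : ℤ) =
      (e.1 + n * (-q), e.2.1 + n * (-q), e.2.2) := by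
    simp only
    rw [e1, e2, edz_shift]
  have e3 : ((e.1 + n * (-q), e.2.1 + n * (-q), e.2.2) : Edg) ∈ per n F ↔ e ∈ per n F := by
    show red n _ ∈ F ↔ red n e ∈ F
    rw [red_shift hn]
  by_cases h : e ∈ per n F
  · rw [om_pos e4 (e3.2 h)]
    simp [h]
  · rw [om_neg e4 (fun h' => h (e3.1 h'))]
    simp [h]

/-- one class decides the word -/
theorem Secc_iff (h3 : HB.S_X3) (hWC : S_WC) {n k : ℕ} (hk : 2 ≤ k) (hkn : k ≤ n)
    {ω : ℤ × ℕ → Bool} {t : ℕ} (hA : HB.Alt (2 * n) ω t) (n' : ℕ) (hn' : n' + 1 = 2 * n)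
    (M : ℕ) (htM : t < M) (σ : Wd (n' + 1)) (q : ℕ) (hq : q < 2) :
    Secc q (2 * k) (2 * n) (CH n k ω) ↔
      Gd (2 * k) (rows n' (HB.crow (n' + 1) M ω) M σ).1 := by
  obtain ⟨w, hw⟩ : ∃ w : Word, w = (rows n' (HB.crow (n' + 1) M ω) M σ).1 := ⟨_, rfl⟩
  have hl : w.length = n' + 1 := by
    rw [hw]
    exact (rows n' (HB.crow (n' + 1) M ω) M σ).2.1
  have hok : Pool.Agent.H863R2.Cyl.Ok w := by
    rw [hw]
    exact (rows n' (HB.crow (n' + 1) M ω) M σ).2.2
  have e : CH n k ω = Relation.EqvGen (Lw (2 * n) (2 * k) w) := by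
    funext a b
    rw [← hn'] at hA
    have := h3 n' M (2 * k) t (by omega) htM ω hA σ a b
    rw [← hw] at this
    unfold CH
    rw [← hn']
    exact propext this
  have h4 := hWC q (2 * k) (n - k) w hq (by simp) (by omega) hok (by rw [hl]; omega)
  rw [← hw, ← h4, hl, hn', e]

end TDic

open TDic in
theorem t_HG (h3 : HB.S_X3) (hWC : S_WC) : S_HG := by
  intro n M k hk hkn F hF
  have hn : 0 < n := by omega
  have hMt := Mt_om hn F
  rw [P0_iff hMt, P1_iff (by omega) hMt]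
  have hA : HB.Alt (2 * n) (om (per n F)) (2 * M) := by
    intro j hj
    have hnot : edz ((j : ℤ) - 1) ((2 * M : ℕ) : ℤ) ∉ per n F := by
      intro h
      have h1 := hF h
      rw [mem_CE, dco_red] at h1
      have h2 : dco (edz ((j : ℤ) - 1) ((2 * M : ℕ) : ℤ)) = 2 * M := by
        unfold edz
        split_ifs with h3
        · simp only [dco, if_true]
          push_cast at h3 ⊢
          omega
        · simp only [dco, Bool.false_eq_true, if_false]
          push_cast at h3 ⊢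
          omega
      rw [h2] at h1
      have h3 := h1.2.2
      have h4 : (0 : ℤ) ≤ M := by positivity
      have : M = 0 := by omega
      subst this
      omega
    rw [om_neg (p := ((j : ℤ), 2 * M)) rfl hnot]
    unfold edz
    split_ifs with h3
    · have : j % 2 = 1 := by push_cast at h3; omega
      simp [this]
    · have : j % 2 = 0 := by push_cast at h3; omega
      simp [this]
  obtain ⟨n', hn'⟩ : ∃ n', n' + 1 = 2 * n := ⟨2 * n - 1, by omega⟩
  rw [Secc_iff h3 hWC hk hkn hA n' hn' (2 * M + 1) (by omega) (base n') 1 (by norm_num),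
    Secc_iff h3 hWC hk hkn hA n' hn' (2 * M + 1) (by omega) (base n') 0 (by norm_num)]

end Pool.Agent.W808.HU
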