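import Pool.Agent.W808.HU.Stm
import Pool.Agent.H863R2.Cyl.Markov

/-!
# HU, tasks HG and FIN: the dictionary between the half-plane and the half-infinite cylinder
primal vertex `(x, y)` = point `(x + y + 1, x - y)`, face `(x, y)` = point `(x + y + 2, x - y)`
-/

set_option autoImplicit false

namespace Pool.Agent.W808.HU
open H974 H906.Cyl
open Pool.Agent.H863R2.Cyl
open Pool.Agent.H988R2.Perc (Word)
open Pool.Agent.W808.HB (Lw HL LegEv HArm coinsH Gd Pn)

namespace TDic

/-- point of a vertex -/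
def pv (v : Vtx) : ℤ × ℕ := (v.1 + v.2 + 1, (v.1 - v.2).toNat)

/-- vertex of an odd point -/
def vp (p : ℤ × ℕ) : Vtx := ((p.1 + p.2 - 1) / 2, (p.1 - p.2 - 1) / 2)

/-- point of a face -/
def pf (v : Vtx) : ℤ × ℕ := (v.1 + v.2 + 2, (v.1 - v.2).toNat)

/-- face of an even point -/
def fp (p : ℤ × ℕ) : Vtx := ((p.1 + p.2 - 2) / 2, (p.1 - p.2 - 2) / 2)

/-- the coins `ω` describe the configuration `G` (circumference `N`) -/
def Mt (N : ℕ) (ω : ℤ × ℕ → Bool) (G : Set Edg) : Prop :=
  ∀ e : Edg, 0 ≤ dco e → (e ∈ G ↔ ω ((e.1 + e.2.1 + 1) % N, (dco e).toNat) = !e.2.2)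

theorem pair_eq {a a' : ℤ} {b b' : ℕ} (h1 : a = a') (h2 : b = b') : ((a, b) : ℤ × ℕ) = (a', b') := by
  rw [h1, h2]

theorem vtx_eq {a a' b b' : ℤ} (h1 : a = a') (h2 : b = b') : ((a, b) : Vtx) = (a', b') := by
  rw [h1, h2]

/-- open edges are diagonals -/
theorem edge_HL {N m : ℕ} {ω : ℤ × ℕ → Bool} {G : Set Edg} (h : Mt N ω G) {e : Edg}
    (he : e ∈ G) (h0 : 0 ≤ dco e) :
    HL N m ω (pv (src e)) (pv (tgt e)) ∨ HL N m ω (pv (tgt e)) (pv (src e)) := by
  have h1 := (h e h0).1 he
  obtain ⟨x, y, b⟩ := e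
  cases b
  · right
    simp only [dco, Bool.false_eq_true, if_false, Bool.not_false] at h0 h1
    simp only [src_mk, tgt_false, pv]
    have := HL.fall (N := N) (m := m) (ω := ω) (x + y + 1) (x - y - 1).toNat h1
    have e1 : (((x, y + 1) : Vtx).1 + ((x, y + 1) : Vtx).2 + 1,
        (((x, y + 1) : Vtx).1 - ((x, y + 1) : Vtx).2).toNat) = (x + y + 1 + 1, (x - y - 1).toNat) := by
      apply pair_eq
      · show x + (y + 1) + 1 = _
        ring
      · show (x - (y + 1)).toNat = _
        congr 1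
        ring
    have e2 : (((x, y) : Vtx).1 + ((x, y) : Vtx).2 + 1,
        (((x, y) : Vtx).1 - ((x, y) : Vtx).2).toNat) = (x + y + 1, (x - y - 1).toNat + 1) := by
      apply pair_eq rfl
      show (x - y).toNat = _
      omega
    rw [e1, e2]
    exact this
  · left
    simp only [dco, if_true, Bool.not_true] at h0 h1
    simp only [src_mk, tgt_true, pv]
    have := HL.rise (N := N) (m := m) (ω := ω) (x + y + 1) (x - y).toNat h1
    have e1 : (((x + 1, y) : Vtx).1 + ((x + 1, y) : Vtx).2 + 1,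
        (((x + 1, y) : Vtx).1 - ((x + 1, y) : Vtx).2).toNat) =
          (x + y + 1 + 1, (x - y).toNat + 1) := by
      apply pair_eq
      · show x + 1 + y + 1 = _
        ring
      · show (x + 1 - y).toNat = _
        omega
    rw [e1]
    exact this

theorem reach_HL {N m : ℕ} {ω : ℤ × ℕ → Bool} {G : Set Edg} (h : Mt N ω G) {u v : Vtx}
    (hr : Reach (G ∩ Hs) u v) : Relation.EqvGen (HL N m ω) (pv u) (pv v) := by
  induction hr with
  | refl => exact Relation.EqvGen.refl _
  | tail _ hs ih =>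
    refine Relation.EqvGen.trans _ _ _ ih ?_
    obtain ⟨e, ⟨he, h0⟩, ⟨rfl, rfl⟩ | ⟨rfl, rfl⟩⟩ := hs
    · rcases edge_HL (m := m) h he h0 with h1 | h1
      · exact Relation.EqvGen.rel _ _ h1
      · exact Relation.EqvGen.symm _ _ (Relation.EqvGen.rel _ _ h1)
    · rcases edge_HL (m := m) h he h0 with h1 | h1
      · exact Relation.EqvGen.symm _ _ (Relation.EqvGen.rel _ _ h1)
      · exact Relation.EqvGen.rel _ _ h1

theorem HL_reach {n k : ℕ} {ω : ℤ × ℕ → Bool} {G : Set Edg} (h : Mt (2 * n) ω G) {p q : ℤ × ℕ}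
    (hr : Relation.EqvGen (HL (2 * n) (2 * k) ω) p q) :
    (p.1 + p.2) % 2 = (q.1 + q.2) % 2 ∧
    ((p.1 + p.2) % 2 = 1 → Reach (G ∩ Hs) (vp p) (vp q)) := by
  induction hr with
  | rel p q hpq =>
    cases hpq with
    | rise j t hω =>
      refine ⟨by push_cast; omega, ?_⟩
      intro hp
      simp only at hp
      have h0 : (0 : ℤ) ≤ dco (((j + t - 1) / 2, (j - t - 1) / 2, true) : Edg) := by
        simp only [dco, if_true]
        omega
      have h1 := h (((j + t - 1) / 2, (j - t - 1) / 2, true) : Edg) h0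
      simp only [dco, if_true, Bool.not_true] at h1
      have e1 : (j + t - 1) / 2 + (j - t - 1) / 2 + 1 = j := by omega
      have e2 : ((j + t - 1) / 2 - (j - t - 1) / 2).toNat = t := by omega
      rw [e1, e2] at h1
      refine Relation.ReflTransGen.single ⟨_, ⟨h1.2 hω, h0⟩, Or.inl ⟨rfl, ?_⟩⟩
      show (((j + t - 1) / 2 + 1, (j - t - 1) / 2) : Vtx) = _
      unfold vp
      push_cast
      apply vtx_eq <;> omega
    | fall j t hω =>
      refine ⟨by push_cast; omega, ?_⟩
      intro hp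
      simp only at hp
      have h0 : (0 : ℤ) ≤ dco (((j + t) / 2, (j - t - 2) / 2, false) : Edg) := by
        simp only [dco, Bool.false_eq_true, if_false]
        omega
      have h1 := h (((j + t) / 2, (j - t - 2) / 2, false) : Edg) h0
      simp only [dco, Bool.false_eq_true, if_false, Bool.not_false] at h1
      have e1 : (j + t) / 2 + (j - t - 2) / 2 + 1 = j := by omega
      have e2 : ((j + t) / 2 - (j - t - 2) / 2 - 1).toNat = t := by omega
      rw [e1, e2] at h1
      refine Relation.ReflTransGen.single ⟨_, ⟨h1.2 hω, h0⟩, Or.inr ⟨?_, ?_⟩⟩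
      · show (((j + t) / 2, (j - t - 2) / 2) : Vtx) = _
        unfold vp
        push_cast
        apply vtx_eq <;> omega
      · show (((j + t) / 2, (j - t - 2) / 2 + 1) : Vtx) = _
        unfold vp
        push_cast
        apply vtx_eq <;> omega
    | wire s i hi =>
      have e1 : s * ((2 * n : ℕ) : ℤ) = 2 * (s * n) := by push_cast; ring
      simp only [e1]
      push_cast
      constructor
      · omega
      · intro hp
        omega
  | refl p => exact ⟨rfl, fun _ => Reach.refl _ _⟩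
  | symm p q _ ih => exact ⟨ih.1.symm, fun hq => (ih.2 (ih.1.trans hq)).symm⟩
  | trans p q r _ _ ih1 ih2 =>
    exact ⟨ih1.1.trans ih2.1, fun hp => (ih1.2 hp).trans (ih2.2 (ih1.1.symm.trans hp))⟩

/-! ## class 1 -/

theorem du_true (x y : ℤ) : du ((x, y, true) : Edg) = (x + 1, y, false) := by
  unfold du edz
  simp only [dco, if_true]
  rw [if_neg (by omega)]
  simp only [Prod.mk.injEq, and_true]
  omega

theorem du_false (x y : ℤ) : du ((x, y, false) : Edg) = (x, y + 1, true) := by
  unfold du edz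
  simp only [dco, Bool.false_eq_true, if_false]
  rw [if_pos (by omega)]
  simp only [Prod.mk.injEq, and_true]
  omega

/-- dual edges are diagonals -/
theorem dedge_HL {N m : ℕ} {ω : ℤ × ℕ → Bool} {G : Set Edg} (h : Mt N ω G) {e : Edg}
    (he : e ∈ dl G) :
    HL N m ω (pf (src e)) (pf (tgt e)) ∨ HL N m ω (pf (tgt e)) (pf (src e)) := by
  obtain ⟨h0, h1⟩ := he
  obtain ⟨x, y, b⟩ := e
  cases b
  · right
    rw [du_false] at h1
    simp only [dco, Bool.false_eq_true, if_false] at h0
    have h2 : (0 : ℤ) ≤ dco ((x, y + 1, true) : Edg) := by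
      simp only [dco, if_true]
      omega
    rw [h _ h2] at h1
    simp only [dco, if_true, Bool.not_true, Bool.not_eq_false] at h1
    have := HL.fall (N := N) (m := m) (ω := ω) (x + (y + 1) + 1) (x - (y + 1)).toNat h1
    have e1 : pf (tgt ((x, y, false) : Edg)) = (x + (y + 1) + 1 + 1, (x - (y + 1)).toNat) := by
      simp only [tgt_false, pf]
      apply pair_eq _ rfl
      ring
    have e2 : pf (src ((x, y, false) : Edg)) = (x + (y + 1) + 1, (x - (y + 1)).toNat + 1) := by
      simp only [src_mk, pf]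
      apply pair_eq
      · ring
      · omega
    rw [e1, e2]
    exact this
  · left
    rw [du_true] at h1
    simp only [dco, if_true] at h0
    have h2 : (0 : ℤ) ≤ dco ((x + 1, y, false) : Edg) := by
      simp only [dco, Bool.false_eq_true, if_false]
      omega
    rw [h _ h2] at h1
    simp only [dco, Bool.false_eq_true, if_false, Bool.not_false, Bool.not_eq_true] at h1
    have := HL.rise (N := N) (m := m) (ω := ω) (x + 1 + y + 1) (x + 1 - y - 1).toNat h1
    have e1 : pf (src ((x, y, true) : Edg)) = (x + 1 + y + 1, (x + 1 - y - 1).toNat) := by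
      simp only [src_mk, pf]
      apply pair_eq
      · ring
      · omega
    have e2 : pf (tgt ((x, y, true) : Edg)) = (x + 1 + y + 1 + 1, (x + 1 - y - 1).toNat + 1) := by
      simp only [tgt_true, pf]
      apply pair_eq
      · ring
      · omega
    rw [e1, e2]
    exact this

theorem R1_HL {n k : ℕ} {ω : ℤ × ℕ → Bool} {G : Set Edg} (h : Mt (2 * n) ω G) {u v : Vtx}
    (hr : R1 n k (dl G) u v) : Relation.EqvGen (HL (2 * n) (2 * k) ω) (pf u) (pf v) := by
  induction hr with
  | rel u v huv =>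
    rcases huv with hw | ⟨e, he, rfl, rfl⟩
    · cases hw with
      | wire s i h1 h2 =>
        have := HL.wire (N := 2 * n) (m := 2 * k) (ω := ω) s (i + 1 - k) (by omega)
        have e1 : pf (sv n s i) = (s * (2 * n : ℕ) + (2 * k : ℕ) + 2 * ((i + 1 - k : ℕ) : ℤ), 0) := by
          simp only [pf, sv]
          apply pair_eq
          · push_cast [Nat.cast_sub h1]
            ring
          · omega
        have e2 : pf (sv n s (i + 1)) =
            (s * (2 * n : ℕ) + (2 * k : ℕ) + 2 * ((i + 1 - k : ℕ) : ℤ) + 2, 0) := by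
          simp only [pf, sv]
          apply pair_eq
          · push_cast [Nat.cast_sub h1]
            ring
          · omega
        rw [e1, e2]
        exact Relation.EqvGen.rel _ _ this
    · rcases dedge_HL (m := 2 * k) h he with h1 | h1
      · exact Relation.EqvGen.rel _ _ h1
      · exact Relation.EqvGen.symm _ _ (Relation.EqvGen.rel _ _ h1)
  | refl p => exact Relation.EqvGen.refl _
  | symm p q _ ih => exact Relation.EqvGen.symm _ _ ih
  | trans p q r _ _ ih1 ih2 => exact Relation.EqvGen.trans _ _ _ ih1 ih2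

theorem HL_R1 {n k : ℕ} {ω : ℤ × ℕ → Bool} {G : Set Edg} (hk : 1 ≤ k) (h : Mt (2 * n) ω G)
    {p q : ℤ × ℕ} (hr : Relation.EqvGen (HL (2 * n) (2 * k) ω) p q) :
    (p.1 + p.2) % 2 = (q.1 + q.2) % 2 ∧
    ((p.1 + p.2) % 2 = 0 → R1 n k (dl G) (fp p) (fp q)) := by
  induction hr with
  | rel p q hpq =>
    cases hpq with
    | rise j t hω =>
      refine ⟨by push_cast; omega, ?_⟩
      intro hp
      simp only at hp
      have h0 : (0 : ℤ) ≤ dco (((j + t - 2) / 2, (j - t - 2) / 2, true) : Edg) := by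
        simp only [dco, if_true]
        omega
      have h2 : (0 : ℤ) ≤ dco (((j + t - 2) / 2 + 1, (j - t - 2) / 2, false) : Edg) := by
        simp only [dco, Bool.false_eq_true, if_false]
        omega
      have h1 := h _ h2
      simp only [dco, Bool.false_eq_true, if_false, Bool.not_false] at h1
      have e1 : (j + t - 2) / 2 + 1 + (j - t - 2) / 2 + 1 = j := by omega
      have e2 : ((j + t - 2) / 2 + 1 - (j - t - 2) / 2 - 1).toNat = t := by omega
      rw [e1, e2] at h1
      refine Relation.EqvGen.rel _ _ (Or.inr ⟨((j + t - 2) / 2, (j - t - 2) / 2, true),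
        ⟨h0, ?_⟩, rfl, ?_⟩)
      · rw [du_true, h1, hω]
        simp
      · show (((j + t - 2) / 2 + 1, (j - t - 2) / 2) : Vtx) = _
        unfold fp
        push_cast
        apply vtx_eq <;> omega
    | fall j t hω =>
      refine ⟨by push_cast; omega, ?_⟩
      intro hp
      simp only at hp
      have h0 : (0 : ℤ) ≤ dco (((j + t - 1) / 2, (j - t - 3) / 2, false) : Edg) := by
        simp only [dco, Bool.false_eq_true, if_false]
        omega
      have h2 : (0 : ℤ) ≤ dco (((j + t - 1) / 2, (j - t - 3) / 2 + 1, true) : Edg) := by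
        simp only [dco, if_true]
        omega
      have h1 := h _ h2
      simp only [dco, if_true, Bool.not_true] at h1
      have e1 : (j + t - 1) / 2 + ((j - t - 3) / 2 + 1) + 1 = j := by omega
      have e2 : ((j + t - 1) / 2 - ((j - t - 3) / 2 + 1)).toNat = t := by omega
      rw [e1, e2] at h1
      refine Relation.EqvGen.symm _ _ (Relation.EqvGen.rel _ _
        (Or.inr ⟨((j + t - 1) / 2, (j - t - 3) / 2, false), ⟨h0, ?_⟩, ?_, ?_⟩))
      · rw [du_false, h1, hω]
        simp
      · show (((j + t - 1) / 2, (j - t - 3) / 2) : Vtx) = _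
        unfold fp
        push_cast
        apply vtx_eq <;> omega
      · show (((j + t - 1) / 2, (j - t - 3) / 2 + 1) : Vtx) = _
        unfold fp
        push_cast
        apply vtx_eq <;> omega
    | wire s i hi =>
      have e1 : s * ((2 * n : ℕ) : ℤ) = 2 * (s * n) := by push_cast; ring
      constructor
      · simp only [e1]
        push_cast
        omega
      · intro _
        have := W1.wire (n := n) (k := k) s (i + k - 1) (by omega) (by omega)
        have e2 : fp (s * ((2 * n : ℕ) : ℤ) + ((2 * k : ℕ) : ℤ) + 2 * (i : ℤ), 0) =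
            sv n s (i + k - 1) := by
          unfold fp sv
          simp only [e1]
          push_cast [Nat.cast_sub (show 1 ≤ i + k by omega)]
          apply vtx_eq <;> omega
        have e3 : fp (s * ((2 * n : ℕ) : ℤ) + ((2 * k : ℕ) : ℤ) + 2 * (i : ℤ) + 2, 0) =
            sv n s (i + k - 1 + 1) := by
          unfold fp sv
          simp only [e1]
          push_cast [Nat.cast_sub (show 1 ≤ i + k by omega)]
          apply vtx_eq <;> omega
        rw [e2, e3]
        exact Relation.EqvGen.rel _ _ (Or.inl this)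
  | refl p => exact ⟨rfl, fun _ => Relation.EqvGen.refl _⟩
  | symm p q _ ih => exact ⟨ih.1.symm, fun hq => Relation.EqvGen.symm _ _ (ih.2 (ih.1.trans hq))⟩
  | trans p q r _ _ ih1 ih2 =>
    exact ⟨ih1.1.trans ih2.1, fun hp => Relation.EqvGen.trans _ _ _ (ih1.2 hp)
      (ih2.2 (ih1.1.symm.trans hp))⟩

/-! ## both classes as connections of sectors -/

/-- connections of the sectors -/
def CH (n k : ℕ) (ω : ℤ × ℕ → Bool) (a b : ℤ) : Prop :=
  Relation.EqvGen (HL (2 * n) (2 * k) ω) (a, 0) (b, 0)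

theorem pv_sv (n : ℕ) (s : ℤ) (i : ℕ) :
    pv (sv n s i) = (s * (2 * n : ℕ) + (2 * i + 1 : ℕ), 0) := by
  simp only [pv, sv]
  apply pair_eq
  · push_cast
    ring
  · omega

theorem vp_sv (n : ℕ) (s : ℤ) (i : ℕ) :
    vp (s * (2 * n : ℕ) + (2 * i + 1 : ℕ), 0) = sv n s i := by
  simp only [vp, sv]
  have e1 : s * ((2 * n : ℕ) : ℤ) = 2 * (s * n) := by push_cast; ring
  rw [e1]
  push_cast
  apply vtx_eq <;> omega

theorem pf_sv (n : ℕ) (s : ℤ) (i : ℕ) :
    pf (sv n s i) = (s * (2 * n : ℕ) + (2 * i + 2 : ℕ), 0) := by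
  simp only [pf, sv]
  apply pair_eq
  · push_cast
    ring
  · omega

theorem fp_sv (n : ℕ) (s : ℤ) (i : ℕ) :
    fp (s * (2 * n : ℕ) + (2 * i + 2 : ℕ), 0) = sv n s i := by
  simp only [fp, sv]
  have e1 : s * ((2 * n : ℕ) : ℤ) = 2 * (s * n) := by push_cast; ring
  rw [e1]
  push_cast
  apply vtx_eq <;> omega

theorem reach_iff {n k : ℕ} {ω : ℤ × ℕ → Bool} {G : Set Edg} (h : Mt (2 * n) ω G)
    (s s' : ℤ) (i j : ℕ) : Reach (G ∩ Hs) (sv n s i) (sv n s' j) ↔
      CH n k ω (s * (2 * n : ℕ) + (2 * i + 1 : ℕ)) (s' * (2 * n : ℕ) + (2 * j + 1 : ℕ)) := by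
  constructor
  · intro hr
    have := reach_HL (m := 2 * k) h hr
    rw [pv_sv, pv_sv] at this
    exact this
  · intro hr
    have e1 : s * ((2 * n : ℕ) : ℤ) = 2 * (s * n) := by push_cast; ring
    have := (HL_reach h hr).2 (by
      show (s * (2 * n : ℕ) + (2 * i + 1 : ℕ) + ((0 : ℕ) : ℤ)) % 2 = 1
      rw [e1]
      push_cast
      omega)
    rw [vp_sv, vp_sv] at this
    exact this

theorem R1_iff {n k : ℕ} {ω : ℤ × ℕ → Bool} {G : Set Edg} (hk : 1 ≤ k) (h : Mt (2 * n) ω G)
    (s s' : ℤ) (i j : ℕ) : R1 n k (dl G) (sv n s i) (sv n s' j) ↔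
      CH n k ω (s * (2 * n : ℕ) + (2 * i + 2 : ℕ)) (s' * (2 * n : ℕ) + (2 * j + 2 : ℕ)) := by
  constructor
  · intro hr
    have := R1_HL h hr
    rw [pf_sv, pf_sv] at this
    exact this
  · intro hr
    have e1 : s * ((2 * n : ℕ) : ℤ) = 2 * (s * n) := by push_cast; ring
    have := (HL_R1 hk h hr).2 (by
      show (s * (2 * n : ℕ) + (2 * i + 2 : ℕ) + ((0 : ℕ) : ℤ)) % 2 = 0
      rw [e1]
      push_cast
      omega)
    rw [fp_sv, fp_sv] at this
    exact this

theorem R1_iff0 {n k : ℕ} {ω : ℤ × ℕ → Bool} {G : Set Edg} (hk : 1 ≤ k) (h : Mt (2 * n) ω G)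
    (i : ℕ) : R1 n k (dl G) (sv n 0 i) (-1, -1) ↔ CH n k ω ((2 * i + 2 : ℕ)) 0 := by
  have e0 : pf ((-1, -1) : Vtx) = (0, 0) := rfl
  have e2 : fp ((0, 0) : ℤ × ℕ) = ((-1, -1) : Vtx) := by
    unfold fp
    apply vtx_eq <;> norm_num
  constructor
  · intro hr
    have := R1_HL h hr
    rw [pf_sv, e0, zero_mul, zero_add] at this
    exact this
  · intro hr
    have := (HL_R1 hk h hr).2 (by
      show (((2 * i + 2 : ℕ) : ℤ) + ((0 : ℕ) : ℤ)) % 2 = 0
      push_cast
      omega)
    have e3 := fp_sv n 0 i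
    rw [zero_mul, zero_add] at e3
    rw [e3, e2] at this
    exact this

theorem P0_iff {n k : ℕ} {ω : ℤ × ℕ → Bool} {G : Set Edg} (h : Mt (2 * n) ω G) :
    P0 n k G ↔ Secc 1 (2 * k) (2 * n) (CH n k ω) := by
  constructor
  · rintro ⟨h1, h2⟩
    refine ⟨?_, ?_⟩
    · intro c d hc hd hc1 hc2 hd2 hcd hC
      obtain ⟨i, rfl⟩ : ∃ i, c = 2 * i + 1 := ⟨c / 2, by omega⟩
      obtain ⟨j, rfl⟩ : ∃ j, d = 2 * j + 1 := ⟨d / 2, by omega⟩
      refine h1 i j (by omega) (by omega) (by omega) ?_
      rw [reach_iff (k := k) h]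
      simpa using hC
    · intro c hc hc1 hc2
      obtain ⟨i, rfl⟩ : ∃ i, c = 2 * i + 1 := ⟨c / 2, by omega⟩
      obtain ⟨s, hs, j, hj, hr⟩ := h2 i (by omega)
      refine ⟨s, hs, 2 * j + 1, by omega, by omega, ?_⟩
      rw [reach_iff (k := k) h] at hr
      simpa using hr
  · rintro ⟨h1, h2⟩
    refine ⟨?_, ?_⟩
    · intro i j hi hj hij hr
      rw [reach_iff (k := k) h] at hr
      refine h1 (2 * i + 1) (2 * j + 1) (by omega) (by omega) (by omega) (by omega) (by omega)
        (by omega) ?_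
      simpa using hr
    · intro i hi
      obtain ⟨s, hs, d, hd1, hd2, hC⟩ := h2 (2 * i + 1) (by omega) (by omega) (by omega)
      have hpar := (HL_reach h hC).1
      have e1 : s * ((2 * n : ℕ) : ℤ) = 2 * (s * n) := by push_cast; ring
      simp only [e1] at hpar
      obtain ⟨j, rfl⟩ : ∃ j, d = 2 * j + 1 := ⟨d / 2, by push_cast at hpar; omega⟩
      refine ⟨s, hs, j, by omega, ?_⟩
      rw [reach_iff (k := k) h]
      simpa using hC

theorem P1_iff {n k : ℕ} {ω : ℤ × ℕ → Bool} {G : Set Edg} (hk : 1 ≤ k) (h : Mt (2 * n) ω G) :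
    P1 n k G ↔ Secc 0 (2 * k) (2 * n) (CH n k ω) := by
  constructor
  · rintro ⟨h1, h2, h3⟩
    refine ⟨?_, ?_⟩
    · intro c d hc hd hc1 hc2 hd2 hcd hC
      obtain ⟨i, rfl⟩ : ∃ i, c = 2 * i + 2 := ⟨c / 2 - 1, by omega⟩
      rcases Nat.eq_zero_or_pos d with rfl | hd0
      · refine h2 i (by omega) ?_
        rw [R1_iff0 hk h]
        simpa using hC
      · obtain ⟨j, rfl⟩ : ∃ j, d = 2 * j + 2 := ⟨d / 2 - 1, by omega⟩
        refine h1 i j (by omega) (by omega) (by omega) ?_
        rw [R1_iff hk h]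
        simpa using hC
    · intro c hc hc1 hc2
      obtain ⟨i, rfl⟩ : ∃ i, c = 2 * i + 2 := ⟨c / 2 - 1, by omega⟩
      obtain ⟨s, hs, j, hj, hr⟩ := h3 i (by omega)
      refine ⟨s, hs, 2 * j + 2, by omega, by omega, ?_⟩
      rw [R1_iff hk h] at hr
      simpa using hr
  · rintro ⟨h1, h2⟩
    refine ⟨?_, ?_, ?_⟩
    · intro i j hi hj hij hr
      rw [R1_iff hk h] at hr
      refine h1 (2 * i + 2) (2 * j + 2) (by omega) (by omega) (by omega) (by omega) (by omega)
        (by omega) ?_
      simpa using hr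
    · intro i hi hr
      rw [R1_iff0 hk h] at hr
      refine h1 (2 * i + 2) 0 (by omega) (by omega) (by omega) (by omega) (by omega)
        (by omega) ?_
      simpa using hr
    · intro i hi
      obtain ⟨s, hs, d, hd1, hd2, hC⟩ := h2 (2 * i + 2) (by omega) (by omega) (by omega)
      have hpar := (HL_R1 hk h hC).1
      have e1 : s * ((2 * n : ℕ) : ℤ) = 2 * (s * n) := by push_cast; ring
      simp only [e1] at hpar
      obtain ⟨j, rfl⟩ : ∃ j, d = 2 * j + 2 := ⟨d / 2 - 1, by push_cast at hpar; omega⟩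
      refine ⟨s, hs, j, by omega, ?_⟩
      rw [R1_iff hk h]
      simpa using hC

end TDic

end Pool.Agent.W808.HU
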