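import Pool.Agent.W808.HU.Stm
import Pool.Agent.H160R2.MU.T_IND

/-!
Independence of the half-plane slit event in the boxes and of the bad event outside of them.
-/

set_option autoImplicit false

namespace Pool.Agent.W808.HU
open H974 H906.Cyl
open H12S (Dir hbE segD rimE H4 Crs Nr sqE)
open Pool.Agent.H160R2.ML (nm)
open Pool.Agent.H160R2.MU (Cel csq cpos rad prd shf BxS Bxs EP inSq PC Bad Trap Cc)
open Pool.Agent.H863R2.Cyl

namespace TIND

theorem SEh_congr {k R : ℕ} {G G' : Set Edg} (h : ∀ e ∈ boxE R, (e ∈ G ↔ e ∈ G')) :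
    SEh k R G ↔ SEh k R G' := by
  have e : G ∩ hbx R = G' ∩ hbx R := by
    ext e
    constructor
    · rintro ⟨h1, h2⟩
      exact ⟨(h e (Pool.Agent.H160R2.MU.TIND.mem_boxE_of h2.2.1 h2.2.2)).1 h1, h2⟩
    · rintro ⟨h1, h2⟩
      exact ⟨(h e (Pool.Agent.H160R2.MU.TIND.mem_boxE_of h2.2.1 h2.2.2)).2 h1, h2⟩
  unfold SEh
  rw [e]

end TIND

open TIND in
open Pool.Agent.H160R2.MU.TIND (Far Cc_congr Bad_mono') in
theorem t_IND : S_IND := by
  intro c N r ρ l ν k hc hN hν hr h1 hl h2
  set n : ℕ := ν * r with hndef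
  set M : ℕ := 4 * n with hMdef
  set R : ℕ := N * r / 2 with hRdef
  have hP : 4 * r ≤ N * r := Nat.mul_le_mul_right r hN
  have hnP : 4 * (N * r) ≤ n := by
    rw [hndef]
    calc 4 * (N * r) = 4 * N * r := by ring
      _ ≤ ν * r := Nat.mul_le_mul_right r hν
  have hn : 0 < n := by omega
  have hinj : Set.InjOn (red n) (boxE R : Set Edg) := by
    apply red_inj_x
    omega
  have himg : (boxE R).image (red n) ⊆ CE n M := by
    apply image_red_sub hn
    · omega
    · omega
  have hA : ∀ F, F ⊆ CE n M → (SEh k R (per n F) ↔ SEh k R (per n (F ∩ (boxE R).image (red n)))) := by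
    intro F _
    apply SEh_congr
    intro e he
    show red n e ∈ F ↔ red n e ∈ F ∩ (boxE R).image (red n)
    rw [Finset.mem_inter]
    exact ⟨fun h => ⟨h, Finset.mem_image_of_mem _ he⟩, fun h => h.1⟩
  have hB : ∀ F, F ⊆ CE n M → (Bad c N r ρ l ν n M F ↔
      Bad c N r ρ l ν n M (F ∩ (CE n M \ (boxE R).image (red n)))) := by
    intro F hF
    have key : ∀ e : Edg, Far n R e → (e ∈ Cc c n M F ↔
      e ∈ Cc c n M (F ∩ (CE n M \ (boxE R).image (red n)))) := fun e he => Cc_congr hF he
    constructor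
    · exact Bad_mono' hndef (by omega) (by omega) (by omega) (by omega) key
    · exact Bad_mono' hndef (by omega) (by omega) (by omega) (by omega)
        fun e he => (key e he).symm
  have e1 : PC n M (fun F => SEh k R (per n F) ∧ Bad c N r ρ l ν n M F) =
      PC n M (fun F => SEh k R (per n F)) * PC n M (Bad c N r ρ l ν n M) :=
    Pr_indep himg Finset.sdiff_subset Finset.disjoint_sdiff hA hB
  have e2 : PC n M (fun F => SEh k R (per n F)) = sPh k R := by
    have e3 := Pr_red (q := 1 / 2) hinj himg (fun F => SEh k R (↑F : Set Edg))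
    unfold sPh PC
    rw [← e3]
    apply Pr_congr
    intro F _
    apply SEh_congr
    intro e he
    simp only [Finset.coe_filter, Set.mem_ofPred_eq, he, true_and]
    rfl
  have e4 : PC n M (fun F => SEh k (N * r / 2 : ℕ) (per n F) ∧ Bad c N r ρ l ν n M F) =
      PC n M (fun F => SEh k R (per n F) ∧ Bad c N r ρ l ν n M F) := rfl
  rw [e4, e1, e2]

end Pool.Agent.W808.HU
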