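import Pool.Agent.W808.HU.Stm
import Pool.Agent.H160R2.MU.T_MON

/-!
# MON: monotonicity of the probability of the half-plane arm event, locality
-/

set_option autoImplicit false

namespace Pool.Agent.W808.HU
open H974 H906.Cyl
open Pool.Agent.H160R2.ML (nm)
open Pool.Agent.H160R2.MU.TMON (nm_le_iff nm_tgt_le nm_src_le mem_box box_mono)

namespace TMON

theorem hbx_sub_box {R : ℕ} {e : Edg} (he : e ∈ hbx (R : ℤ)) : e ∈ boxE R :=
  mem_box he.2.1 he.2.2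

theorem hbx_sub_Hs {R : ℤ} : hbx R ⊆ Hs := fun _ he => he.1

theorem hbx_mono {R R' : ℤ} (h : R ≤ R') : hbx R ⊆ hbx R' :=
  fun _ he => ⟨he.1, he.2.1.trans h, he.2.2.trans h⟩

theorem adj_hbx {R : ℤ} {G : Set Edg} (hG : G ⊆ Hs) {b c : Vtx} (h : Adj G b c) (hb : nm b < R) :
    Adj (G ∩ hbx R) b c ∧ nm c ≤ R := by
  obtain ⟨e, he, h1⟩ := h
  have h3 := nm_tgt_le e
  have h4 := nm_src_le e
  rcases h1 with ⟨rfl, rfl⟩ | ⟨rfl, rfl⟩
  · exact ⟨⟨e, ⟨he, hG he, by omega, by omega⟩, Or.inl ⟨rfl, rfl⟩⟩, by omega⟩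
  · exact ⟨⟨e, ⟨he, hG he, by omega, by omega⟩, Or.inr ⟨rfl, rfl⟩⟩, by omega⟩

/-- first passage at distance `R` -/
theorem pass {R : ℤ} {G : Set Edg} (hG : G ⊆ Hs) {x y : Vtx} (hx : nm x ≤ R)
    (h : Reach G x y) (hy : R ≤ nm y) : ∃ z : Vtx, nm z = R ∧ Reach (G ∩ hbx R) x z := by
  have key : (nm y < R ∧ Reach (G ∩ hbx R) x y) ∨ ∃ z : Vtx, nm z = R ∧ Reach (G ∩ hbx R) x z := by
    clear hy
    induction h with
    | refl =>
      rcases hx.lt_or_eq with h1 | h1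
      · exact Or.inl ⟨h1, Reach.refl _ _⟩
      · exact Or.inr ⟨x, h1, Reach.refl _ _⟩
    | tail _ hs ih =>
      rcases ih with ⟨h1, h2⟩ | h1
      · obtain ⟨h3, h4⟩ := adj_hbx hG hs h1
        have h5 := Reach.trans h2 h3.reach
        rcases h4.lt_or_eq with h6 | h6
        · exact Or.inl ⟨h6, h5⟩
        · exact Or.inr ⟨_, h6, h5⟩
      · exact Or.inr h1
  rcases key with ⟨h1, _⟩ | h1
  · omega
  · exact h1

theorem sv0 (i : ℕ) : sv 0 0 i = ((i : ℤ), (i : ℤ)) := by simp [sv]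

theorem sv_nm {k i : ℕ} (hi : i < k) : nm (sv 0 0 i) ≤ (k : ℤ) - 1 := by
  rw [nm_le_iff, sv0]
  simp only
  omega

theorem seh_mono {k R R' : ℕ} (hkR : k ≤ R) (hR : R ≤ R') {G : Set Edg}
    (h : SEh k (R' : ℤ) G) : SEh k (R : ℤ) G := by
  have hR' : (R : ℤ) ≤ R' := by exact_mod_cast hR
  refine ⟨fun i j hi hj hij hc => h.1 i j hi hj hij
    (hc.mono (Set.inter_subset_inter_right _ (hbx_mono hR'))), fun i hi => ?_⟩
  obtain ⟨y, hy, hc⟩ := h.2 i hi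
  have h1 := sv_nm hi
  obtain ⟨z, hz1, hz2⟩ := pass (R := (R : ℤ)) (G := G ∩ hbx (R' : ℤ))
    (fun e he => hbx_sub_Hs he.2) (by omega) hc (by omega)
  have h2 : (G ∩ hbx (R' : ℤ)) ∩ hbx (R : ℤ) ⊆ G ∩ hbx (R : ℤ) := fun e he => ⟨he.1.1, he.2⟩
  exact ⟨z, hz1, Reach.mono h2 hz2⟩

/-- the event only depends on the edges of the half box -/
theorem seh_congr {k : ℕ} {R : ℤ} {G G' : Set Edg} (h : ∀ e ∈ hbx R, (e ∈ G ↔ e ∈ G')) :
    SEh k R G ↔ SEh k R G' := by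
  have h1 : G ∩ hbx R = G' ∩ hbx R := by
    ext e
    constructor
    · exact fun he => ⟨(h e he.2).1 he.1, he.2⟩
    · exact fun he => ⟨(h e he.2).2 he.1, he.2⟩
  unfold SEh
  rw [h1]

theorem seh_local {k R : ℕ} (F : Finset Edg) :
    SEh k (R : ℤ) (↑F : Set Edg) ↔ SEh k (R : ℤ) (↑(F ∩ boxE R) : Set Edg) := by
  refine seh_congr fun e he => ?_
  rw [Finset.mem_coe, Finset.mem_coe, Finset.mem_inter]
  exact ⟨fun h => ⟨h, hbx_sub_box he⟩, fun h => h.1⟩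

end TMON

theorem t_MON : S_MON := by
  intro k R R' hk hkR hR
  have ok : Ok (fun _ : Edg => (1 / 2 : ℝ)) := fun _ => ⟨by norm_num, by norm_num⟩
  unfold sPh
  refine (Pr_mono ok fun F _ h => TMON.seh_mono hkR hR h).trans (le_of_eq ?_)
  exact Pr_local (box_mono hR) fun F _ => TMON.seh_local F

end Pool.Agent.W808.HU
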