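import Pool.Agent.W808.HU.Stm
import Pool.Agent.H160R2.MU.T_SEPB

/-!
# Half-plane: different primal clusters are far from each other at the boundary of boxes and tubes
(helper741, adapted from `Pool.Agent.H160R2.MU.T_SEPB` of helper536)
-/

set_option autoImplicit false

namespace Pool.Agent.W808.HU
open H974 H906.Cyl
open H12S (Dir hbE segD rimE H4 H3g Crs Nr sqE FD_nb FD_nb_of FD_mem_RE FD_of_mem_RE FD_div)
open Pool.Agent.H160R2.ML (nm)
open Pool.Agent.H160R2.MU (Cel csq cpos rad prd shf BxS Bxs EP inSq PC Bad Trap Cc)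
open Pool.Agent.H160R2.MU.TSEPB (sq_uniq sq_below EP_loc EP_of nb_sym hb_case BadQ farx EP_shift
  EP_shift_iff EP_red EP_union far_box ext_sq)

namespace TSEPB

/-- leaving a region -/
theorem exit_reach {G : Set Edg} {x y : Vtx} (h : Reach G x y) (R : Vtx → Prop) (hx : R x)
    (hy : ¬ R y) : ∃ v w, Reach (G ∩ {e | R (src e) ∧ R (tgt e)}) x v ∧ R v ∧ ¬ R w ∧
      ∃ e ∈ G, (src e = v ∧ tgt e = w) ∨ (src e = w ∧ tgt e = v) := by
  have key : (Reach (G ∩ {e | R (src e) ∧ R (tgt e)}) x y ∧ R y) ∨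
      ∃ v w, Reach (G ∩ {e | R (src e) ∧ R (tgt e)}) x v ∧ R v ∧ ¬ R w ∧
        ∃ e ∈ G, (src e = v ∧ tgt e = w) ∨ (src e = w ∧ tgt e = v) := by
    clear hy
    induction h with
    | refl => exact Or.inl ⟨Reach.refl _ _, hx⟩
    | @tail b c hab hbc ih =>
      rcases ih with ⟨h1, h2⟩ | h1
      · by_cases hc : R c
        · left
          obtain ⟨e, he, hec⟩ := hbc
          refine ⟨h1.trans (Adj.reach ⟨e, ⟨he, ?_⟩, hec⟩), hc⟩
          rcases hec with ⟨h3, h4⟩ | ⟨h3, h4⟩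
          · exact ⟨by rw [h3]; exact h2, by rw [h4]; exact hc⟩
          · exact ⟨by rw [h3]; exact hc, by rw [h4]; exact h2⟩
        · right
          obtain ⟨e, he, hec⟩ := hbc
          exact ⟨b, c, h1, h2, hc, e, he, hec⟩
      · exact Or.inr h1
  rcases key with ⟨-, h2⟩ | h1
  · exact absurd h2 hy
  · exact h1

theorem RE_Hs {a b c d : ℤ} (h : d ≤ a) {g : Edg} (hg : g ∈ RE a b c d) : g ∈ Hs := by
  obtain ⟨x, y, b'⟩ := g
  cases b'
  · rw [mem_RE_false] at hg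
    simp only [Hs, Set.mem_ofPred_eq, dco, Bool.false_eq_true, if_false]
    omega
  · rw [mem_RE_true] at hg
    simp only [Hs, Set.mem_ofPred_eq, dco, if_true]
    omega

theorem H4_Hs {d : Dir} {x0 y0 : ℤ} {r ρ : ℕ} {CF : Set Edg} (hs : ∀ g ∈ hbE d x0 y0 ρ, g ∈ Hs)
    (h : H4 d x0 y0 r ρ (CF ∩ Hs)) : H4 d x0 y0 r ρ CF := by
  have e : (CF ∩ Hs) ∩ ↑(hbE d x0 y0 ρ) = CF ∩ (↑(hbE d x0 y0 ρ) : Set Edg) := by
    ext g
    constructor
    · rintro ⟨⟨h1, -⟩, h3⟩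
      exact ⟨h1, h3⟩
    · rintro ⟨h1, h3⟩
      exact ⟨⟨h1, hs g (Finset.mem_coe.1 h3)⟩, h3⟩
  unfold H4 H3g at h ⊢
  rw [e] at h
  exact h

/-- common data -/
structure Ctx (N r ρ l ν : ℕ) (P : Set (ℤ × ℤ)) (C CF : Set Edg) (u u' : Vtx) : Prop where
  hl : 1 ≤ l
  h1 : 32 * l ≤ ρ
  h2 : 32 * ρ ≤ r
  c1 : ∀ g ∈ C, g ∈ EP r P
  c2 : ∀ g ∈ CF, g ∈ Hs → g ∈ EP r P → g ∈ C
  c3 : C ⊆ CF
  c4 : C ⊆ Hs
  un : ∃ g, g ∉ EP r P ∧ (src g = u ∨ tgt g = u)
  un' : ∃ g, g ∉ EP r P ∧ (src g = u' ∨ tgt g = u')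
  uy' : ∃ g ∈ EP r P, (src g = u' ∨ tgt g = u')
  n1 : |u.1 - u'.1| ≤ 4 * l
  n2 : |u.2 - u'.2| ≤ 4 * l
  ex : ∀ R : Vtx → Prop, R u → (∀ v, R v → |v.1 - u.1| ≤ r ∧ |v.2 - u.2| ≤ r) →
      ∃ v w, Reach (C ∩ {e | R (src e) ∧ R (tgt e)}) u v ∧ R v ∧ ¬ R w ∧
        ∃ e ∈ C, (src e = v ∧ tgt e = w) ∨ (src e = w ∧ tgt e = v)
  ex' : ∀ R : Vtx → Prop, R u' → (∀ v, R v → |v.1 - u.1| ≤ r ∧ |v.2 - u.2| ≤ r) →
      ∃ v w, Reach (C ∩ {e | R (src e) ∧ R (tgt e)}) u' v ∧ R v ∧ ¬ R w ∧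
        ∃ e ∈ C, (src e = v ∧ tgt e = w) ∨ (src e = w ∧ tgt e = v)
  hD : ∀ s : ℤ, (N : ℤ) * r ≤ |u.1 - s * (ν * r : ℕ)| ∨ (N : ℤ) * r ≤ |u.2 - s * (ν * r : ℕ)|
  hext : |u.1 - u.2| ≤ 2 * ((ν * r : ℕ) : ℤ) - 2 * r

/-- the conclusion -/
def Con (N r ρ l ν : ℕ) (C CF : Set Edg) (u u' : Vtx) : Prop :=
  BadQ N r ρ l ν CF ∨ ∃ R : Vtx → Prop, (∀ v, R v → |v.1 - u.1| ≤ r ∧ |v.2 - u.2| ≤ r) ∧ R u ∧
    Reach (C ∩ {e | R (src e) ∧ R (tgt e)}) u u'

section
variable {N r ρ l ν : ℕ} {P : Set (ℤ × ℤ)} {C CF : Set Edg} {u u' : Vtx}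

/-- near a coarse vertex -/
theorem corner (h : Ctx N r ρ l ν P C CF u u') {ζ : ℤ × ℤ} (a1 : |u.1 - r * ζ.1| ≤ 3 * ρ)
    (a2 : |u.2 - r * ζ.2| ≤ 3 * ρ) : Con N r ρ l ν C CF u u' := by
  have b1 := h.hl
  have b2 := h.h1
  have b3 := h.h2
  have hr : (0 : ℤ) < r := by have : 0 < r := by omega
                              exact_mod_cast this
  left
  left
  refine ⟨ζ, ?_, ?_, ?_⟩
  · have h1 := h.hext
    rw [abs_le] at h1 a1 a2 ⊢
    have e1 : (r : ℤ) * (ζ.1 - ζ.2) < r * (2 * ν) := by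
      push_cast at h1
      have : (r : ℤ) * (ζ.1 - ζ.2) = r * ζ.1 - r * ζ.2 := by ring
      rw [this]
      have : (r : ℤ) * (2 * ν) = 2 * (ν * r) := by ring
      rw [this]
      omega
    have e2 : (r : ℤ) * (ζ.2 - ζ.1) < r * (2 * ν) := by
      push_cast at h1
      have : (r : ℤ) * (ζ.2 - ζ.1) = r * ζ.2 - r * ζ.1 := by ring
      rw [this]
      have : (r : ℤ) * (2 * ν) = 2 * (ν * r) := by ring
      rw [this]
      omega
    have e3 := lt_of_mul_lt_mul_left e1 hr.le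
    have e4 := lt_of_mul_lt_mul_left e2 hr.le
    constructor <;> linarith
  · intro s
    have key : ∀ x ζ' : ℤ, |x - r * ζ'| ≤ 3 * ρ → (N : ℤ) * r ≤ |x - s * (ν * r : ℕ)| →
        (N : ℤ) ≤ |ζ' - s * ν| := by
      intro x ζ' h1 h2
      rw [abs_le] at h1
      have e0 : s * ((ν * r : ℕ) : ℤ) = r * (s * ν) := by push_cast; ring
      rw [e0] at h2
      rw [le_abs] at h2 ⊢
      rcases h2 with h2 | h2
      · left
        have : (r : ℤ) * N < r * (ζ' - s * ν + 1) := by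
          have : (r : ℤ) * (ζ' - s * ν + 1) = r * ζ' - r * (s * ν) + r := by ring
          rw [this]
          have : (r : ℤ) * N = N * r := by ring
          rw [this]
          omega
        have := lt_of_mul_lt_mul_left this hr.le
        omega
      · right
        have : (r : ℤ) * N < r * (-(ζ' - s * ν) + 1) := by
          have : (r : ℤ) * (-(ζ' - s * ν) + 1) = r * (s * ν) - r * ζ' + r := by ring
          rw [this]
          have : (r : ℤ) * N = N * r := by ring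
          rw [this]
          omega
        have := lt_of_mul_lt_mul_left this hr.le
        omega
    rcases h.hD s with h3 | h3
    · exact Or.inl (key _ _ a1 h3)
    · exact Or.inr (key _ _ a2 h3)
  · obtain ⟨A, hA⟩ : ∃ A : ℤ, A = r * ζ.1 := ⟨_, rfl⟩
    obtain ⟨B, hB⟩ : ∃ B : ℤ, B = r * ζ.2 := ⟨_, rfl⟩
    rw [← hA] at a1
    rw [← hB] at a2
    rw [← hA, ← hB]
    rw [abs_le] at a1 a2
    obtain ⟨v, w, k1, k2, k3, e, he, hvw⟩ := h.ex
      (fun v => |v.1 - A| < ((r / 2 : ℕ) : ℤ) ∧ |v.2 - B| < ((r / 2 : ℕ) : ℤ))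
      (by
        rw [abs_lt, abs_lt]
        push_cast
        omega)
      (by
        intro v hv
        rw [abs_lt, abs_lt] at hv
        rw [abs_le, abs_le]
        push_cast at hv
        omega)
    refine ⟨u, w, ?_, ?_, ?_⟩
    · unfold inR
      push_cast
      omega
    · rw [abs_lt, abs_lt] at k3
      push_cast at k3 ⊢
      omega
    · exact (k1.mono fun g hg => h.c3 hg.1).trans (Adj.reach ⟨e, h.c3 he, hvw⟩)

theorem dir_up (h : Ctx N r ρ l ν P C CF u u') (hdi : 3 * (ρ : ℤ) < u.1 - u.2)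
    {z : ℤ × ℤ} (hz : z ∈ P) (hz' : (z.1, z.2 - 1) ∉ P) (a1 : r * z.1 + 2 * ρ < u.1) (a2 : u.1 < r * z.1 + r - 2 * ρ)
    (a3 : u.2 = r * z.2) : Con N r ρ l ν C CF u u' := by
  have b1 := h.hl
  have b2 := h.h1
  have b3 := h.h2
  have hr : 1 ≤ r := by omega
  have n1 := h.n1
  have n2 := h.n2
  rw [abs_le] at n1 n2
  obtain ⟨A, hA⟩ : ∃ A : ℤ, A = (r : ℤ) * z.1 := ⟨_, rfl⟩
  obtain ⟨E, hE0⟩ : ∃ E : ℤ, E = (r : ℤ) * z.2 := ⟨_, rfl⟩
  obtain ⟨B, hB⟩ : ∃ B : ℤ, B = E := ⟨_, rfl⟩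
  have hzp : (r : ℤ) * (z.2 - 1) = E - r := by rw [hE0]; ring
  have hBj : B = r * z.2 := by rw [hB, hE0]
  -- location of squares of `P` near the line
  have tang : ∀ (q : ℤ × ℤ) (x : ℤ), A < x → x < A + r → (r : ℤ) * q.1 ≤ x → x ≤ (r : ℤ) * q.1 + r →
      q.1 = z.1 := by
    intro q x k1 k2 k3 k4
    exact sq_uniq hr (hA ▸ k1) (hA ▸ k2) k3 k4
  rw [← hA] at a1 a2
  have a3' : u.2 = B := by rw [a3, hB, hE0]
  have hu'2 : u'.2 = B := by
    rcases lt_trichotomy u'.2 B with hlt | heq | hgt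
    · exfalso
      obtain ⟨g, hg, hgu⟩ := h.uy'
      obtain ⟨q, hq, hq1⟩ : ∃ q ∈ P, inSq r q u' := by
        rcases hgu with hgu | hgu
        · obtain ⟨q, hq, hq1, -⟩ := EP_loc hg (Or.inl ⟨hgu, rfl⟩)
          exact ⟨q, hq, hq1⟩
        · obtain ⟨q, hq, -, hq1⟩ := EP_loc hg (Or.inl ⟨rfl, hgu⟩)
          exact ⟨q, hq, hq1⟩
      unfold inSq at hq1
      have k1 : q.1 = z.1 := tang q u'.1 (by omega) (by omega) (by omega) (by omega)
      have k2 : q.2 = z.2 - 1 := by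
        refine sq_uniq hr (x := u'.2) ?_ ?_ ?_ ?_
        · rw [hzp]; omega
        · rw [hzp]; omega
        · omega
        · omega
      exact hz' (by rw [← k2, ← k1]; exact hq)
    · exact heq
    · exfalso
      obtain ⟨g, hg, hgu⟩ := h.un'
      apply hg
      have hnb : ∀ w : Vtx, (w = u' ∨ FD_nb u' w) → inSq r z w := by
        intro w hw
        unfold inSq
        rw [← hA, ← hE0]
        rcases hw with rfl | hw
        · omega
        · unfold FD_nb at hw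
          omega
      rcases hgu with hgu | hgu
      · exact EP_of hz (hnb _ (Or.inl hgu)) (hnb _ (Or.inr (FD_nb_of (Or.inl ⟨hgu, rfl⟩))))
      · exact EP_of hz (hnb _ (Or.inr (FD_nb_of (Or.inr ⟨rfl, hgu⟩)))) (hnb _ (Or.inl hgu))
  obtain ⟨i, hi1, hi2⟩ : ∃ i : ℤ, (l : ℤ) * i ≤ u.1 ∧ u.1 < (l : ℤ) * i + l :=
    ⟨u.1 / l, (FD_div b1).1 rfl⟩
  obtain ⟨x0, hx0⟩ : ∃ x0 : ℤ, x0 = (l : ℤ) * i := ⟨_, rfl⟩
  rw [← hx0] at hi1 hi2
  have hEq : hbE Dir.up x0 B ρ = RE (x0 - ρ) (x0 + ρ) B (B + ρ) := rfl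
  have hrimdef : ∀ w : Vtx, w ∈ rimE Dir.up x0 B ρ ↔ (inR (x0 - ρ) (x0 + ρ) B (B + ρ) w ∧
      (w.1 = x0 - ρ ∨ w.1 = x0 + ρ ∨ w.2 = B + ρ)) := fun w => Iff.rfl
  have hsegdef : ∀ v : Vtx, v ∈ segD Dir.up x0 B (8 * l) ↔ (v.2 = B ∧ x0 - (8 * l : ℕ) ≤ v.1 ∧ v.1 ≤ x0 + (8 * l : ℕ)) := fun v => Iff.rfl
  have key : H4 Dir.up x0 B (8 * l) ρ (CF ∩ Hs) ∨ Reach (C ∩ {e | inR (x0 - ρ) (x0 + ρ) B (B + ρ) (src e) ∧
      inR (x0 - ρ) (x0 + ρ) B (B + ρ) (tgt e)}) u u' := by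
    refine hb_case (P := P) (r := r) (CF := CF ∩ Hs) h.c1 (fun g hg hg2 => h.c2 g hg.1 hg.2 hg2)
      (fun g hg => ⟨h.c3 hg, h.c4 hg⟩) hEq ?_ ?_ ?_ ?_ ?_ ?_ ?_ ?_
    · intro w w2 hw hwr g hg hgw
      rw [hrimdef] at hwr
      have hwr' : ¬ (w.1 = x0 - ρ ∨ w.1 = x0 + ρ ∨ w.2 = B + ρ) := fun hh => hwr ⟨hw, hh⟩
      obtain ⟨q, hq, hq1, hq2⟩ := EP_loc hg hgw
      have hnb := FD_nb_of hgw
      unfold inR at hw ⊢
      unfold FD_nb at hnb
      unfold inSq at hq1 hq2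
      by_cases h5 : w2.2 < B
      · exfalso
        have k1 : q.1 = z.1 := tang q w.1 (by omega) (by omega) (by omega) (by omega)
        have k2 : q.2 = z.2 - 1 := by
          refine sq_below hr ?_ ?_
          · rw [← hE0]; omega
          · rw [← hE0]; omega
        exact hz' (by rw [← k2, ← k1]; exact hq)
      · omega
    · intro g hg
      obtain ⟨g1, g2⟩ := FD_of_mem_RE hg
      unfold inR at g1 g2
      refine EP_of hz ?_ ?_ <;> · unfold inSq
                                  rw [← hA, ← hE0]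
                                  omega
    · unfold inR
      omega
    · unfold inR
      omega
    · rw [hsegdef]
      push_cast
      omega
    · rw [hsegdef]
      push_cast
      omega
    · intro R hR hR2
      refine h.ex R hR fun v hv => ?_
      have := hR2 v hv
      unfold inR at this
      rw [abs_le, abs_le]
      omega
    · intro R hR hR2
      refine h.ex' R hR fun v hv => ?_
      have := hR2 v hv
      unfold inR at this
      rw [abs_le, abs_le]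
      omega
  rcases key with hres | hres
  · left
    right
    refine ⟨Dir.up, x0, B, i, z.2, ?_, ?_, ?_,
      H4_Hs (fun g hg => RE_Hs (by omega) (hEq ▸ hg)) hres⟩
    · have h1 := h.hext
      rw [abs_le] at h1 ⊢
      push_cast at h1 ⊢
      omega
    · intro s
      rcases h.hD s with h3 | h3
      · exact Or.inl (farx hr b1 b2 (hA ▸ a1) (hA ▸ a2) hi1 hi2 h3)
      · right
        rw [a3'] at h3
        omega
    · exact Or.inl ⟨Or.inl rfl, hx0, Or.inl hBj⟩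
  · right
    refine ⟨fun v => inR (x0 - ρ) (x0 + ρ) B (B + ρ) v, ?_, ?_, hres⟩
    · intro v hv
      unfold inR at hv
      rw [abs_le, abs_le]
      omega
    · unfold inR
      omega

theorem dir_dn (h : Ctx N r ρ l ν P C CF u u') (hdi : 3 * (ρ : ℤ) < u.1 - u.2)
    {z : ℤ × ℤ} (hz : z ∈ P) (hz' : (z.1, z.2 + 1) ∉ P) (a1 : r * z.1 + 2 * ρ < u.1) (a2 : u.1 < r * z.1 + r - 2 * ρ)
    (a3 : u.2 = r * z.2 + r) : Con N r ρ l ν C CF u u' := by
  have b1 := h.hl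
  have b2 := h.h1
  have b3 := h.h2
  have hr : 1 ≤ r := by omega
  have n1 := h.n1
  have n2 := h.n2
  rw [abs_le] at n1 n2
  obtain ⟨A, hA⟩ : ∃ A : ℤ, A = (r : ℤ) * z.1 := ⟨_, rfl⟩
  obtain ⟨E, hE0⟩ : ∃ E : ℤ, E = (r : ℤ) * z.2 := ⟨_, rfl⟩
  obtain ⟨B, hB⟩ : ∃ B : ℤ, B = E + r := ⟨_, rfl⟩
  have hzp : (r : ℤ) * (z.2 + 1) = E + r := by rw [hE0]; ring
  have hBj : B = r * (z.2 + 1) := by rw [hB, hE0]; ring
  -- location of squares of `P` near the line
  have tang : ∀ (q : ℤ × ℤ) (x : ℤ), A < x → x < A + r → (r : ℤ) * q.1 ≤ x → x ≤ (r : ℤ) * q.1 + r →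
      q.1 = z.1 := by
    intro q x k1 k2 k3 k4
    exact sq_uniq hr (hA ▸ k1) (hA ▸ k2) k3 k4
  rw [← hA] at a1 a2
  have a3' : u.2 = B := by rw [a3, hB, hE0]
  have hu'2 : u'.2 = B := by
    rcases lt_trichotomy u'.2 B with hlt | heq | hgt
    · exfalso
      obtain ⟨g, hg, hgu⟩ := h.un'
      apply hg
      have hnb : ∀ w : Vtx, (w = u' ∨ FD_nb u' w) → inSq r z w := by
        intro w hw
        unfold inSq
        rw [← hA, ← hE0]
        rcases hw with rfl | hw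
        · omega
        · unfold FD_nb at hw
          omega
      rcases hgu with hgu | hgu
      · exact EP_of hz (hnb _ (Or.inl hgu)) (hnb _ (Or.inr (FD_nb_of (Or.inl ⟨hgu, rfl⟩))))
      · exact EP_of hz (hnb _ (Or.inr (FD_nb_of (Or.inr ⟨rfl, hgu⟩)))) (hnb _ (Or.inl hgu))
    · exact heq
    · exfalso
      obtain ⟨g, hg, hgu⟩ := h.uy'
      obtain ⟨q, hq, hq1⟩ : ∃ q ∈ P, inSq r q u' := by
        rcases hgu with hgu | hgu
        · obtain ⟨q, hq, hq1, -⟩ := EP_loc hg (Or.inl ⟨hgu, rfl⟩)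
          exact ⟨q, hq, hq1⟩
        · obtain ⟨q, hq, -, hq1⟩ := EP_loc hg (Or.inl ⟨rfl, hgu⟩)
          exact ⟨q, hq, hq1⟩
      unfold inSq at hq1
      have k1 : q.1 = z.1 := tang q u'.1 (by omega) (by omega) (by omega) (by omega)
      have k2 : q.2 = z.2 + 1 := by
        refine sq_uniq hr (x := u'.2) ?_ ?_ ?_ ?_
        · rw [hzp]; omega
        · rw [hzp]; omega
        · omega
        · omega
      exact hz' (by rw [← k2, ← k1]; exact hq)
  obtain ⟨i, hi1, hi2⟩ : ∃ i : ℤ, (l : ℤ) * i ≤ u.1 ∧ u.1 < (l : ℤ) * i + l :=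
    ⟨u.1 / l, (FD_div b1).1 rfl⟩
  obtain ⟨x0, hx0⟩ : ∃ x0 : ℤ, x0 = (l : ℤ) * i := ⟨_, rfl⟩
  rw [← hx0] at hi1 hi2
  have hEq : hbE Dir.dn x0 B ρ = RE (x0 - ρ) (x0 + ρ) (B - ρ) B := rfl
  have hrimdef : ∀ w : Vtx, w ∈ rimE Dir.dn x0 B ρ ↔ (inR (x0 - ρ) (x0 + ρ) (B - ρ) B w ∧
      (w.1 = x0 - ρ ∨ w.1 = x0 + ρ ∨ w.2 = B - ρ)) := fun w => Iff.rfl
  have hsegdef : ∀ v : Vtx, v ∈ segD Dir.dn x0 B (8 * l) ↔ (v.2 = B ∧ x0 - (8 * l : ℕ) ≤ v.1 ∧ v.1 ≤ x0 + (8 * l : ℕ)) := fun v => Iff.rfl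
  have key : H4 Dir.dn x0 B (8 * l) ρ (CF ∩ Hs) ∨ Reach (C ∩ {e | inR (x0 - ρ) (x0 + ρ) (B - ρ) B (src e) ∧
      inR (x0 - ρ) (x0 + ρ) (B - ρ) B (tgt e)}) u u' := by
    refine hb_case (P := P) (r := r) (CF := CF ∩ Hs) h.c1 (fun g hg hg2 => h.c2 g hg.1 hg.2 hg2)
      (fun g hg => ⟨h.c3 hg, h.c4 hg⟩) hEq ?_ ?_ ?_ ?_ ?_ ?_ ?_ ?_
    · intro w w2 hw hwr g hg hgw
      rw [hrimdef] at hwr
      have hwr' : ¬ (w.1 = x0 - ρ ∨ w.1 = x0 + ρ ∨ w.2 = B - ρ) := fun hh => hwr ⟨hw, hh⟩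
      obtain ⟨q, hq, hq1, hq2⟩ := EP_loc hg hgw
      have hnb := FD_nb_of hgw
      unfold inR at hw ⊢
      unfold FD_nb at hnb
      unfold inSq at hq1 hq2
      by_cases h5 : B < w2.2
      · exfalso
        have k1 : q.1 = z.1 := tang q w.1 (by omega) (by omega) (by omega) (by omega)
        have k2 : q.2 = z.2 + 1 := by
          have hh : z.2 = q.2 - 1 := by
            refine sq_below hr ?_ ?_
            · rw [← hE0]; omega
            · rw [← hE0]; omega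
          omega
        exact hz' (by rw [← k2, ← k1]; exact hq)
      · omega
    · intro g hg
      obtain ⟨g1, g2⟩ := FD_of_mem_RE hg
      unfold inR at g1 g2
      refine EP_of hz ?_ ?_ <;> · unfold inSq
                                  rw [← hA, ← hE0]
                                  omega
    · unfold inR
      omega
    · unfold inR
      omega
    · rw [hsegdef]
      push_cast
      omega
    · rw [hsegdef]
      push_cast
      omega
    · intro R hR hR2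
      refine h.ex R hR fun v hv => ?_
      have := hR2 v hv
      unfold inR at this
      rw [abs_le, abs_le]
      omega
    · intro R hR hR2
      refine h.ex' R hR fun v hv => ?_
      have := hR2 v hv
      unfold inR at this
      rw [abs_le, abs_le]
      omega
  rcases key with hres | hres
  · left
    right
    refine ⟨Dir.dn, x0, B, i, (z.2 + 1), ?_, ?_, ?_,
      H4_Hs (fun g hg => RE_Hs (by omega) (hEq ▸ hg)) hres⟩
    · have h1 := h.hext
      rw [abs_le] at h1 ⊢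
      push_cast at h1 ⊢
      omega
    · intro s
      rcases h.hD s with h3 | h3
      · exact Or.inl (farx hr b1 b2 (hA ▸ a1) (hA ▸ a2) hi1 hi2 h3)
      · right
        rw [a3'] at h3
        omega
    · exact Or.inl ⟨Or.inr rfl, hx0, Or.inl hBj⟩
  · right
    refine ⟨fun v => inR (x0 - ρ) (x0 + ρ) (B - ρ) B v, ?_, ?_, hres⟩
    · intro v hv
      unfold inR at hv
      rw [abs_le, abs_le]
      omega
    · unfold inR
      omega

theorem dir_rt (h : Ctx N r ρ l ν P C CF u u') (hdi : 3 * (ρ : ℤ) < u.1 - u.2)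
    {z : ℤ × ℤ} (hz : z ∈ P) (hz' : (z.1 - 1, z.2) ∉ P) (a1 : r * z.2 + 2 * ρ < u.2) (a2 : u.2 < r * z.2 + r - 2 * ρ)
    (a3 : u.1 = r * z.1) : Con N r ρ l ν C CF u u' := by
  have b1 := h.hl
  have b2 := h.h1
  have b3 := h.h2
  have hr : 1 ≤ r := by omega
  have n1 := h.n1
  have n2 := h.n2
  rw [abs_le] at n1 n2
  obtain ⟨A, hA⟩ : ∃ A : ℤ, A = (r : ℤ) * z.2 := ⟨_, rfl⟩
  obtain ⟨E, hE0⟩ : ∃ E : ℤ, E = (r : ℤ) * z.1 := ⟨_, rfl⟩
  obtain ⟨B, hB⟩ : ∃ B : ℤ, B = E := ⟨_, rfl⟩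
  have hzp : (r : ℤ) * (z.1 - 1) = E - r := by rw [hE0]; ring
  have hBj : B = r * z.1 := by rw [hB, hE0]
  -- location of squares of `P` near the line
  have tang : ∀ (q : ℤ × ℤ) (x : ℤ), A < x → x < A + r → (r : ℤ) * q.2 ≤ x → x ≤ (r : ℤ) * q.2 + r →
      q.2 = z.2 := by
    intro q x k1 k2 k3 k4
    exact sq_uniq hr (hA ▸ k1) (hA ▸ k2) k3 k4
  rw [← hA] at a1 a2
  have a3' : u.1 = B := by rw [a3, hB, hE0]
  have hu'2 : u'.1 = B := by
    rcases lt_trichotomy u'.1 B with hlt | heq | hgt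
    · exfalso
      obtain ⟨g, hg, hgu⟩ := h.uy'
      obtain ⟨q, hq, hq1⟩ : ∃ q ∈ P, inSq r q u' := by
        rcases hgu with hgu | hgu
        · obtain ⟨q, hq, hq1, -⟩ := EP_loc hg (Or.inl ⟨hgu, rfl⟩)
          exact ⟨q, hq, hq1⟩
        · obtain ⟨q, hq, -, hq1⟩ := EP_loc hg (Or.inl ⟨rfl, hgu⟩)
          exact ⟨q, hq, hq1⟩
      unfold inSq at hq1
      have k1 : q.2 = z.2 := tang q u'.2 (by omega) (by omega) (by omega) (by omega)
      have k2 : q.1 = z.1 - 1 := by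
        refine sq_uniq hr (x := u'.1) ?_ ?_ ?_ ?_
        · rw [hzp]; omega
        · rw [hzp]; omega
        · omega
        · omega
      exact hz' (by rw [← k2, ← k1]; exact hq)
    · exact heq
    · exfalso
      obtain ⟨g, hg, hgu⟩ := h.un'
      apply hg
      have hnb : ∀ w : Vtx, (w = u' ∨ FD_nb u' w) → inSq r z w := by
        intro w hw
        unfold inSq
        rw [← hA, ← hE0]
        rcases hw with rfl | hw
        · omega
        · unfold FD_nb at hw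
          omega
      rcases hgu with hgu | hgu
      · exact EP_of hz (hnb _ (Or.inl hgu)) (hnb _ (Or.inr (FD_nb_of (Or.inl ⟨hgu, rfl⟩))))
      · exact EP_of hz (hnb _ (Or.inr (FD_nb_of (Or.inr ⟨rfl, hgu⟩)))) (hnb _ (Or.inl hgu))
  obtain ⟨i, hi1, hi2⟩ : ∃ i : ℤ, (l : ℤ) * i ≤ u.2 ∧ u.2 < (l : ℤ) * i + l :=
    ⟨u.2 / l, (FD_div b1).1 rfl⟩
  obtain ⟨x0, hx0⟩ : ∃ x0 : ℤ, x0 = (l : ℤ) * i := ⟨_, rfl⟩
  rw [← hx0] at hi1 hi2
  have hEq : hbE Dir.rt B x0 ρ = RE B (B + ρ) (x0 - ρ) (x0 + ρ) := rfl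
  have hrimdef : ∀ w : Vtx, w ∈ rimE Dir.rt B x0 ρ ↔ (inR B (B + ρ) (x0 - ρ) (x0 + ρ) w ∧
      (w.1 = B + ρ ∨ w.2 = x0 - ρ ∨ w.2 = x0 + ρ)) := fun w => Iff.rfl
  have hsegdef : ∀ v : Vtx, v ∈ segD Dir.rt B x0 (8 * l) ↔ (v.1 = B ∧ x0 - (8 * l : ℕ) ≤ v.2 ∧ v.2 ≤ x0 + (8 * l : ℕ)) := fun v => Iff.rfl
  have key : H4 Dir.rt B x0 (8 * l) ρ (CF ∩ Hs) ∨ Reach (C ∩ {e | inR B (B + ρ) (x0 - ρ) (x0 + ρ) (src e) ∧
      inR B (B + ρ) (x0 - ρ) (x0 + ρ) (tgt e)}) u u' := by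
    refine hb_case (P := P) (r := r) (CF := CF ∩ Hs) h.c1 (fun g hg hg2 => h.c2 g hg.1 hg.2 hg2)
      (fun g hg => ⟨h.c3 hg, h.c4 hg⟩) hEq ?_ ?_ ?_ ?_ ?_ ?_ ?_ ?_
    · intro w w2 hw hwr g hg hgw
      rw [hrimdef] at hwr
      have hwr' : ¬ (w.1 = B + ρ ∨ w.2 = x0 - ρ ∨ w.2 = x0 + ρ) := fun hh => hwr ⟨hw, hh⟩
      obtain ⟨q, hq, hq1, hq2⟩ := EP_loc hg hgw
      have hnb := FD_nb_of hgw
      unfold inR at hw ⊢
      unfold FD_nb at hnb
      unfold inSq at hq1 hq2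
      by_cases h5 : w2.1 < B
      · exfalso
        have k1 : q.2 = z.2 := tang q w.2 (by omega) (by omega) (by omega) (by omega)
        have k2 : q.1 = z.1 - 1 := by
          refine sq_below hr ?_ ?_
          · rw [← hE0]; omega
          · rw [← hE0]; omega
        exact hz' (by rw [← k2, ← k1]; exact hq)
      · omega
    · intro g hg
      obtain ⟨g1, g2⟩ := FD_of_mem_RE hg
      unfold inR at g1 g2
      refine EP_of hz ?_ ?_ <;> · unfold inSq
                                  rw [← hA, ← hE0]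
                                  omega
    · unfold inR
      omega
    · unfold inR
      omega
    · rw [hsegdef]
      push_cast
      omega
    · rw [hsegdef]
      push_cast
      omega
    · intro R hR hR2
      refine h.ex R hR fun v hv => ?_
      have := hR2 v hv
      unfold inR at this
      rw [abs_le, abs_le]
      omega
    · intro R hR hR2
      refine h.ex' R hR fun v hv => ?_
      have := hR2 v hv
      unfold inR at this
      rw [abs_le, abs_le]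
      omega
  rcases key with hres | hres
  · left
    right
    refine ⟨Dir.rt, B, x0, i, z.1, ?_, ?_, ?_,
      H4_Hs (fun g hg => RE_Hs (by omega) (hEq ▸ hg)) hres⟩
    · have h1 := h.hext
      rw [abs_le] at h1 ⊢
      push_cast at h1 ⊢
      omega
    · intro s
      rcases h.hD s with h3 | h3
      · left
        rw [a3'] at h3
        omega
      · exact Or.inr (farx hr b1 b2 (hA ▸ a1) (hA ▸ a2) hi1 hi2 h3)
    · exact Or.inr ⟨Or.inl rfl, hx0, Or.inl hBj⟩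
  · right
    refine ⟨fun v => inR B (B + ρ) (x0 - ρ) (x0 + ρ) v, ?_, ?_, hres⟩
    · intro v hv
      unfold inR at hv
      rw [abs_le, abs_le]
      omega
    · unfold inR
      omega

theorem dir_lf (h : Ctx N r ρ l ν P C CF u u') (hdi : 3 * (ρ : ℤ) < u.1 - u.2)
    {z : ℤ × ℤ} (hz : z ∈ P) (hz' : (z.1 + 1, z.2) ∉ P) (a1 : r * z.2 + 2 * ρ < u.2) (a2 : u.2 < r * z.2 + r - 2 * ρ)
    (a3 : u.1 = r * z.1 + r) : Con N r ρ l ν C CF u u' := by
  have b1 := h.hl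
  have b2 := h.h1
  have b3 := h.h2
  have hr : 1 ≤ r := by omega
  have n1 := h.n1
  have n2 := h.n2
  rw [abs_le] at n1 n2
  obtain ⟨A, hA⟩ : ∃ A : ℤ, A = (r : ℤ) * z.2 := ⟨_, rfl⟩
  obtain ⟨E, hE0⟩ : ∃ E : ℤ, E = (r : ℤ) * z.1 := ⟨_, rfl⟩
  obtain ⟨B, hB⟩ : ∃ B : ℤ, B = E + r := ⟨_, rfl⟩
  have hzp : (r : ℤ) * (z.1 + 1) = E + r := by rw [hE0]; ring
  have hBj : B = r * (z.1 + 1) := by rw [hB, hE0]; ring
  -- location of squares of `P` near the line
  have tang : ∀ (q : ℤ × ℤ) (x : ℤ), A < x → x < A + r → (r : ℤ) * q.2 ≤ x → x ≤ (r : ℤ) * q.2 + r →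
      q.2 = z.2 := by
    intro q x k1 k2 k3 k4
    exact sq_uniq hr (hA ▸ k1) (hA ▸ k2) k3 k4
  rw [← hA] at a1 a2
  have a3' : u.1 = B := by rw [a3, hB, hE0]
  have hu'2 : u'.1 = B := by
    rcases lt_trichotomy u'.1 B with hlt | heq | hgt
    · exfalso
      obtain ⟨g, hg, hgu⟩ := h.un'
      apply hg
      have hnb : ∀ w : Vtx, (w = u' ∨ FD_nb u' w) → inSq r z w := by
        intro w hw
        unfold inSq
        rw [← hA, ← hE0]
        rcases hw with rfl | hw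
        · omega
        · unfold FD_nb at hw
          omega
      rcases hgu with hgu | hgu
      · exact EP_of hz (hnb _ (Or.inl hgu)) (hnb _ (Or.inr (FD_nb_of (Or.inl ⟨hgu, rfl⟩))))
      · exact EP_of hz (hnb _ (Or.inr (FD_nb_of (Or.inr ⟨rfl, hgu⟩)))) (hnb _ (Or.inl hgu))
    · exact heq
    · exfalso
      obtain ⟨g, hg, hgu⟩ := h.uy'
      obtain ⟨q, hq, hq1⟩ : ∃ q ∈ P, inSq r q u' := by
        rcases hgu with hgu | hgu
        · obtain ⟨q, hq, hq1, -⟩ := EP_loc hg (Or.inl ⟨hgu, rfl⟩)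
          exact ⟨q, hq, hq1⟩
        · obtain ⟨q, hq, -, hq1⟩ := EP_loc hg (Or.inl ⟨rfl, hgu⟩)
          exact ⟨q, hq, hq1⟩
      unfold inSq at hq1
      have k1 : q.2 = z.2 := tang q u'.2 (by omega) (by omega) (by omega) (by omega)
      have k2 : q.1 = z.1 + 1 := by
        refine sq_uniq hr (x := u'.1) ?_ ?_ ?_ ?_
        · rw [hzp]; omega
        · rw [hzp]; omega
        · omega
        · omega
      exact hz' (by rw [← k2, ← k1]; exact hq)
  obtain ⟨i, hi1, hi2⟩ : ∃ i : ℤ, (l : ℤ) * i ≤ u.2 ∧ u.2 < (l : ℤ) * i + l :=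
    ⟨u.2 / l, (FD_div b1).1 rfl⟩
  obtain ⟨x0, hx0⟩ : ∃ x0 : ℤ, x0 = (l : ℤ) * i := ⟨_, rfl⟩
  rw [← hx0] at hi1 hi2
  have hEq : hbE Dir.lf B x0 ρ = RE (B - ρ) B (x0 - ρ) (x0 + ρ) := rfl
  have hrimdef : ∀ w : Vtx, w ∈ rimE Dir.lf B x0 ρ ↔ (inR (B - ρ) B (x0 - ρ) (x0 + ρ) w ∧
      (w.1 = B - ρ ∨ w.2 = x0 - ρ ∨ w.2 = x0 + ρ)) := fun w => Iff.rfl
  have hsegdef : ∀ v : Vtx, v ∈ segD Dir.lf B x0 (8 * l) ↔ (v.1 = B ∧ x0 - (8 * l : ℕ) ≤ v.2 ∧ v.2 ≤ x0 + (8 * l : ℕ)) := fun v => Iff.rfl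
  have key : H4 Dir.lf B x0 (8 * l) ρ (CF ∩ Hs) ∨ Reach (C ∩ {e | inR (B - ρ) B (x0 - ρ) (x0 + ρ) (src e) ∧
      inR (B - ρ) B (x0 - ρ) (x0 + ρ) (tgt e)}) u u' := by
    refine hb_case (P := P) (r := r) (CF := CF ∩ Hs) h.c1 (fun g hg hg2 => h.c2 g hg.1 hg.2 hg2)
      (fun g hg => ⟨h.c3 hg, h.c4 hg⟩) hEq ?_ ?_ ?_ ?_ ?_ ?_ ?_ ?_
    · intro w w2 hw hwr g hg hgw
      rw [hrimdef] at hwr
      have hwr' : ¬ (w.1 = B - ρ ∨ w.2 = x0 - ρ ∨ w.2 = x0 + ρ) := fun hh => hwr ⟨hw, hh⟩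
      obtain ⟨q, hq, hq1, hq2⟩ := EP_loc hg hgw
      have hnb := FD_nb_of hgw
      unfold inR at hw ⊢
      unfold FD_nb at hnb
      unfold inSq at hq1 hq2
      by_cases h5 : B < w2.1
      · exfalso
        have k1 : q.2 = z.2 := tang q w.2 (by omega) (by omega) (by omega) (by omega)
        have k2 : q.1 = z.1 + 1 := by
          have hh : z.1 = q.1 - 1 := by
            refine sq_below hr ?_ ?_
            · rw [← hE0]; omega
            · rw [← hE0]; omega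
          omega
        exact hz' (by rw [← k2, ← k1]; exact hq)
      · omega
    · intro g hg
      obtain ⟨g1, g2⟩ := FD_of_mem_RE hg
      unfold inR at g1 g2
      refine EP_of hz ?_ ?_ <;> · unfold inSq
                                  rw [← hA, ← hE0]
                                  omega
    · unfold inR
      omega
    · unfold inR
      omega
    · rw [hsegdef]
      push_cast
      omega
    · rw [hsegdef]
      push_cast
      omega
    · intro R hR hR2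
      refine h.ex R hR fun v hv => ?_
      have := hR2 v hv
      unfold inR at this
      rw [abs_le, abs_le]
      omega
    · intro R hR hR2
      refine h.ex' R hR fun v hv => ?_
      have := hR2 v hv
      unfold inR at this
      rw [abs_le, abs_le]
      omega
  rcases key with hres | hres
  · left
    right
    refine ⟨Dir.lf, B, x0, i, (z.1 + 1), ?_, ?_, ?_,
      H4_Hs (fun g hg => RE_Hs (by omega) (hEq ▸ hg)) hres⟩
    · have h1 := h.hext
      rw [abs_le] at h1 ⊢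
      push_cast at h1 ⊢
      omega
    · intro s
      rcases h.hD s with h3 | h3
      · left
        rw [a3'] at h3
        omega
      · exact Or.inr (farx hr b1 b2 (hA ▸ a1) (hA ▸ a2) hi1 hi2 h3)
    · exact Or.inr ⟨Or.inr rfl, hx0, Or.inl hBj⟩
  · right
    refine ⟨fun v => inR (B - ρ) B (x0 - ρ) (x0 + ρ) v, ?_, ?_, hres⟩
    · intro v hv
      unfold inR at hv
      rw [abs_le, abs_le]
      omega
    · unfold inR
      omega

theorem planar (h : Ctx N r ρ l ν P C CF u u') {z : ℤ × ℤ} (hz : z ∈ P) (hzu : inSq r z u)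
    (hdi0 : (∀ ζ : ℤ × ℤ, ¬ (|u.1 - r * ζ.1| ≤ 3 * ρ ∧ |u.2 - r * ζ.2| ≤ 3 * ρ)) →
      3 * (ρ : ℤ) < u.1 - u.2) :
    Con N r ρ l ν C CF u u' := by
  by_cases hc : ∃ ζ : ℤ × ℤ, |u.1 - r * ζ.1| ≤ 3 * ρ ∧ |u.2 - r * ζ.2| ≤ 3 * ρ
  · obtain ⟨ζ, a1, a2⟩ := hc
    exact corner h a1 a2
  · have c0 : ∀ ζ : ℤ × ℤ, ¬ (|u.1 - r * ζ.1| ≤ 3 * ρ ∧ |u.2 - r * ζ.2| ≤ 3 * ρ) :=
      fun ζ hh => hc ⟨ζ, hh⟩
    have hdi := hdi0 c0
    have d1 := c0 (z.1, z.2)
    have d2 := c0 (z.1 + 1, z.2)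
    have d3 := c0 (z.1, z.2 + 1)
    have d4 := c0 (z.1 + 1, z.2 + 1)
    have b1 := h.hl
    have b2 := h.h1
    have b3 := h.h2
    have e1 : (r : ℤ) * (z.1 + 1) = r * z.1 + r := by ring
    have e2 : (r : ℤ) * (z.2 + 1) = r * z.2 + r := by ring
    have e3 : (r : ℤ) * (z.1 - 1) = r * z.1 - r := by ring
    have e4 : (r : ℤ) * (z.2 - 1) = r * z.2 - r := by ring
    simp only [e1, e2, abs_le] at d1 d2 d3 d4
    obtain ⟨g, hg, hgu⟩ := h.un
    obtain ⟨w, hw⟩ : ∃ w, (src g = u ∧ tgt g = w) ∨ (src g = w ∧ tgt g = u) := by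
      rcases hgu with hgu | hgu
      · exact ⟨_, Or.inl ⟨hgu, rfl⟩⟩
      · exact ⟨_, Or.inr ⟨rfl, hgu⟩⟩
    have hnot : ∀ q ∈ P, inSq r q u → ¬ inSq r q w := by
      intro q hq k1 k2
      apply hg
      rcases hw with ⟨k3, k4⟩ | ⟨k3, k4⟩
      · exact EP_of hq (k3 ▸ k1) (k4 ▸ k2)
      · exact EP_of hq (k3 ▸ k2) (k4 ▸ k1)
    have hz1 := hnot z hz hzu
    have hnb := FD_nb_of hw
    have hR := hnot (z.1 + 1, z.2)
    have hL := hnot (z.1 - 1, z.2)
    have hU := hnot (z.1, z.2 + 1)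
    have hD := hnot (z.1, z.2 - 1)
    unfold inSq at hzu hz1 hR hL hU hD
    simp only [e1, e2, e3, e4] at hzu hz1 hR hL hU hD
    rcases hnb with ⟨k1, k2 | k2⟩ | ⟨k1, k2 | k2⟩
    · have hx : u.1 = r * z.1 + r := by omega
      refine dir_lf h hdi hz (fun hq => ?_) ?_ ?_ hx
      · exact hR hq (by omega) (by omega)
      · omega
      · omega
    · have hx : u.1 = r * z.1 := by omega
      refine dir_rt h hdi hz (fun hq => ?_) ?_ ?_ hx
      · exact hL hq (by omega) (by omega)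
      · omega
      · omega
    · have hx : u.2 = r * z.2 + r := by omega
      refine dir_dn h hdi hz (fun hq => ?_) ?_ ?_ hx
      · exact hU hq (by omega) (by omega)
      · omega
      · omega
    · have hx : u.2 = r * z.2 := by omega
      refine dir_up h hdi hz (fun hq => ?_) ?_ ?_ hx
      · exact hD hq (by omega) (by omega)
      · omega
      · omega

end

theorem mem_FB {N r k : ℕ} {c : Fin k → Cel} {n M : ℕ} {F : Finset Edg} {e : Edg} :
    e ∈ FB N r k c n M F ↔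
      e ∈ CE n M ∧ (e ∈ EP r (Bxs N k) ∨ e ∈ EP r (CrrH N k c)) ∧ e ∈ F := by
  classical
  unfold FB
  simp only [Finset.mem_filter]

/-- the endpoints of an edge of the half-plane lie in the half-plane -/
theorem Hs_end {g : Edg} (hg : g ∈ Hs) {v : Vtx} (hv : src g = v ∨ tgt g = v) : v.2 ≤ v.1 := by
  obtain ⟨x, y, b⟩ := g
  cases b
  · simp only [Hs, Set.mem_ofPred_eq, dco, Bool.false_eq_true, if_false] at hg
    simp only [src_mk, tgt_false] at hv
    rcases hv with rfl | rfl <;> dsimp only <;> omega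
  · simp only [Hs, Set.mem_ofPred_eq, dco, if_true] at hg
    simp only [src_mk, tgt_true] at hv
    rcases hv with rfl | rfl <;> dsimp only <;> omega

end TSEPB

open TSEPB in
theorem t_SEPB (_h1 : S_h1) (_h2 : S_h2) (h4 : S_h4) : S_SEPB := by
  intro N r k ρ l c hk hN hAdm hl h1 h2 n M hn hM F hF hB s s' i i' u u' hi hi' hu hu' hue hu'e hnear
  obtain ⟨hC3, hP4⟩ := h4 N k c hk hN hAdm
  obtain ⟨-, -, hper, hext⟩ := hP4 _ rfl
  set P : Set (ℤ × ℤ) := Bxs N k ∪ CrrH N k c with hPdef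
  set G : Finset Edg := FB N r k c n M F with hGdef
  have hr1 : 1 ≤ r := by omega
  have hr' : (0 : ℤ) < r := by exact_mod_cast hr1
  have hCc : Cc 0 n M F = per n F := by
    unfold Cc
    simp
  have hNr : (k : ℤ) + 4 * r ≤ N * r := by
    have e1 : (k : ℤ) + 4 ≤ N := by exact_mod_cast hN
    have e2 : (1 : ℤ) ≤ r := by exact_mod_cast hr1
    have e3 : (0 : ℤ) ≤ k := by positivity
    nlinarith
  -- the planar configurations
  have c3 : (per n G ∩ Hs : Set Edg) ⊆ per n F := by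
    intro e he
    exact per_mono n (fun e he => (mem_FB.1 he).2.2) he.1
  have c1 : ∀ g ∈ (per n G ∩ Hs : Set Edg), g ∈ EP r P := by
    rintro g ⟨hg, -⟩
    have h3 : red n g ∈ G := hg
    have h4 := (mem_FB.1 h3).2.1
    rw [← EP_union, ← hPdef] at h4
    rw [hn] at h4
    exact (EP_red hper).1 h4
  have c2 : ∀ g ∈ (per n F : Set Edg), g ∈ Hs → g ∈ EP r P → g ∈ (per n G ∩ Hs : Set Edg) := by
    intro g hg hgH hgP
    have h3 : red n g ∈ F := hg
    have h4 : red n g ∈ EP r P := by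
      rw [hn]
      exact (EP_red hper).2 hgP
    rw [hPdef, EP_union] at h4
    exact ⟨mem_FB.2 ⟨hF h3, h4, h3⟩, hgH⟩
  -- facts about the two points
  have main : ∀ (p : Vtx) (t : ℤ) (j : ℕ), j < k →
      Reach (per n G ∩ Hs) (sv n t j) p →
      (∃ e : Edg, 0 ≤ dco e ∧ e ∉ EP r (Bxs N k) ∧ e ∉ EP r (CrrH N k c) ∧
        (src e = p ∨ tgt e = p)) →
      (∃ g, g ∉ EP r P ∧ (src g = p ∨ tgt g = p)) ∧
      (∃ g ∈ EP r P, g ∈ Hs ∧ (src g = p ∨ tgt g = p)) ∧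
      (∀ q : ℤ, (N : ℤ) * r ≤ |p.1 - q * (prd N k * r : ℕ)| ∨
        (N : ℤ) * r ≤ |p.2 - q * (prd N k * r : ℕ)|) := by
    rintro p t j hj hp ⟨e, -, he1, he2, hw⟩
    have hgn : e ∉ EP r P := by
      rw [hPdef, EP_union]
      tauto
    have hfar : ∀ q : ℤ, (N : ℤ) * r ≤ |p.1 - q * (prd N k * r : ℕ)| ∨
        (N : ℤ) * r ≤ |p.2 - q * (prd N k * r : ℕ)| := fun q' => far_box hr1 he1 hw q'
    refine ⟨⟨_, hgn, hw⟩, ?_, hfar⟩
    obtain ⟨v, w', -, k2, -, g, hg, hgv⟩ := exit_reach hp.symm (fun v => v = p) rfl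
      (by
        intro hh
        have := hfar t
        rw [← hh, ← hn] at this
        unfold sv at this
        simp only [le_abs] at this
        omega)
    have k2' : v = p := k2
    refine ⟨g, c1 g hg, hg.2, ?_⟩
    rcases hgv with ⟨h, -⟩ | ⟨-, h⟩
    · exact Or.inl (h.trans k2')
    · exact Or.inr (h.trans k2')
  obtain ⟨hun, ⟨gy, hgy, hgyH, hgyu⟩, hfar⟩ := main u s i hi hu hue
  obtain ⟨hun', ⟨gy', hgy', -, hgyu'⟩, -⟩ := main u' s' i' hi' hu' hu'e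
  obtain ⟨z, hz, hzu⟩ : ∃ z ∈ P, inSq r z u := by
    rcases hgyu with hv | hv
    · obtain ⟨q, hq, hq1, -⟩ := EP_loc hgy (Or.inl ⟨hv, rfl⟩)
      exact ⟨q, hq, hq1⟩
    · obtain ⟨q, hq, -, hq1⟩ := EP_loc hgy (Or.inl ⟨rfl, hv⟩)
      exact ⟨q, hq, hq1⟩
  have huH : u.2 ≤ u.1 := Hs_end hgyH hgyu
  have hextu : |u.1 - u.2| ≤ 2 * ((prd N k * r : ℕ) : ℤ) - 2 * r := by
    have h5 := ext_sq (ν := prd N k + 4 * N) (by push_cast; exact hext z hz) hzu
    refine h5.trans ?_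
    have h6 : (prd N k : ℤ) = 4 * (N + 4 * k) := by unfold prd; push_cast; ring
    push_cast
    rw [h6]
    have e3 : (2 : ℤ) ≤ k := by exact_mod_cast hk
    nlinarith
  have exit : ∀ (p : Vtx) (t : ℤ) (j : ℕ), j < k →
      Reach (per n G ∩ Hs) (sv n t j) p →
      ∀ R : Vtx → Prop, R p →
      (∀ v, R v → |v.1 - u.1| ≤ r ∧ |v.2 - u.2| ≤ r) →
      ∃ v w, Reach ((per n G ∩ Hs) ∩ {e | R (src e) ∧ R (tgt e)}) p v ∧ R v ∧ ¬ R w ∧
        ∃ e ∈ (per n G ∩ Hs : Set Edg), (src e = v ∧ tgt e = w) ∨ (src e = w ∧ tgt e = v) := by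
    intro p t j hj hp R hR hRn
    refine exit_reach hp.symm R hR ?_
    intro hh
    have h3 := hRn _ hh
    have h4 := hfar t
    unfold sv at h3
    rw [← hn] at h4
    simp only [abs_le, le_abs] at h3 h4
    omega
  -- far from the diagonal
  have hdi0 : (∀ ζ : ℤ × ℤ, ¬ (|u.1 - r * ζ.1| ≤ 3 * ρ ∧ |u.2 - r * ζ.2| ≤ 3 * ρ)) →
      3 * (ρ : ℤ) < u.1 - u.2 := by
    intro hc
    by_contra hcon
    push Not at hcon
    rcases hz with hz | hz
    · obtain ⟨q, hq⟩ := hz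
      unfold BxS shf at hq
      simp only [Set.mem_ofPred_eq] at hq
      obtain ⟨q1, q2, q3, q4⟩ := hq
      have hq5 := hfar q
      have e0 : q * ((prd N k * r : ℕ) : ℤ) = r * (q * prd N k) := by push_cast; ring
      rw [e0] at hq5
      unfold inSq at hzu
      obtain ⟨S, hS⟩ : ∃ S : ℤ, S = q * prd N k := ⟨_, rfl⟩
      rw [← hS] at q1 q2 q3 q4 hq5
      have i1 : (r : ℤ) * (-(N : ℤ)) ≤ r * (z.1 - S) := mul_le_mul_of_nonneg_left q1 hr'.le
      have i2 : (r : ℤ) * (z.1 - S + 1) ≤ r * N := mul_le_mul_of_nonneg_left (by omega) hr'.le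
      have i3 : (r : ℤ) * (-(N : ℤ)) ≤ r * (z.2 - S) := mul_le_mul_of_nonneg_left q3 hr'.le
      have i4 : (r : ℤ) * (z.2 - S + 1) ≤ r * N := mul_le_mul_of_nonneg_left (by omega) hr'.le
      have c1' := hc (S + N, S + N)
      have c2' := hc (S - N, S - N)
      simp only [abs_le] at c1' c2'
      have j1 : (r : ℤ) * (S + N) = r * S + r * N := by ring
      have j2 : (r : ℤ) * (S - N) = r * S - r * N := by ring
      have j3 : (r : ℤ) * (-(N : ℤ)) = -(r * N) := by ring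
      have j4 : (r : ℤ) * (z.1 - S) = r * z.1 - r * S := by ring
      have j5 : (r : ℤ) * (z.2 - S) = r * z.2 - r * S := by ring
      have j6 : (r : ℤ) * (z.1 - S + 1) = r * z.1 - r * S + r := by ring
      have j7 : (r : ℤ) * (z.2 - S + 1) = r * z.2 - r * S + r := by ring
      have j8 : (N : ℤ) * r = r * N := by ring
      rw [j1] at c1'
      rw [j2] at c2'
      rw [j3] at i1 i3
      rw [j4] at i1
      rw [j5] at i3
      rw [j6] at i2
      rw [j7] at i4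
      rw [j8] at hq5
      simp only [le_abs] at hq5
      omega
    · have h5 := hC3 z hz
      unfold inSq at hzu
      have h6 : (r : ℤ) * 3 ≤ r * (z.1 - z.2) := mul_le_mul_of_nonneg_left h5 hr'.le
      have h7 : (r : ℤ) * (z.1 - z.2) = r * z.1 - r * z.2 := by ring
      rw [h7] at h6
      omega
  have hctx : Ctx N r ρ l (prd N k) P (per n G ∩ Hs) (per n F) u u' :=
    { hl := hl
      h1 := h1
      h2 := h2
      c1 := c1
      c2 := c2
      c3 := c3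
      c4 := Set.inter_subset_right
      un := hun
      un' := hun'
      uy' := ⟨gy', hgy', hgyu'⟩
      n1 := hnear.1
      n2 := hnear.2
      ex := exit u s i hi hu
      ex' := exit u' s' i' hi' hu'
      hD := hfar
      hext := hextu }
  rcases planar hctx hz hzu hdi0 with hbad | ⟨R, hRn, hRu, hreach⟩
  · exfalso
    apply hB
    unfold Bad
    rw [hCc]
    unfold BadQ at hbad
    rw [← hn] at hbad
    exact hbad
  · exact (hu.trans (hreach.mono Set.inter_subset_left)).trans hu'.symm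

end Pool.Agent.W808.HU
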