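import Pool.Agent.W808.HU.Stm

/-! Task SHARP: lower and upper bound. -/

set_option autoImplicit false

namespace Pool.Agent.W808.HU
open H974 H906.Cyl
open Pool.Agent.W808.HB (Lw HL LegEv HArm coinsH Gd Pn)

theorem t_SHARP : Pool.Agent.W808.HB.S_LB → S_CMP → S_UB → S_SHARP := by
  intro hLB hCMP hUB k hk
  obtain ⟨c, hc, hL⟩ := hLB (2 * k) (by omega)
  obtain ⟨C, hC, hU⟩ := hUB k hk
  set e : ℝ := (k : ℝ) * (2 * k - 1) / 3 with he
  have he1 : (((2 * k : ℕ) : ℝ) * (((2 * k : ℕ) : ℝ) - 1) / 6) = e := by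
    rw [he]; push_cast; ring
  have he0 : 0 ≤ e := by
    have : (2 : ℝ) ≤ k := by exact_mod_cast hk
    rw [he]
    have h1 : (0 : ℝ) ≤ 2 * k - 1 := by linarith
    positivity
  have h3 : (0 : ℝ) < 3 ^ (-e) := Real.rpow_pos_of_pos (by norm_num) _
  refine ⟨c * 3 ^ (-e), C, by positivity, hC, fun R hR => ⟨?_, hU R hR⟩⟩
  have h1 := hL (2 * R + 1) (by omega)
  rw [he1] at h1
  have h2 := hCMP k (2 * R + 1) R (by omega) hR le_rfl
  refine le_trans ?_ (h1.trans h2)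
  rw [mul_assoc]
  refine mul_le_mul_of_nonneg_left ?_ hc.le
  have hR1 : (1 : ℝ) ≤ R := by exact_mod_cast (by omega : 1 ≤ R)
  rw [← Real.mul_rpow (by norm_num) (by linarith)]
  refine Real.rpow_le_rpow_of_nonpos (by positivity) ?_ (by linarith)
  push_cast
  linarith

end Pool.Agent.W808.HU
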