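import Pool.Agent.W808.HU.Stm
import Pool.Agent.H160R2.MU.T_STA

/-!
# Upper bounds for the odd boundary arm events: re-randomising the tubes (class 1)
-/

set_option autoImplicit false

namespace Pool.Agent.W808.HU
open H974 H906.Cyl
open H12S (Dir hbE segD rimE H4 Crs Nr sqE)
open Pool.Agent.H160R2.ML (nm)
open Pool.Agent.H160R2.MU (Cel csq cpos rad prd shf BxS Bxs EP inSq PC Bad Trap Cc)

namespace TSTA

open Pool.Agent.H160R2.MU.TSTA (eqv_iff eqv_mono eqv_inv eqv_map)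

/-! ### the shift by a period -/

/-- translation of the edges -/
def te (n : ℕ) (q : ℤ) (e : Edg) : Edg := (e.1 + n * q, e.2.1 + n * q, e.2.2)

/-- translation of the vertices -/
def tv (n : ℕ) (q : ℤ) (v : Vtx) : Vtx := (v.1 + n * q, v.2 + n * q)

theorem src_te (n : ℕ) (q : ℤ) (e : Edg) : src (te n q e) = tv n q (src e) := rfl

theorem tgt_te (n : ℕ) (q : ℤ) (e : Edg) : tgt (te n q e) = tv n q (tgt e) := by
  obtain ⟨x, y, _ | _⟩ := e
  · show (x + n * q, y + n * q + 1) = (x + n * q, y + 1 + n * q)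
    rw [add_right_comm]
  · show (x + n * q + 1, y + n * q) = (x + 1 + n * q, y + n * q)
    rw [add_right_comm]

theorem dco_te (n : ℕ) (q : ℤ) (e : Edg) : dco (te n q e) = dco e := by
  obtain ⟨x, y, _ | _⟩ := e <;> simp only [te, dco, if_true, Bool.false_eq_true, if_false] <;> ring

theorem te_te (n : ℕ) (q q' : ℤ) (e : Edg) : te n q (te n q' e) = te n (q + q') e := by
  unfold te
  simp only [Prod.mk.injEq, and_true]
  constructor <;> ring

theorem te_zero (n : ℕ) (e : Edg) : te n 0 e = e := by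
  unfold te
  simp

theorem te_neg (n : ℕ) (q : ℤ) (e : Edg) : te n q (te n (-q) e) = e := by
  rw [te_te, add_neg_cancel, te_zero]

theorem du_te (n : ℕ) (q : ℤ) (e : Edg) : du (te n q e) = te n q (du e) := by
  unfold du
  rw [dco_te]
  have key : ∀ s d t : ℤ, edz (s + 2 * t) d = ((edz s d).1 + t, (edz s d).2.1 + t, (edz s d).2.2) := by
    intro s d t
    unfold edz
    by_cases h : (s + d) % 2 = 0
    · rw [if_pos (by omega), if_pos h]
      simp only [Prod.mk.injEq, and_true]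
      omega
    · rw [if_neg (by omega), if_neg h]
      simp only [Prod.mk.injEq, and_true]
      omega
  have e1 : (te n q e).1 + (te n q e).2.1 + 1 = e.1 + e.2.1 + 1 + 2 * (n * q) := by
    unfold te
    ring
  rw [e1, key]
  rfl

theorem dco_du (e : Edg) : dco (du e) = dco e := Pool.Agent.H160R2.MU.TSTA.dco_edz' _ _

theorem red_te {n : ℕ} (hn : 0 < n) (q : ℤ) (e : Edg) : red n (te n q e) = red n e :=
  red_shift hn e q

theorem red_eq (n : ℕ) (e : Edg) : ∃ q : ℤ, red n e = te n q e := by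
  refine ⟨-((e.1 + e.2.1) / (2 * n)), ?_⟩
  unfold red te
  simp only [Prod.mk.injEq, and_true]
  constructor <;> ring

theorem te_of_red {n : ℕ} {e e' : Edg} (h : red n e = red n e') : ∃ q : ℤ, e' = te n q e := by
  obtain ⟨q, hq⟩ := red_eq n e
  obtain ⟨q', hq'⟩ := red_eq n e'
  refine ⟨-q' + q, ?_⟩
  rw [← te_te, ← hq, h, hq', te_te, neg_add_cancel, te_zero]

/-- the dual edge is determined by the edge it crosses -/
theorem du_inj {e e' : Edg} (h : du e = du e') : e = e' := by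
  obtain ⟨x, y, b⟩ := e
  obtain ⟨x', y', b'⟩ := e'
  have h1 : dco (du (x, y, b)) = dco (du (x', y', b')) := by rw [h]
  rw [dco_du, dco_du] at h1
  have h2 : (du (x, y, b)).1 + (du (x, y, b)).2.1 = (du (x', y', b')).1 + (du (x', y', b')).2.1 := by
    rw [h]
  unfold du at h2
  rw [Pool.Agent.H160R2.MU.TSTA.edz_sum, Pool.Agent.H160R2.MU.TSTA.edz_sum] at h2
  simp only at h2
  cases b <;> cases b' <;> simp only [dco, if_true, Bool.false_eq_true, if_false] at h1
  · simp only [Prod.mk.injEq, and_true]; omega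
  · exfalso; omega
  · exfalso; omega
  · simp only [Prod.mk.injEq, and_true]; omega

/-! ### coarse sets -/

/-- periodic coarse sets -/
def Peri (N k : ℕ) (P : Set (ℤ × ℤ)) : Prop := ∀ (z : ℤ × ℤ) (s : ℤ), z ∈ P → shf N k s z ∈ P

theorem shf_shf (N k : ℕ) (s q : ℤ) (z : ℤ × ℤ) : shf N k s (shf N k q z) = shf N k (s + q) z := by
  unfold shf
  simp only [Prod.mk.injEq]
  constructor <;> ring

theorem peri_Bxs (N k : ℕ) : Peri N k (Bxs N k) := by
  rintro z q ⟨s, hs⟩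
  refine ⟨s - q, ?_⟩
  have e1 : shf N k (s - q) (shf N k q z) = shf N k s z := by
    rw [shf_shf, sub_add_cancel]
  have hs' : -(N : ℤ) ≤ (shf N k s z).1 ∧ (shf N k s z).1 < N ∧
    -(N : ℤ) ≤ (shf N k s z).2 ∧ (shf N k s z).2 < N := hs
  rw [← e1] at hs'
  exact hs'

theorem peri_CrrH (N k : ℕ) (c : Fin k → Cel) : Peri N k (CrrH N k c) := by
  rintro z q ⟨L, i, s, h, _, h2⟩
  refine ⟨labT k i (s - q), i, s - q, h, rfl, ?_⟩
  rw [shf_shf, sub_add_cancel]
  exact h2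

theorem EP_te {N k r n : ℕ} {P : Set (ℤ × ℤ)} (hP : Peri N k P) (hn : n = prd N k * r) (q : ℤ)
    (e : Edg) : te n q e ∈ EP r P ↔ e ∈ EP r P := by
  have key : ∀ (q : ℤ) (e : Edg), te n q e ∈ EP r P → e ∈ EP r P := by
    rintro q e ⟨z, hz, he⟩
    refine ⟨shf N k q z, hP z q hz, ?_⟩
    obtain ⟨x, y, b⟩ := e
    have hnz : (n : ℤ) = prd N k * r := by rw [hn]; push_cast; ring
    have e1 : (r : ℤ) * (z.1 - q * prd N k) = r * z.1 - n * q := by rw [hnz]; ring
    have e2 : (r : ℤ) * (z.2 - q * prd N k) = r * z.2 - n * q := by rw [hnz]; ring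
    unfold te at he
    cases b
    · simp only [sqE, mem_RE_false, shf] at he ⊢
      rw [e1, e2]
      omega
    · simp only [sqE, mem_RE_true, shf] at he ⊢
      rw [e1, e2]
      omega
  refine ⟨key q e, fun h => ?_⟩
  refine key (-q) _ ?_
  rw [te_te, neg_add_cancel, te_zero]
  exact h

theorem EP_red {N k r n : ℕ} {P : Set (ℤ × ℤ)} (hP : Peri N k P) (hn : n = prd N k * r)
    (e : Edg) : red n e ∈ EP r P ↔ e ∈ EP r P := by
  obtain ⟨q, hq⟩ := red_eq n e
  rw [hq]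
  exact EP_te hP hn q e

/-! ### the two configurations -/

section
variable {N r k n M : ℕ} {c : Fin k → Cel}

/-- the standing assumptions -/
structure St (N r k n M : ℕ) (c : Fin k → Cel) : Prop where
  hn : n = prd N k * r
  hn1 : 1 ≤ n
  hM : M = 4 * n
  hb : ∀ e ∈ EP r (Bxs N k) ∪ EP r (CrrH N k c), -(2 * (n : ℤ)) ≤ dco e ∧ dco e + 1 ≤ 2 * n

theorem St.ce (h : St N r k n M c) {e : Edg} (he : e ∈ EP r (Bxs N k) ∨ e ∈ EP r (CrrH N k c)) :
    red n e ∈ CE n M := by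
  have h1 := h.hb e he
  have h2 := h.hM
  have h3 := h.hn1
  exact red_mem (by omega) (by omega) (by omega)

theorem A_eq (h : St N r k n M c) {F : Finset Edg} (e : Edg) :
    e ∈ dl (per n (FA N r k c n M F)) ↔ 0 ≤ dco e ∧
      ((du e ∈ EP r (Bxs N k) ∧ red n (du e) ∉ F) ∨
        (du e ∉ EP r (Bxs N k) ∧ du e ∉ EP r (CrrH N k c))) := by
  classical
  show (0 ≤ dco e ∧ red n (du e) ∉ FA N r k c n M F) ↔ _
  unfold FA
  rw [Finset.mem_filter, EP_red (peri_Bxs N k) h.hn, EP_red (peri_CrrH N k c) h.hn]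
  have h1 := @St.ce _ _ _ _ _ _ h (du e)
  tauto

theorem B_eq (h : St N r k n M c) {F : Finset Edg} (e : Edg) :
    e ∈ dl (per n (FB N r k c n M F)) ↔ 0 ≤ dco e ∧
      (((du e ∈ EP r (Bxs N k) ∨ du e ∈ EP r (CrrH N k c)) ∧ red n (du e) ∉ F) ∨
        (du e ∉ EP r (Bxs N k) ∧ du e ∉ EP r (CrrH N k c))) := by
  classical
  show (0 ≤ dco e ∧ red n (du e) ∉ FB N r k c n M F) ↔ _
  unfold FB
  rw [Finset.mem_filter, EP_red (peri_Bxs N k) h.hn, EP_red (peri_CrrH N k c) h.hn]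
  have h1 := @St.ce _ _ _ _ _ _ h (du e)
  tauto

/-- the dual edges of the boxes and of the closed region -/
def ST (N r k : ℕ) (c : Fin k → Cel) : Set Edg :=
  {e | 0 ≤ dco e ∧ (du e ∈ EP r (Bxs N k) ∨ du e ∉ EP r (CrrH N k c))}

/-- the dual edges of the tubes -/
def SD (N r k : ℕ) (c : Fin k → Cel) : Set Edg :=
  {e | 0 ≤ dco e ∧ du e ∉ EP r (Bxs N k) ∧ du e ∈ EP r (CrrH N k c)}

theorem AT_eq (h : St N r k n M c) {F : Finset Edg} :
    dl (per n (FA N r k c n M F)) ∩ ST N r k c = dl (per n (FA N r k c n M F)) := by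
  apply Set.inter_eq_left.2
  intro e he
  rw [A_eq h] at he
  exact ⟨he.1, he.2.imp (fun h => h.1) (fun h => h.2)⟩

/-! ### the exploration -/

/-- the explored faces -/
def KK (N r k : ℕ) (c : Fin k → Cel) (n M : ℕ) (F : Finset Edg) (u : Vtx) : Prop :=
  ∃ x : Vtx, XA N r k c x ∧ R1 n k (dl (per n (FA N r k c n M F))) x u

theorem KK_R1 {F : Finset Edg} {u v : Vtx} (h : R1 n k (dl (per n (FA N r k c n M F))) u v) :
    KK N r k c n M F u ↔ KK N r k c n M F v := by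
  constructor
  · rintro ⟨x, hx, h1⟩
    exact ⟨x, hx, Relation.EqvGen.trans _ _ _ h1 h⟩
  · rintro ⟨x, hx, h1⟩
    exact ⟨x, hx, Relation.EqvGen.trans _ _ _ h1 (Relation.EqvGen.symm _ _ h)⟩

theorem XA_tv (h : St N r k n M c) {p : Vtx} (hp : XA N r k c p) (q : ℤ) :
    XA N r k c (tv n q p) := by
  rcases hp with h1 | ⟨e, h1, h2, h3, h4⟩
  · left
    show p.1 + n * q = p.2 + n * q
    rw [h1]
  · right
    refine ⟨te n q e, by rw [dco_te]; exact h1, ?_, ?_, ?_⟩
    · rw [du_te, EP_te (peri_Bxs N k) h.hn]; exact h2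
    · rw [du_te, EP_te (peri_CrrH N k c) h.hn]; exact h3
    · rw [src_te, tgt_te]
      exact h4.imp (fun h => by rw [h]) (fun h => by rw [h])

theorem W1_tv {u v : Vtx} (h : W1 n k u v) (q : ℤ) : W1 n k (tv n q u) (tv n q v) := by
  cases h with
  | wire s i h1 h2 =>
    have := W1.wire (n := n) (k := k) (s + q) i h1 h2
    have e1 : ∀ i : ℕ, tv n q (sv n s i) = sv n (s + q) i := by
      intro i
      unfold tv sv
      simp only [Prod.mk.injEq]
      constructor <;> ring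
    rw [e1, e1]
    exact this

theorem R1_tv (h : St N r k n M c) {F : Finset Edg} {u v : Vtx}
    (h1 : R1 n k (dl (per n (FA N r k c n M F))) u v) (q : ℤ) :
    R1 n k (dl (per n (FA N r k c n M F))) (tv n q u) (tv n q v) := by
  refine eqv_map (tv n q) ?_ h1
  rintro a b (hab | ⟨e, he, rfl, rfl⟩)
  · exact Or.inl (W1_tv hab q)
  · refine Or.inr ⟨te n q e, ?_, src_te n q e, tgt_te n q e⟩
    refine ⟨by rw [dco_te]; exact he.1, ?_⟩
    intro h2
    apply he.2
    rw [du_te] at h2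
    have h3 : red n (te n q (du e)) ∈ FA N r k c n M F := h2
    rw [red_te h.hn1] at h3
    exact h3

theorem KK_tv (h : St N r k n M c) {F : Finset Edg} {u : Vtx} (h1 : KK N r k c n M F u) (q : ℤ) :
    KK N r k c n M F (tv n q u) := by
  obtain ⟨x, hx, h2⟩ := h1
  exact ⟨tv n q x, XA_tv h hx q, R1_tv h h2 q⟩

theorem KK_agree (h : St N r k n M c) {F F' : Finset Edg}
    (hF : ∀ e : Edg, 0 ≤ dco e → du e ∈ EP r (Bxs N k) →
      (KK N r k c n M F (src e) ∨ KK N r k c n M F (tgt e)) →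
      (red n (du e) ∈ F' ↔ red n (du e) ∈ F)) (u : Vtx) :
    KK N r k c n M F' u ↔ KK N r k c n M F u := by
  have hK : ∀ x, XA N r k c x → KK N r k c n M F x := fun x hx =>
    ⟨x, hx, Relation.EqvGen.refl _⟩
  -- an edge of one configuration which touches the explored set is an edge of the other
  have hE : ∀ e : Edg, (KK N r k c n M F (src e) ∨ KK N r k c n M F (tgt e)) →
      (e ∈ dl (per n (FA N r k c n M F')) ↔ e ∈ dl (per n (FA N r k c n M F))) := by
    intro e he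
    rw [A_eq h, A_eq h]
    have := fun h0 h1 => hF e h0 h1 he
    tauto
  have hP : ∀ a b : Vtx, (W1 n k a b ∨ ∃ e ∈ dl (per n (FA N r k c n M F')), src e = a ∧ tgt e = b) →
      (KK N r k c n M F a ↔ KK N r k c n M F b) := by
    rintro a b (hab | ⟨e, he, rfl, rfl⟩)
    · exact KK_R1 (Relation.EqvGen.rel _ _ (Or.inl hab))
    · by_cases h1 : KK N r k c n M F (src e) ∨ KK N r k c n M F (tgt e)
      · exact KK_R1 (Relation.EqvGen.rel _ _ (Or.inr ⟨e, (hE e h1).1 he, rfl, rfl⟩))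
      · push Not at h1
        exact ⟨fun h2 => absurd h2 h1.1, fun h2 => absurd h2 h1.2⟩
  constructor
  · rintro ⟨x, hx, h1⟩
    exact (eqv_iff hP h1).1 (hK x hx)
  · rintro ⟨x, hx, h1⟩
    refine ⟨x, hx, eqv_inv (P := KK N r k c n M F) ?_ ?_ h1 (hK x hx)⟩
    · intro a b hab
      exact KK_R1 (Relation.EqvGen.rel _ _ hab)
    · rintro a b (hab | ⟨e, he, rfl, rfl⟩) ha
      · exact Or.inl hab
      · exact Or.inr ⟨e, (hE e (Or.inl ha)).2 he, rfl, rfl⟩

open Classical in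
/-- the explored squares -/
noncomputable def Xp (N r k : ℕ) (c : Fin k → Cel) (n M : ℕ) (F : Finset Edg) : Finset Edg :=
  (CE n M).filter (fun e' => e' ∈ EP r (Bxs N k) ∧ ∃ e : Edg, 0 ≤ dco e ∧ red n (du e) = e' ∧
    (KK N r k c n M F (src e) ∨ KK N r k c n M F (tgt e)))

theorem mem_Xp0 {F : Finset Edg} {e' : Edg} : e' ∈ Xp N r k c n M F ↔
    e' ∈ CE n M ∧ e' ∈ EP r (Bxs N k) ∧ ∃ e : Edg, 0 ≤ dco e ∧ red n (du e) = e' ∧
    (KK N r k c n M F (src e) ∨ KK N r k c n M F (tgt e)) := by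
  classical
  unfold Xp
  rw [Finset.mem_filter]

theorem mem_Xp (h : St N r k n M c) {F : Finset Edg} {e : Edg} (he : 0 ≤ dco e) :
    red n (du e) ∈ Xp N r k c n M F ↔ du e ∈ EP r (Bxs N k) ∧
    (KK N r k c n M F (src e) ∨ KK N r k c n M F (tgt e)) := by
  rw [mem_Xp0, EP_red (peri_Bxs N k) h.hn]
  constructor
  · rintro ⟨_, h2, e', h3, h4, h5⟩
    refine ⟨h2, ?_⟩
    obtain ⟨q, hq⟩ := te_of_red h4
    rw [← du_te] at hq
    have h6 := du_inj hq
    rw [h6, src_te, tgt_te]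
    exact h5.imp (fun h7 => KK_tv h h7 q) (fun h7 => KK_tv h h7 q)
  · rintro ⟨h1, h2⟩
    exact ⟨h.ce (Or.inl h1), h1, e, he, rfl, h2⟩

/-- the re-randomised configuration -/
noncomputable def mx (N r k : ℕ) (c : Fin k → Cel) (n M : ℕ) (F G : Finset Edg) :
    Finset Edg := (F ∩ Xp N r k c n M F) ∪ (G \ Xp N r k c n M F)

theorem mem_mx {F G : Finset Edg} {e : Edg} :
    (e ∈ Xp N r k c n M F → (e ∈ mx N r k c n M F G ↔ e ∈ F)) ∧
    (e ∉ Xp N r k c n M F → (e ∈ mx N r k c n M F G ↔ e ∈ G)) := by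
  unfold mx
  rw [Finset.mem_union, Finset.mem_inter, Finset.mem_sdiff]
  tauto

theorem Xp_mx (h : St N r k n M c) {F G : Finset Edg} :
    Xp N r k c n M (mx N r k c n M F G) = Xp N r k c n M F := by
  have h1 : ∀ u, KK N r k c n M (mx N r k c n M F G) u ↔ KK N r k c n M F u := by
    refine KK_agree h ?_
    intro e he h1 h2
    exact mem_mx.1 ((mem_Xp h he).2 ⟨h1, h2⟩)
  ext e'
  rw [mem_Xp0, mem_Xp0]
  simp only [h1]

theorem reach_iff (B : Set Edg) (u v : Vtx) :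
    Reach B u v ↔ Relation.EqvGen (fun u v => ∃ e ∈ B, src e = u ∧ tgt e = v) u v := by
  constructor
  · intro h
    induction h with
    | refl => exact Relation.EqvGen.refl _
    | tail _ hs ih =>
      obtain ⟨e, he, h1 | h1⟩ := hs
      · exact Relation.EqvGen.trans _ _ _ ih (Relation.EqvGen.rel _ _ ⟨e, he, h1⟩)
      · exact Relation.EqvGen.trans _ _ _ ih
          (Relation.EqvGen.symm _ _ (Relation.EqvGen.rel _ _ ⟨e, he, h1⟩))
  · intro h
    induction h with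
    | rel a b hab =>
      obtain ⟨e, he, h1⟩ := hab
      exact Relation.ReflTransGen.single ⟨e, he, Or.inl h1⟩
    | refl a => exact Reach.refl _ _
    | symm a b _ ih => exact ih.symm
    | trans a b c _ _ ih1 ih2 => exact ih1.trans ih2

/-- the faces of the tubes -/
def Dp (N r k : ℕ) (c : Fin k → Cel) (u : Vtx) : Prop :=
  ∃ e ∈ SD N r k c, ∃ w, (src e = u ∧ tgt e = w) ∨ (src e = w ∧ tgt e = u)

theorem Dp_band (h : St N r k n M c) {u : Vtx} (hu : Dp N r k c u) : |u.1 - u.2| ≤ 2 * n := by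
  obtain ⟨e, he, w, h1⟩ := hu
  have h2 := h.hb _ (Or.inr he.2.2)
  rw [dco_du] at h2
  obtain ⟨x, y, b⟩ := e
  rw [abs_le]
  cases b
  · simp only [dco, Bool.false_eq_true, if_false] at h2
    simp only [src_mk, tgt_false] at h1
    rcases h1 with ⟨rfl, -⟩ | ⟨-, rfl⟩
    · simp only; omega
    · simp only; omega
  · simp only [dco, if_true] at h2
    simp only [src_mk, tgt_true] at h1
    rcases h1 with ⟨rfl, -⟩ | ⟨-, rfl⟩
    · simp only; omega
    · simp only; omega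

theorem sv_XA (s : ℤ) (i : ℕ) : XA N r k c (sv n s i) := Or.inl rfl

theorem mem_Cc {G : Finset Edg} {e : Edg} (h1 : -(M : ℤ) ≤ dco e) (h2 : dco e < M)
    (h3 : red n (du e) ∉ G) : e ∈ Cc 1 n M G := by
  unfold Cc
  rw [Set.mem_ofPred_eq, if_neg one_ne_zero]
  exact ⟨h1, h2, h3⟩

theorem aux1 {p P Q X Y : Prop} (h3 : P → (X ↔ Y)) (h4 : P ∨ ¬Q) :
    (p ∧ (((P ∨ Q) ∧ ¬X) ∨ (¬P ∧ ¬Q))) ↔ (p ∧ ((P ∧ ¬Y) ∨ (¬P ∧ ¬Q))) := by tauto

theorem aux2 {p P Q X : Prop} (h : p ∧ (((P ∨ Q) ∧ ¬X) ∨ (¬P ∧ ¬Q))) (h5 : P ∨ Q) : ¬X := by tauto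

theorem aux3 {p P Q : Prop} (h : p) : (p ∧ (P ∨ ¬Q)) ∨ (p ∧ ¬P ∧ Q) := by tauto

/-- **the clusters of the marked points do not merge** -/
theorem stay (hABS : Pool.Agent.H160R2.MU.S_ABS) (hSEPA : S_SEPA) {ρ l : ℕ} (hk : 2 ≤ k)
    (hN : k + 4 ≤ N) (hc : AdmH N k c) (hl : 1 ≤ l) (hlρ : 32 * l ≤ ρ) (hρ : 32 * ρ ≤ r)
    (h : St N r k n M c) {F G : Finset Edg}
    (hF : F ⊆ CE n M) (hBad : ¬ Bad 1 N r ρ l (prd N k) n M F) (hT : PTr 1 n M l G)
    {x x' : Vtx} (hx : XA N r k c x) (hx' : XA N r k c x') :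
    R1 n k (dl (per n (FB N r k c n M (mx N r k c n M F G)))) x x' ↔
      R1 n k (dl (per n (FA N r k c n M F))) x x' := by
  have hR : ∀ B : Set Edg, R1 n k B = Relation.EqvGen (fun u v => (False ∨ W1 n k u v ∨
      ∃ e ∈ B, src e = u ∧ tgt e = v)) := by
    intro B
    unfold R1
    simp only [false_or]
  have hmain := hABS Vtx Edg (fun e u v => src e = u ∧ tgt e = v) (fun _ _ => False) (W1 n k)
    (ST N r k c) (SD N r k c) (dl (per n (FA N r k c n M F))) (Cc 1 n M G)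
    (dl (per n (FB N r k c n M (mx N r k c n M F G))))
    {p | XA N r k c p} (fun u v => Nr (4 * l) u v) (R1 n k)
    (KK N r k c n M F) (Dp N r k c) hR
  rw [AT_eq h] at hmain
  refine hmain ?_ ?_ ?_ ?_ ?_ ?_ ?_ ?_ ?_ ?_ x hx x' hx'
  · intro u; exact Iff.rfl
  · intro u; exact Iff.rfl
  · intro u v huv
    cases huv with
    | wire s i h1 h2 => exact ⟨sv_XA s i, sv_XA s (i + 1)⟩
  · rintro e he ⟨u, v, ⟨rfl, rfl⟩, h2⟩
    refine ⟨?_, ?_⟩
    · rintro u' v' ⟨rfl, rfl⟩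
      exact h2
    · rw [B_eq h, A_eq h]
      have h3 : du e ∈ EP r (Bxs N k) → (red n (du e) ∈ mx N r k c n M F G ↔ red n (du e) ∈ F) :=
        fun h4 => mem_mx.1 ((mem_Xp h he.1).2 ⟨h4, h2⟩)
      exact aux1 h3 he.2
  · intro e he h1 h2
    obtain ⟨h3, h4⟩ := h1 _ _ ⟨rfl, rfl⟩
    rw [B_eq h] at h2
    have h5 : du e ∈ EP r (Bxs N k) := by
      by_contra h5
      have h6 : du e ∉ EP r (CrrH N k c) := he.2.resolve_left h5
      exact h3 ⟨src e, Or.inr ⟨e, he.1, h5, h6, Or.inl rfl⟩, Relation.EqvGen.refl _⟩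
    have h6 : red n (du e) ∉ Xp N r k c n M F := by
      rw [mem_Xp h he.1]
      rintro ⟨_, h7 | h7⟩
      · exact h3 h7
      · exact h4 h7
    have h7 : red n (du e) ∉ mx N r k c n M F G := aux2 h2 (Or.inl h5)
    have h8 : red n (du e) ∉ G := fun h9 => h7 ((mem_mx.2 h6).2 h9)
    have h9 := h.hb _ (Or.inl h5)
    rw [dco_du] at h9
    have h10 := h.hM
    have h11 := h.hn1
    exact mem_Cc (by omega) (by omega) h8
  · intro e he
    exact aux3 he.1
  · intro e he h2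
    rw [B_eq h] at h2
    have h6 : red n (du e) ∉ Xp N r k c n M F := by
      rw [mem_Xp h he.1]
      exact fun h7 => he.2.1 h7.1
    have h7 : red n (du e) ∉ mx N r k c n M F G := aux2 h2 (Or.inr he.2.2)
    have h8 : red n (du e) ∉ G := fun h9 => h7 ((mem_mx.2 h6).2 h9)
    have h9 := h.hb _ (Or.inr he.2.2)
    rw [dco_du] at h9
    have h10 := h.hM
    have h11 := h.hn1
    exact mem_Cc (by omega) (by omega) h8
  · rw [Set.disjoint_left]
    intro e h1 h2
    exact h1.2.elim h2.2.1 (fun h3 => h3 h2.2.2)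
  · intro u v hu hDu huv
    refine hT u v (Dp_band h hDu) ((reach_iff _ _ _).2 (eqv_mono ?_ huv))
    rintro a b (hab | hab)
    · exact hab.elim
    · exact hab
  · intro x hx x' hx' u u' h1 h2 hu hu' hnear
    obtain ⟨e, he, w, h3⟩ := hu
    obtain ⟨e', he', w', h3'⟩ := hu'
    exact hSEPA N r k ρ l c hk hN hc hl hlρ hρ n M h.hn h.hM F hF hBad x x' u u' hx hx' h1 h2
      ⟨e, he.1, he.2.1, he.2.2, h3.imp (fun h => h.1) (fun h => h.2)⟩
      ⟨e', he'.1, he'.2.1, he'.2.2, h3'.imp (fun h => h.1) (fun h => h.2)⟩ hnear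

theorem P1_stay (hABS : Pool.Agent.H160R2.MU.S_ABS) (hSEPA : S_SEPA) {ρ l : ℕ} (hk : 2 ≤ k)
    (hN : k + 4 ≤ N) (hc : AdmH N k c) (hl : 1 ≤ l) (hlρ : 32 * l ≤ ρ) (hρ : 32 * ρ ≤ r)
    (h : St N r k n M c) {F G : Finset Edg}
    (hF : F ⊆ CE n M) (hBad : ¬ Bad 1 N r ρ l (prd N k) n M F) (hT : PTr 1 n M l G)
    (h1 : P1 n k (per n (FA N r k c n M F))) :
    P1 n k (per n (FB N r k c n M (mx N r k c n M F G))) := by
  have key := fun (x x' : Vtx) (hx : XA N r k c x) (hx' : XA N r k c x') =>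
    stay hABS hSEPA hk hN hc hl hlρ hρ h hF hBad hT hx hx'
  refine ⟨?_, ?_, ?_⟩
  · intro i j hi hj hij h2
    exact h1.1 i j hi hj hij ((key _ _ (sv_XA 0 i) (sv_XA 0 j)).1 h2)
  · intro i hi h2
    exact h1.2.1 i hi ((key _ _ (sv_XA 0 i) (Or.inl rfl)).1 h2)
  · intro i hi
    obtain ⟨s, hs, j, hj, h2⟩ := h1.2.2 i hi
    exact ⟨s, hs, j, hj, (key _ _ (sv_XA 0 i) (sv_XA s j)).2 h2⟩

theorem FA_sub {F : Finset Edg} : FA N r k c n M F ⊆ CE n M := by
  classical
  unfold FA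
  exact Finset.filter_subset _ _

theorem FB_sub {F : Finset Edg} : FB N r k c n M F ⊆ CE n M := by
  classical
  unfold FB
  exact Finset.filter_subset _ _

theorem FA_box (hr : 1 ≤ r) (hN : 1 ≤ N) (hn : n = prd N k * r) {F : Finset Edg}
    (hF : F ⊆ CE n M) :
    ∀ e ∈ boxE (N * r / 2), red n e ∈ FA N r k c n M F ↔ red n e ∈ F := by
  classical
  intro e he
  have h := Pool.Agent.H160R2.MU.TSTA.red_box (k := k) hr hN hn he
  unfold FA
  rw [Finset.mem_filter]
  constructor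
  · rintro ⟨_, h1 | h1⟩
    · exact h1.2
    · exact absurd h h1.1
  · intro h1
    exact ⟨hF h1, Or.inl ⟨h, h1⟩⟩

end

end TSTA

/-- **the tubes are re-randomised: class 1** -/
theorem t_STA : Pool.Agent.H160R2.MU.S_ABS → Pool.Agent.H160R2.MU.S_PRB → S_SEPA → S_TRP →
    Pool.Agent.H160R2.MU.S_BADP → S_DEC → S_IND → S_h4 → S_HG → S_STA := by
  intro hABS hPRB hSEPA hTRAP hBADP hDEC hIND hh4 hG N k c hk hN hc δ hδ
  have hν : 4 * N ≤ prd N k := by unfold prd; omega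
  obtain ⟨M3, M4, hM3, hM4, hB⟩ := hBADP N (prd N k) (by omega) hν δ hδ
  obtain ⟨κ, hκ, r0, hT⟩ := hTRAP (prd N k) M4 (by omega) (by omega)
  refine ⟨1 / κ, by positivity, max r0 M4, ?_⟩
  intro r hr n M hn hM
  have hr1 : r0 ≤ r := le_trans (le_max_left _ _) hr
  have hr2 : M4 ≤ r := le_trans (le_max_right _ _) hr
  have hrb : 64 * 64 ≤ r := by omega
  have hl : 1 ≤ r / M4 := (Nat.one_le_div_iff (by omega)).2 hr2
  have hρ : 32 * (r / M3) ≤ r := by
    have h1 : M3 * (r / M3) ≤ r := Nat.mul_div_le r M3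
    nlinarith [Nat.zero_le (r / M3)]
  have hlρ : 32 * (r / M4) ≤ r / M3 := by
    rw [Nat.le_div_iff_mul_le (by omega)]
    have h1 : M4 * (r / M4) ≤ r := Nat.mul_div_le r M4
    nlinarith [Nat.zero_le (r / M4), Nat.mul_le_mul_right (r / M4) hM4]
  have hprd : 24 ≤ prd N k := by unfold prd; omega
  have hprd2 : prd N k = 4 * N + 16 * k := by unfold prd; ring
  have hkp : k ≤ prd N k := by unfold prd; omega
  have hnr : prd N k ≤ n := by rw [hn]; exact Nat.le_mul_of_pos_right _ (by omega)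
  have hnr' : 24 * r ≤ n := by rw [hn]; exact Nat.mul_le_mul_right r hprd
  have hNrn : 4 * (N * r) ≤ n := by
    rw [hn, ← mul_assoc]; exact Nat.mul_le_mul_right r hν
  have hb : ∀ e ∈ EP r (Bxs N k) ∪ EP r (CrrH N k c),
      -(2 * (n : ℤ)) ≤ dco e ∧ dco e + 1 ≤ 2 * n := by
    have h4 := ((hh4 N k c hk hN hc).2 _ rfl).2.2.2
    have h5 : ∀ e ∈ EP r (Bxs N k ∪ CrrH N k c), -(2 * (n : ℤ)) ≤ dco e ∧ dco e + 1 ≤ 2 * n := by
      intro e he
      have := Pool.Agent.H160R2.MU.TSTA.EP_bd (r := r) (ν := prd N k + 4 * N)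
        (by intro z hz; have := h4 z hz; push_cast; exact this) he
      have h6 : (((prd N k + 4 * N) * r : ℕ) : ℤ) + 32 * r ≤ 2 * n := by
        have h7 : (prd N k + 4 * N) * r + 32 * r ≤ 2 * n := by
          rw [hn]
          nlinarith [Nat.zero_le r, hprd2]
        exact_mod_cast h7
      omega
    rintro e (⟨z, hz, he⟩ | ⟨z, hz, he⟩)
    · exact h5 e ⟨z, Or.inl hz, he⟩
    · exact h5 e ⟨z, Or.inr hz, he⟩
  have hst : TSTA.St N r k n M c := ⟨hn, by omega, hM, hb⟩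
  have hok : H974.Ok (fun _ : Edg => (1 / 2 : ℝ)) := okq (by norm_num) (by norm_num)
  have e1 : M = 4 * (prd N k * r) := by rw [hM, hn]
  -- the bad part
  have hbad : PC n M (fun F => SEh k (N * r / 2 : ℕ) (per n F) ∧
      Bad 1 N r (r / M3) (r / M4) (prd N k) n M F) ≤ δ * sPh k (N * r / 2) := by
    have h1 := hIND 1 N r (r / M3) (r / M4) (prd N k) k (by norm_num) (by omega) hν (by omega) hlρ
      hl hρ
    have h2 := hB 1 r (by norm_num) hr2
    rw [← hn, ← hM] at h1 h2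
    have h3 : 0 ≤ sPh k (N * r / 2) := Pr_nonneg hok _ _
    calc _ ≤ _ := h1
      _ ≤ sPh k (N * r / 2) * δ := mul_le_mul_of_nonneg_left h2 h3
      _ = _ := mul_comm _ _
  -- the good part
  have hgood : PC n M (fun F => P0 n k (per n (FA N r k c n M F)) ∧
      ¬ Bad 1 N r (r / M3) (r / M4) (prd N k) n M F) * PC n M (PTr 1 n M (r / M4)) ≤
      PC n M (fun F => P0 n k (per n (FB N r k c n M F))) := by
    refine hPRB (CE n M) (TSTA.Xp N r k c n M) _ _ _ ?_ ?_
    · intro F G _ _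
      exact TSTA.Xp_mx hst
    · rintro F G hF hG' ⟨h1, h2⟩ h3
      rw [hG n M k hk (by omega) _ TSTA.FA_sub] at h1
      rw [hG n M k hk (by omega) _ TSTA.FB_sub]
      exact TSTA.P1_stay hABS hSEPA hk hN hc hl hlρ hρ hst hF h2 h3 h1
  have htrap : κ ≤ PC n M (PTr 1 n M (r / M4)) := by
    have h1 := hT 1 r (by norm_num) hr1
    rw [← hn, ← hM] at h1
    exact h1
  have hsplit : PC n M (fun F => P0 n k (per n (FA N r k c n M F))) ≤
      PC n M (fun F => SEh k (N * r / 2 : ℕ) (per n F) ∧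
        Bad 1 N r (r / M3) (r / M4) (prd N k) n M F) +
      PC n M (fun F => P0 n k (per n (FA N r k c n M F)) ∧
        ¬ Bad 1 N r (r / M3) (r / M4) (prd N k) n M F) := by
    refine le_trans ?_ (Pr_or_le hok _ _ _)
    refine Pr_mono hok ?_
    intro F hF h
    by_cases h1 : Bad 1 N r (r / M3) (r / M4) (prd N k) n M F
    · refine Or.inl ⟨?_, h1⟩
      refine hDEC n M k (N * r / 2) (by omega) ?_ ?_ ?_ (FA N r k c n M F) F TSTA.FA_sub hF
        (TSTA.FA_box (by omega) (by omega) hn hF) h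
      · have : N * 2 ≤ N * r := Nat.mul_le_mul_left N (by omega)
        omega
      · omega
      · omega
    · exact Or.inr ⟨h, h1⟩
  have hg0 : 0 ≤ PC n M (fun F => P0 n k (per n (FA N r k c n M F)) ∧
      ¬ Bad 1 N r (r / M3) (r / M4) (prd N k) n M F) := Pr_nonneg hok _ _
  have hfin : PC n M (fun F => P0 n k (per n (FA N r k c n M F)) ∧
      ¬ Bad 1 N r (r / M3) (r / M4) (prd N k) n M F) ≤
      1 / κ * PC n M (fun F => P0 n k (per n (FB N r k c n M F))) := by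
    rw [one_div, ← div_eq_inv_mul, le_div_iff₀ hκ]
    exact le_trans (mul_le_mul_of_nonneg_left htrap hg0) hgood
  linarith

end Pool.Agent.W808.HU
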