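import Pool.Agent.W808.HU.Stm
import Pool.Agent.W808.HB.T_WG

/-! # Upper bounds for the odd boundary arm events: one class of sectors is enough (words) -/

set_option autoImplicit false

namespace Pool.Agent.W808.HU
open Pool.Agent.H863R2.Cyl
open Pool.Agent.H988R2.Perc (Word)
open Pool.Agent.W808.HB (Lw HL LegEv HArm coinsH Gd Pn bwm capit)

namespace TWC

open Pool.Agent.W808.HB.TWG (small step base_mpr Lw_nowire)
open Pool.Agent.H863R2.Cyl.Sem1Aux (Inc exists_ht RH Rw_iff sg_nat sg_per ep lsum lsum_append
  lsum_count ht_take)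
open Pool.Agent.H863R2.Cyl.Sem4Aux (ct sm iso sec ct_eq iso_iff sec_spec rw_lins rw_peak)

/-- all sectors give the sectors of one parity -/
theorem sec_secc {q m N : ℕ} {C : ℤ → ℤ → Prop} (h : HB.Sec m N C) : Secc q m N C :=
  ⟨fun c d _ _ h1 h2 h3 h4 => h.1 c d h1 h2 h3 h4, fun c _ h1 h2 => h.2 c h1 h2⟩

/-- one cap, sectors of one parity -/
theorem step_Secc {q : ℕ} {w : Word} {m M N : ℕ} (hw : Ok w) (hl : w.length = N + 2) (hN : 1 ≤ N)
    (hm : N = m + 2 * M) :
    Secc q m (N + 2) (Relation.EqvGen (Lw (N + 2) m w)) →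
      Secc q m N (Relation.EqvGen (Lw N m (cap m w))) := by
  have hmN : m ≤ N := by omega
  have key : ∀ (c d : ℕ) (s : ℤ), c ≤ m → d ≤ m →
      (Relation.EqvGen (Lw (N + 2) m w) (c : ℤ) (s * ((N + 2 : ℕ) : ℤ) + d) ↔
        Relation.EqvGen (Lw N m (cap m w)) (c : ℤ) (s * (N : ℤ) + d)) := by
    intro c d s hc hd
    obtain ⟨t1, t2⟩ := small hmN 0 c hc
    obtain ⟨t3, t4⟩ := small hmN s d hd
    have := step hw hl hN hm _ _ t1 t3
    rw [t2, t4] at this
    simpa only [zero_mul, zero_add] using this
  unfold Secc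
  rintro ⟨h1, h2⟩
  refine ⟨?_, ?_⟩
  · intro c d hcq hdq hc hcm hd hcd hC
    apply h1 c d hcq hdq hc hcm hd hcd
    have := (key c d 0 hcm.le hd).2 (by simpa only [zero_mul, zero_add] using hC)
    simpa only [zero_mul, zero_add] using this
  · intro c hcq hc hcm
    obtain ⟨s, hs, d, hd, hdm, hC⟩ := h2 c hcq hc hcm
    exact ⟨s, hs, d, hd, hdm, (key c d s hcm.le hdm.le).1 hC⟩

/-- no closed strands -/
theorem base {q m : ℕ} (hq : q < 2) (hm : 4 ≤ m) {w : Word} (hw : Ok w) (hl : w.length = m)
    (h : Secc q m m (Rw w)) : w = bwm m := by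
  obtain ⟨h1, h2⟩ := h
  rcases L2Aux.dich w with ⟨a, b, rfl⟩ | ⟨p, q', rfl⟩
  · exfalso
    set w := a ++ true :: false :: b with hwd
    have hlen : a.length + 2 ≤ m := by
      rw [← hl, hwd]; simp
    have s1 : sg w (a.length : ℤ) = 1 := by
      rw [sg_nat (by omega), hwd]
      simp [ep]
    have s2 : sg w ((a.length : ℤ) + 1) = -1 := by
      have := sg_nat (w := w) (r := a.length + 1) (by omega)
      push_cast at this
      rw [this, hwd]
      simp [ep]
    obtain ⟨H, hH, h0⟩ := exists_ht (sg w)
    have hR : Rw w (a.length : ℤ) ((a.length : ℤ) + 2) := by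
      rw [Rw_iff hH]
      have g1 := hH (a.length : ℤ)
      have g2 := hH ((a.length : ℤ) + 1)
      rw [s1] at g1
      rw [s2] at g2
      have e : (a.length : ℤ) + 1 + 1 = a.length + 2 := by ring
      rw [e] at g2
      refine ⟨by omega, ?_⟩
      intro l hl
      have : l = a.length ∨ l = (a.length : ℤ) + 1 ∨ l = (a.length : ℤ) + 2 := by omega
      rcases this with rfl | rfl | rfl <;> omega
    by_cases hq' : a.length % 2 = q
    · rcases Nat.eq_zero_or_pos a.length with h3 | h3
      · apply h1 2 0 (by omega) (by omega) (by omega) (by omega) (by omega) (by omega)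
        rw [h3] at hR
        have := (Rw_equiv _).symm hR
        simpa using this
      · apply h1 a.length (a.length + 2) hq' (by omega) h3 (by omega) hlen (by omega)
        push_cast
        exact hR
    · obtain ⟨s, hs, d, hd, hdm, hC⟩ := h2 (a.length + 1) (by omega) (by omega) (by omega)
      have := rw_peak (w := w) (a := (a.length : ℤ) + 1) (b := s * (m : ℤ) + (d : ℤ)) s2
        (by simpa using s1) (by push_cast at hC; exact hC)
      rcases lt_trichotomy s 0 with h4 | h4 | h4
      · have h5 : s * (m : ℤ) ≤ (-1) * m := mul_le_mul_of_nonneg_right (by omega) (by omega)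
        omega
      · exact hs h4
      · have h5 : 1 * (m : ℤ) ≤ s * m := mul_le_mul_of_nonneg_right (by omega) (by omega)
        omega
  · unfold Ok at hw
    rw [hl] at hw
    simp only [List.length_append, List.length_replicate] at hl
    rw [List.count_append, List.count_replicate, List.count_replicate] at hw
    simp at hw
    unfold bwm
    congr 2 <;> omega

theorem main {q m : ℕ} (hq : q < 2) (hm : 4 ≤ m) : ∀ (M : ℕ) (w : Word), Ok w →
    w.length = m + 2 * M → Secc q m (m + 2 * M) (Relation.EqvGen (Lw (m + 2 * M) m w)) →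
    capit m M w = bwm m := by
  intro M
  induction M with
  | zero =>
    intro w hw hl h
    have e : Relation.EqvGen (Lw (m + 2 * 0) m w) = Rw w := by
      funext a b
      exact propext (Lw_nowire a b)
    rw [e] at h
    exact base hq hm hw hl h
  | succ M ih =>
    intro w hw hl h
    have hl' : w.length = (m + 2 * M) + 2 := by omega
    have hc := length_cap (i := m) (w := w) (by omega)
    have e : m + 2 * (M + 1) = m + 2 * M + 2 := by ring
    rw [e] at h
    exact ih (cap m w) (ok_cap hw (by omega)) (by omega)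
      (step_Secc (M := M) hw hl' (by omega) rfl h)

end TWC

theorem t_WC : S_WC := by
  intro q m M w hq _ h4 hw hl
  constructor
  · intro h
    unfold Gd
    have hM : (w.length - m) / 2 = M := by omega
    rw [hM]
    rw [hl] at h
    exact TWC.main hq h4 M w hw hl h
  · intro h
    exact TWC.sec_secc ((HB.t_WG m M w hw hl (by omega)).1 h)

end Pool.Agent.W808.HU
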