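import Pool.Agent.W808.HU.Stm

/-!
# Tubes are far from each other and from boxes (half-plane)
-/

set_option autoImplicit false

namespace Pool.Agent.W808.HU
open Pool.Agent.H160R2.MU (Cel csq cpos rad prd shf BxS Bxs EP inSq PC Bad Trap Cc)
namespace Th12

/-- admissible cell -/
def AC (N : ℕ) (C : Cel) : Prop :=
  (C.1 = 1 ∧ -(N : ℤ) ≤ C.2 ∧ C.2 + 3 ≤ N) ∨ (C.1 = 2 ∧ -(N : ℤ) + 2 ≤ C.2 ∧ C.2 < N)

/-- ordered and far -/
def OC (N : ℕ) (A B : Cel) : Prop :=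
  cpos N A < cpos N B ∧
  (2 ≤ |(csq N A).1 - (csq N B).1| ∨ 2 ≤ |(csq N A).2 - (csq N B).2|)

theorem same (N k i j : ℕ) (hij : i < j) (hj : 2 * j < k) (hN : k + 4 ≤ N)
    (A A' B B' : Cel) (hA : AC N A) (hA' : AC N A') (hB : AC N B) (hB' : AC N B')
    (hAB : OC N A B) (hBA : OC N B' A')
    (z z' : ℤ × ℤ) (hz : z ∈ TbS N k A A' (rdh N i)) (hz' : z' ∈ TbS N k B B' (rdh N j))
    (h1 : |z.1 - z'.1| ≤ 1) (h2 : |z.2 - z'.2| ≤ 1) : False := by
  obtain ⟨sa, xa⟩ := A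
  obtain ⟨sa', xa'⟩ := A'
  obtain ⟨sb, xb⟩ := B
  obtain ⟨sb', xb'⟩ := B'
  obtain ⟨x, y⟩ := z
  obtain ⟨x', y'⟩ := z'
  rw [abs_le] at h1 h2
  simp only [AC] at hA hA' hB hB'
  simp only at h1 h2
  rcases hA with ⟨rfl, hA⟩ | ⟨rfl, hA⟩ <;> rcases hA' with ⟨rfl, hA'⟩ | ⟨rfl, hA'⟩ <;>
    rcases hB with ⟨rfl, hB⟩ | ⟨rfl, hB⟩ <;> rcases hB' with ⟨rfl, hB'⟩ | ⟨rfl, hB'⟩ <;>
    simp [TbS, OC, cpos, csq, rdh, prd, le_abs] at hz hz' hAB hBA <;>
    omega

/-- `z` in the tube `i` of the sheet `0`, `z'` in the tube `j` of the sheet `1` -/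
theorem next (N k i j : ℕ) (hi : 2 * i < k) (hj : 2 * j < k) (hk : 2 ≤ k) (hN : k + 4 ≤ N)
    (A A' B B' : Cel) (hA : AC N A) (hA' : AC N A') (hB : AC N B) (hB' : AC N B')
    (hBA : OC N B A')
    (z z' : ℤ × ℤ) (hz : z ∈ TbS N k A A' (rdh N i))
    (hz' : (z'.1 - prd N k, z'.2 - prd N k) ∈ TbS N k B B' (rdh N j))
    (h1 : |z.1 - z'.1| ≤ 1) (h2 : |z.2 - z'.2| ≤ 1) : False := by
  obtain ⟨sa, xa⟩ := A
  obtain ⟨sa', xa'⟩ := A'
  obtain ⟨sb, xb⟩ := B
  obtain ⟨sb', xb'⟩ := B'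
  obtain ⟨x, y⟩ := z
  obtain ⟨x', y'⟩ := z'
  rw [abs_le] at h1 h2
  simp only [AC] at hA hA' hB hB'
  simp only at h1 h2
  rcases hA with ⟨rfl, hA⟩ | ⟨rfl, hA⟩ <;> rcases hA' with ⟨rfl, hA'⟩ | ⟨rfl, hA'⟩ <;>
    rcases hB with ⟨rfl, hB⟩ | ⟨rfl, hB⟩ <;> rcases hB' with ⟨rfl, hB'⟩ | ⟨rfl, hB'⟩ <;>
    simp [TbS, OC, cpos, csq, rdh, prd, le_abs] at hz hz' hBA <;>
    omega

/-- extent of a tube -/
theorem ext (N k i : ℕ) (hi : 2 * i < k) (hN : k + 4 ≤ N)
    (A A' : Cel) (hA : AC N A) (hA' : AC N A')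
    (z : ℤ × ℤ) (hz : z ∈ TbS N k A A' (rdh N i)) :
    -(N : ℤ) ≤ z.1 ∧ z.1 ≤ prd N k + N + k + 1 ∧ -(N : ℤ) - k - 2 ≤ z.2 ∧ z.2 ≤ prd N k + N := by
  obtain ⟨sa, xa⟩ := A
  obtain ⟨sa', xa'⟩ := A'
  obtain ⟨x, y⟩ := z
  simp only [AC] at hA hA'
  simp only
  rcases hA with ⟨rfl, hA⟩ | ⟨rfl, hA⟩ <;> rcases hA' with ⟨rfl, hA'⟩ | ⟨rfl, hA'⟩ <;>
    simp [TbS, rdh, prd] at hz ⊢ <;>
    omega

/-- near the box of the start -/
theorem box0 (N k i : ℕ) (hi : 2 * i < k) (hN : k + 4 ≤ N)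
    (A A' : Cel) (hA : AC N A) (hA' : AC N A')
    (z b : ℤ × ℤ) (hz : z ∈ TbS N k A A' (rdh N i))
    (hb : -(N : ℤ) ≤ b.1 ∧ b.1 < N ∧ -(N : ℤ) ≤ b.2 ∧ b.2 < N)
    (h1 : |z.1 - b.1| ≤ 1) (h2 : |z.2 - b.2| ≤ 1) : z = csq N A := by
  obtain ⟨sa, xa⟩ := A
  obtain ⟨sa', xa'⟩ := A'
  obtain ⟨x, y⟩ := z
  obtain ⟨x', y'⟩ := b
  rw [abs_le] at h1 h2
  simp only [AC] at hA hA'
  simp only at h1 h2 hb
  rcases hA with ⟨rfl, hA⟩ | ⟨rfl, hA⟩ <;> rcases hA' with ⟨rfl, hA'⟩ | ⟨rfl, hA'⟩ <;>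
    simp [TbS, rdh, prd, csq] at hz ⊢ <;>
    omega

/-- near the box of the end -/
theorem box1 (N k i : ℕ) (hi : 2 * i < k) (hk : 2 ≤ k) (hN : k + 4 ≤ N)
    (A A' : Cel) (hA : AC N A) (hA' : AC N A')
    (z b : ℤ × ℤ) (hz : z ∈ TbS N k A A' (rdh N i))
    (hb : -(N : ℤ) ≤ b.1 - prd N k ∧ b.1 - prd N k < N ∧ -(N : ℤ) ≤ b.2 - prd N k ∧
      b.2 - prd N k < N)
    (h1 : |z.1 - b.1| ≤ 1) (h2 : |z.2 - b.2| ≤ 1) :
    (z.1 - prd N k, z.2 - prd N k) = csq N A' := by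
  obtain ⟨sa, xa⟩ := A
  obtain ⟨sa', xa'⟩ := A'
  obtain ⟨x, y⟩ := z
  obtain ⟨x', y'⟩ := b
  rw [abs_le] at h1 h2
  simp only [AC] at hA hA'
  simp only at h1 h2 hb
  rcases hA with ⟨rfl, hA⟩ | ⟨rfl, hA⟩ <;> rcases hA' with ⟨rfl, hA'⟩ | ⟨rfl, hA'⟩ <;>
    simp [TbS, rdh, prd, csq] at hz hb ⊢ <;>
    omega

end Th12

open Th12

theorem t_h1 : S_h1 := by
  intro N k c hk hN hAdm L L' z z' hz hz' h1 h2
  obtain ⟨hc, hpos, hsep⟩ := hAdm
  have hP : (0 : ℤ) < (prd N k : ℕ) := by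
    have : 0 < prd N k := by unfold prd; omega
    exact_mod_cast this
  have hPe : ((prd N k : ℕ) : ℤ) = 4 * (N + 4 * k) := by
    unfold prd; push_cast; ring
  obtain ⟨i, s, hi, hl, hm⟩ := hz
  obtain ⟨j, s', hj, hl', hm'⟩ := hz'
  have hOC : ∀ a b : Fin k, a < b → OC N (c a) (c b) := fun a b hab =>
    ⟨hpos a b hab, hsep a b hab.ne⟩
  -- ordered version
  have key : ∀ (i j : ℕ) (s s' : ℤ) (hi : 2 * i < k) (hj : 2 * j < k) (z z' : ℤ × ℤ),
      shf N k s z ∈ TbS N k (c ⟨i, by omega⟩) (c ⟨k - 1 - i, by omega⟩) (rdh N i) →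
      shf N k s' z' ∈ TbS N k (c ⟨j, by omega⟩) (c ⟨k - 1 - j, by omega⟩) (rdh N j) →
      |z.1 - z'.1| ≤ 1 → |z.2 - z'.2| ≤ 1 → s < s' → labT k i s = labT k j s' := by
    intro i j s s' hi hj z z' hm hm' h1 h2 hss
    rcases eq_or_lt_of_le (show s + 1 ≤ s' by omega) with h | h
    · subst h
      by_cases hij : i + j + 1 = k
      · have e1 : 2 * i + 1 = k := by omega
        have e2 : 2 * j + 1 = k := by omega
        have e3 : i = j := by omega
        simp [labT, e1, e3, e2]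
      · exfalso
        refine next N k i j hi hj hk hN _ _ _ _ (hc ⟨i, by omega⟩) (hc ⟨k - 1 - i, by omega⟩)
          (hc ⟨j, by omega⟩) (hc ⟨k - 1 - j, by omega⟩)
          (hOC ⟨j, by omega⟩ ⟨k - 1 - i, by omega⟩ (by
            rw [Fin.lt_def]
            simp only
            omega)) (shf N k s z) (shf N k s z') hm ?_ ?_ ?_
        · have e : shf N k (s + 1) z' = ((shf N k s z').1 - (prd N k : ℕ),
              (shf N k s z').2 - (prd N k : ℕ)) := by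
            simp only [shf]
            ext
            · simp only; ring
            · simp only; ring
          rw [← e]
          exact hm'
        · simp only [shf]
          rw [show z.1 - s * (prd N k : ℕ) - (z'.1 - s * (prd N k : ℕ)) = z.1 - z'.1 by ring]
          exact h1
        · simp only [shf]
          rw [show z.2 - s * (prd N k : ℕ) - (z'.2 - s * (prd N k : ℕ)) = z.2 - z'.2 by ring]
          exact h2
    · exfalso
      have hA := ext N k i hi hN _ _ (hc _) (hc _) _ hm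
      have hB := ext N k j hj hN _ _ (hc _) (hc _) _ hm'
      simp only [shf] at hA hB
      have h3 : s * (prd N k : ℕ) + 2 * (prd N k : ℕ) ≤ s' * (prd N k : ℕ) := by
        have : s + 2 ≤ s' := by omega
        nlinarith
      rw [abs_le] at h1 h2
      omega
  rw [← hl, ← hl']
  rcases lt_trichotomy s s' with h | h | h
  · exact key i j s s' hi hj z z' hm hm' h1 h2 h
  · subst h
    rcases lt_trichotomy i j with hij | hij | hij
    · exfalso
      refine same N k i j hij hj hN _ _ _ _ (hc _) (hc _) (hc _) (hc _)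
        (hOC ⟨i, by omega⟩ ⟨j, by omega⟩ hij) (hOC ⟨k - 1 - j, by omega⟩ ⟨k - 1 - i, by omega⟩ (by
          rw [Fin.lt_def]
          simp only
          omega)) (shf N k s z) (shf N k s z') hm hm' ?_ ?_
      · simp only [shf]
        rw [show z.1 - s * (prd N k : ℕ) - (z'.1 - s * (prd N k : ℕ)) = z.1 - z'.1 by ring]
        exact h1
      · simp only [shf]
        rw [show z.2 - s * (prd N k : ℕ) - (z'.2 - s * (prd N k : ℕ)) = z.2 - z'.2 by ring]
        exact h2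
    · subst hij
      rfl
    · exfalso
      refine same N k j i hij hi hN _ _ _ _ (hc _) (hc _) (hc _) (hc _)
        (hOC ⟨j, by omega⟩ ⟨i, by omega⟩ hij) (hOC ⟨k - 1 - i, by omega⟩ ⟨k - 1 - j, by omega⟩ (by
          rw [Fin.lt_def]
          simp only
          omega)) (shf N k s z') (shf N k s z) hm' hm ?_ ?_
      · simp only [shf]
        rw [show z'.1 - s * (prd N k : ℕ) - (z.1 - s * (prd N k : ℕ)) = -(z.1 - z'.1) by ring,
          abs_neg]
        exact h1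
      · simp only [shf]
        rw [show z'.2 - s * (prd N k : ℕ) - (z.2 - s * (prd N k : ℕ)) = -(z.2 - z'.2) by ring,
          abs_neg]
        exact h2
  · refine (key j i s' s hj hi z' z hm' hm ?_ ?_ h).symm
    · rw [show z'.1 - z.1 = -(z.1 - z'.1) by ring, abs_neg]
      exact h1
    · rw [show z'.2 - z.2 = -(z.2 - z'.2) by ring, abs_neg]
      exact h2

theorem t_h2 : S_h2 := by
  intro N k c hk hN hAdm L s z b hz hb h1 h2
  obtain ⟨hc, hpos, hsep⟩ := hAdm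
  have hPe : ((prd N k : ℕ) : ℤ) = 4 * (N + 4 * k) := by
    unfold prd; push_cast; ring
  obtain ⟨i, s', hi, hl, hm⟩ := hz
  simp only [BxS, shf, Set.mem_ofPred_eq] at hb
  have e1 : |(shf N k s' z).1 - (shf N k s' b).1| ≤ 1 := by
    simp only [shf]
    rw [show z.1 - s' * (prd N k : ℕ) - (b.1 - s' * (prd N k : ℕ)) = z.1 - b.1 by ring]
    exact h1
  have e2 : |(shf N k s' z).2 - (shf N k s' b).2| ≤ 1 := by
    simp only [shf]
    rw [show z.2 - s' * (prd N k : ℕ) - (b.2 - s' * (prd N k : ℕ)) = z.2 - b.2 by ring]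
    exact h2
  rcases lt_trichotomy s s' with h | h | h
  · exfalso
    have hA := ext N k i hi hN _ _ (hc _) (hc _) _ hm
    simp only [shf] at hA
    have h3 : s * (prd N k : ℕ) + (prd N k : ℕ) ≤ s' * (prd N k : ℕ) := by
      have : s + 1 ≤ s' := by omega
      nlinarith
    rw [abs_le] at h1 h2
    omega
  · subst h
    refine ⟨⟨i, by omega⟩, ?_, ?_⟩
    · rw [← hl]
      simp only [labC, labT]
      by_cases h : 2 * i + 1 = k
      · have h' : ¬ 2 * i + 1 < k := by omega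
        simp [h]
      · have h' : 2 * i + 1 < k := by omega
        simp [h, h']
    · exact box0 N k i hi hN _ _ (hc _) (hc _) _ (shf N k s b) hm hb e1 e2
  · rcases eq_or_lt_of_le (show s' + 1 ≤ s by omega) with h' | h'
    · subst h'
      refine ⟨⟨k - 1 - i, by omega⟩, ?_, ?_⟩
      · rw [← hl]
        simp only [labC, labT]
        by_cases h : 2 * i + 1 = k
        · have h3 : k - 1 - i = i := by omega
          rw [h3]
          simp [h]
        · have h3 : ¬ 2 * (k - 1 - i) + 1 < k := by omega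
          have h4 : ¬ 2 * (k - 1 - i) + 1 = k := by omega
          have h5 : k - 1 - (k - 1 - i) = i := by omega
          simp [h, h3, h4, h5]
      · have := box1 N k i hi hk hN _ _ (hc _) (hc _) _ (shf N k s' b) hm (by
          simp only [shf]
          refine ⟨?_, ?_, ?_, ?_⟩ <;> linarith [hb.1, hb.2.1, hb.2.2.1, hb.2.2.2]) e1 e2
        rw [← this]
        simp only [shf]
        ext
        · simp only; ring
        · simp only; ring
    · exfalso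
      have hA := ext N k i hi hN _ _ (hc _) (hc _) _ hm
      simp only [shf] at hA
      have h3 : s' * (prd N k : ℕ) + 2 * (prd N k : ℕ) ≤ s * (prd N k : ℕ) := by
        have : s' + 2 ≤ s := by omega
        nlinarith
      rw [abs_le] at h1 h2
      omega

end Pool.Agent.W808.HU
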