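import Pool.Agent.W808.HU.Stm
import Pool.Agent.H160R2.MU.T_g3

/-! h3 (helper265): the tubes are connected and contain their cells. -/

set_option autoImplicit false

namespace Pool.Agent.W808.HU

open H974 H906.Cyl
open H12S (Dir hbE segD rimE H4 Crs Nr sqE)
open Pool.Agent.H160R2.ML (nm)
open Pool.Agent.H160R2.MU (Cel csq cpos rad prd shf BxS Bxs EP inSq PC Bad Trap Cc)
open Pool.Agent.H160R2.MU

namespace Th3

open Pool.Agent.H160R2.MU.Tg3 (K Kh Kv shf_bk bk_shf lift mem_sq full close top left)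

/-- the conditions on one cell -/
def Ok1 (N : ℕ) (C : Cel) : Prop :=
  (C.1 = 1 ∧ -(N : ℤ) ≤ C.2 ∧ C.2 + 3 ≤ N) ∨ (C.1 = 2 ∧ -(N : ℤ) + 2 ≤ C.2 ∧ C.2 < N)

lemma prd_eq (N k : ℕ) : (prd N k : ℤ) = 4 * (N + 4 * k) := by unfold prd; push_cast; ring

/-- translation by one period -/
def up (N k : ℕ) (z : ℤ × ℤ) : ℤ × ℤ := (z.1 + prd N k, z.2 + prd N k)

lemma piece {N k : ℕ} {C C' : Cel} (hk : 2 ≤ k) (hC : Ok1 N C) (hC' : Ok1 N C') {ρ : ℤ}
    (h1 : (N : ℤ) ≤ ρ) :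
    (∀ z ∈ TbS N k C C' ρ, K (TbS N k C C' ρ) z (csq N C)) ∧
      csq N C ∈ TbS N k C C' ρ ∧ up N k (csq N C') ∈ TbS N k C C' ρ := by
  obtain ⟨c1, c2⟩ := C
  obtain ⟨d1, d2⟩ := C'
  have hprd := prd_eq N k
  have hkk : (2 : ℤ) ≤ k := by exact_mod_cast hk
  have hN0 : (0 : ℤ) ≤ N := by positivity
  obtain ⟨P, hP⟩ : ∃ P : ℤ, P = (prd N k : ℤ) := ⟨_, rfl⟩
  obtain ⟨y0, hy0⟩ : ∃ y0 : ℤ, y0 = if c1 = 1 then c2 else -ρ - 1 := ⟨_, rfl⟩
  obtain ⟨x0, hx0⟩ : ∃ x0 : ℤ, x0 = if c1 = 1 then (N : ℤ) else c2 := ⟨_, rfl⟩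
  obtain ⟨x1, hx1⟩ : ∃ x1 : ℤ, x1 = if d1 = 1 then P + ρ else P + d2 := ⟨_, rfl⟩
  obtain ⟨y1, hy1⟩ : ∃ y1 : ℤ, y1 = if d1 = 1 then P + d2 else P - N - 1 := ⟨_, rfl⟩
  have hmem : ∀ z : ℤ × ℤ, z ∈ TbS N k (c1, c2) (d1, d2) ρ ↔
      (c1 = 2 ∧ z.1 = x0 ∧ y0 ≤ z.2 ∧ z.2 ≤ -N - 1) ∨
      (z.2 = y0 ∧ x0 ≤ z.1 ∧ z.1 ≤ x1) ∨
      (z.1 = x1 ∧ y0 ≤ z.2 ∧ z.2 ≤ y1) ∨
      (d1 = 1 ∧ z.2 = y1 ∧ P + N ≤ z.1 ∧ z.1 ≤ x1) := by
    intro z
    rw [hy0, hx0, hx1, hy1, hP]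
    exact Iff.rfl
  have hx01 : x0 ≤ x1 := by
    rw [hx0, hx1, hP, hprd]
    rcases hC with ⟨e1, e2, e3⟩ | ⟨e1, e2, e3⟩ <;> rcases hC' with ⟨f1, f2, f3⟩ | ⟨f1, f2, f3⟩ <;>
      simp only at e1 e2 e3 f1 f2 f3 <;> subst e1 f1 <;> simp <;> omega
  have hy01 : y0 ≤ y1 := by
    rw [hy0, hy1, hP, hprd]
    rcases hC with ⟨e1, e2, e3⟩ | ⟨e1, e2, e3⟩ <;> rcases hC' with ⟨f1, f2, f3⟩ | ⟨f1, f2, f3⟩ <;>
      simp only at e1 e2 e3 f1 f2 f3 <;> subst e1 f1 <;> simp <;> omega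
  -- members
  have m1 : c1 = 2 → ∀ t, y0 ≤ t → t ≤ -N - 1 → ((x0, t) : ℤ × ℤ) ∈ TbS N k (c1, c2) (d1, d2) ρ :=
    fun h t h2 h3 => (hmem _).2 (Or.inl ⟨h, rfl, h2, h3⟩)
  have m2 : ∀ t, x0 ≤ t → t ≤ x1 → ((t, y0) : ℤ × ℤ) ∈ TbS N k (c1, c2) (d1, d2) ρ :=
    fun t h2 h3 => (hmem _).2 (Or.inr (Or.inl ⟨rfl, h2, h3⟩))
  have m3 : ∀ t, y0 ≤ t → t ≤ y1 → ((x1, t) : ℤ × ℤ) ∈ TbS N k (c1, c2) (d1, d2) ρ :=
    fun t h2 h3 => (hmem _).2 (Or.inr (Or.inr (Or.inl ⟨rfl, h2, h3⟩)))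
  have m4 : d1 = 1 → ∀ t, P + N ≤ t → t ≤ x1 → ((t, y1) : ℤ × ℤ) ∈ TbS N k (c1, c2) (d1, d2) ρ :=
    fun h t h2 h3 => (hmem _).2 (Or.inr (Or.inr (Or.inr ⟨h, rfl, h2, h3⟩)))
  -- chains
  have e0 : K (TbS N k (c1, c2) (d1, d2) ρ) (x0, y0) (csq N (c1, c2)) ∧
      csq N (c1, c2) ∈ TbS N k (c1, c2) (d1, d2) ρ := by
    rcases hC with ⟨e1, e2, e3⟩ | ⟨e1, e2, e3⟩
    · have hq : csq N (c1, c2) = (x0, y0) := by
        simp only at e1
        subst e1
        rw [hx0, hy0]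
        rfl
      rw [hq]
      exact ⟨K.refl _ _, m2 _ le_rfl hx01⟩
    · have hq : csq N (c1, c2) = (x0, -(N : ℤ) - 1) := by
        simp only at e1
        subst e1
        rw [hx0]
        rfl
      have hy : y0 ≤ -(N : ℤ) - 1 := by
        simp only at e1
        subst e1
        rw [hy0]
        simp
        omega
      rw [hq]
      exact ⟨Kv hy fun t h2 h3 => m1 e1 t h2 h3, m1 e1 _ hy le_rfl⟩
  have e2 : ∀ t, x0 ≤ t → t ≤ x1 → K (TbS N k (c1, c2) (d1, d2) ρ) (t, y0) (csq N (c1, c2)) :=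
    fun t h2 h3 => ((Kh h2 fun t' h4 h5 => m2 t' h4 (h5.trans h3)).symm).trans e0.1
  have e3 : ∀ t, y0 ≤ t → t ≤ y1 → K (TbS N k (c1, c2) (d1, d2) ρ) (x1, t) (csq N (c1, c2)) :=
    fun t h2 h3 => ((Kv h2 fun t' h4 h5 => m3 t' h4 (h5.trans h3)).symm).trans (e2 _ hx01 le_rfl)
  refine ⟨?_, e0.2, ?_⟩
  · rintro ⟨x, y⟩ hz
    rcases (hmem _).1 hz with ⟨g0, g1, g2, g3⟩ | ⟨g1, g2, g3⟩ | ⟨g1, g2, g3⟩ | ⟨g0, g1, g2, g3⟩
    · simp only at g1 g2 g3
      rw [g1]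
      exact ((Kv g2 fun t' h4 h5 => m1 g0 t' h4 (h5.trans g3)).symm).trans e0.1
    · simp only at g1 g2 g3
      rw [g1]
      exact e2 _ g2 g3
    · simp only at g1 g2 g3
      rw [g1]
      exact e3 _ g2 g3
    · simp only at g1 g2 g3
      rw [g1]
      exact (Kh g3 fun t' h4 h5 => m4 g0 t' (g2.trans h4) h5).trans (e3 _ hy01 le_rfl)
  · rcases hC' with ⟨e1, f2, f3⟩ | ⟨e1, f2, f3⟩
    · have hq : up N k (csq N (d1, d2)) = (P + N, y1) := by
        simp only at e1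
        subst e1
        rw [hy1, hP]
        unfold up csq
        simp
        constructor <;> ring
      rw [hq]
      refine m4 e1 _ le_rfl ?_
      simp only at e1
      subst e1
      rw [hx1]
      simp
      omega
    · have hq : up N k (csq N (d1, d2)) = (x1, y1) := by
        simp only at e1
        subst e1
        rw [hx1, hy1, hP]
        unfold up csq
        simp
        constructor <;> ring
      rw [hq]
      exact m3 _ hy01 le_rfl

lemma bk_up (N k : ℕ) (s : ℤ) (z : ℤ × ℤ) : Tg3.bk N k s (up N k z) = Tg3.bk N k (s + 1) z := by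
  unfold Tg3.bk up
  ext
  · show z.1 + (prd N k : ℤ) + s * prd N k = z.1 + (s + 1) * prd N k
    ring
  · show z.2 + (prd N k : ℤ) + s * prd N k = z.2 + (s + 1) * prd N k
    ring

lemma rdh_le (N i : ℕ) : (N : ℤ) ≤ rdh N i := by unfold rdh; omega

/-- the first cell of the piece `i` of the box `s` -/
def En (N k : ℕ) (c : Fin k → Cel) (a : Fin k) (s : ℤ) : ℤ × ℤ := Tg3.bk N k s (csq N (c a))

lemma piece_tube {N k : ℕ} {c : Fin k → Cel} (hk : 2 ≤ k) (hA : AdmH N k c) {L : ℕ × ℤ} {i : ℕ}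
    {s : ℤ} (h : 2 * i < k) (hL : labT k i s = L) :
    (∀ z, shf N k s z ∈ TbS N k (c ⟨i, by omega⟩) (c ⟨k - 1 - i, by omega⟩) (rdh N i) →
      K (TubeH N k c L) z (En N k c ⟨i, by omega⟩ s)) ∧
    En N k c ⟨i, by omega⟩ s ∈ TubeH N k c L ∧
    En N k c ⟨k - 1 - i, by omega⟩ (s + 1) ∈ TubeH N k c L ∧
    K (TubeH N k c L) (En N k c ⟨k - 1 - i, by omega⟩ (s + 1)) (En N k c ⟨i, by omega⟩ s) := by
  have hsub : ∀ w ∈ TbS N k (c ⟨i, by omega⟩) (c ⟨k - 1 - i, by omega⟩) (rdh N i),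
      Tg3.bk N k s w ∈ TubeH N k c L := fun w hw => ⟨i, s, h, hL, by rw [shf_bk]; exact hw⟩
  obtain ⟨h1, h2, h3⟩ := piece hk (hA.1 ⟨i, by omega⟩) (hA.1 ⟨k - 1 - i, by omega⟩) (rdh_le N i)
    (k := k)
  have h4 := hsub _ h3
  have h5 := lift hsub (h1 _ h3)
  rw [bk_up] at h4 h5
  refine ⟨fun z hz => ?_, hsub _ h2, h4, h5⟩
  have h6 := lift hsub (h1 _ hz)
  rwa [bk_shf] at h6

/-- a tube is a chain -/
lemma tube {N k : ℕ} {c : Fin k → Cel} (hk : 2 ≤ k) (hA : AdmH N k c) (L : ℕ × ℤ) :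
    ∃ E : ℤ × ℤ, ∀ z ∈ TubeH N k c L, K (TubeH N k c L) z E := by
  obtain ⟨i, s0⟩ := L
  rcases lt_trichotomy (2 * i + 1) k with h | h | h
  · have hlab : labT k i s0 = (i, s0) := by unfold labT; rw [if_neg (by omega)]
    refine ⟨En N k c ⟨i, by omega⟩ s0, ?_⟩
    rintro z ⟨j, s, hj, hL, hz⟩
    have hL' := hL
    unfold labT at hL
    have h5 : j = i := by
      split_ifs at hL
      · exact congrArg Prod.fst hL
      · exact congrArg Prod.fst hL
    subst h5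
    have h6 : s = s0 := by
      rw [if_neg (by omega)] at hL
      exact congrArg Prod.snd hL
    subst h6
    exact (piece_tube hk hA hj hL').1 z hz
  · have hki : k - 1 - i = i := by omega
    have hi : 2 * i < k := by omega
    have hfin : (⟨k - 1 - i, by omega⟩ : Fin k) = ⟨i, by omega⟩ := Fin.ext hki
    have hall : s0 = 0 → ∀ s : ℤ, K (TubeH N k c (i, s0)) (En N k c ⟨i, by omega⟩ (s + 1))
        (En N k c ⟨i, by omega⟩ s) := by
      intro h0 s
      have hlab : labT k i s = (i, s0) := by unfold labT; rw [if_pos h, h0]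
      have := (piece_tube (N := N) (c := c) hk hA (i := i) (s := s) hi hlab).2.2.2
      rwa [hfin] at this
    have hall2 : s0 = 0 → ∀ s : ℤ, K (TubeH N k c (i, s0)) (En N k c ⟨i, by omega⟩ s)
        (En N k c ⟨i, by omega⟩ 0) := by
      intro h0 s
      induction s using Int.induction_on with
      | zero => exact K.refl _ _
      | succ n ih => exact (hall h0 n).trans ih
      | pred n ih =>
        have := hall h0 (-(n : ℤ) - 1)
        rw [sub_add_cancel] at this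
        exact this.symm.trans ih
    refine ⟨En N k c ⟨i, by omega⟩ 0, ?_⟩
    rintro z ⟨j, s, hj, hL, hz⟩
    have hL' := hL
    unfold labT at hL
    have h5 : j = i := by
      split_ifs at hL
      · exact congrArg Prod.fst hL
      · exact congrArg Prod.fst hL
    subst h5
    have h6 : (0 : ℤ) = s0 := by
      rw [if_pos h] at hL
      exact congrArg Prod.snd hL
    exact ((piece_tube hk hA hj hL').1 z hz).trans (hall2 h6.symm s)
  · refine ⟨0, ?_⟩
    rintro z ⟨j, s, hj, hL, hz⟩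
    exfalso
    have h5 : j = i := by
      unfold labT at hL
      split_ifs at hL
      · exact congrArg Prod.fst hL
      · exact congrArg Prod.fst hL
    omega

/-- the squares of a tube are connected inside -/
lemma inner (h2 : S_h2) {N k : ℕ} {c : Fin k → Cel} (hk : 2 ≤ k) (hN : k + 4 ≤ N)
    (hA : AdmH N k c) {r : ℕ} (hr : 1 ≤ r) {L : ℕ × ℤ} {z : ℤ × ℤ} (hz : z ∈ TubeH N k c L)
    {u v : Vtx} (hu : inSq r z u) (hv : inSq r z v) :
    Reach (EP r (TubeH N k c L) \ EP r (Bxs N k)) u v := by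
  have hg2 := h2 N k c hk hN hA
  by_cases hb : ∃ (s : ℤ) (b : ℤ × ℤ), b ∈ BxS N k s ∧ |z.1 - b.1| ≤ 1 ∧ |z.2 - b.2| ≤ 1
  · obtain ⟨s, b, hbs, hb1, hb2⟩ := hb
    obtain ⟨a, -, hac⟩ := hg2 L s z b hz hbs hb1 hb2
    have hprd := prd_eq N k
    have hcs : ∀ d : Fin k, -(N : ℤ) - 1 ≤ (csq N (c d)).1 ∧ (csq N (c d)).1 ≤ N := by
      intro d
      have e := hA.1 d
      unfold csq
      split_ifs <;> simp only <;> omega
    -- boxes near `z` are the box `s`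
    have huniq : ∀ (s' : ℤ) (b' : ℤ × ℤ), b' ∈ BxS N k s' → |z.1 - b'.1| ≤ 1 → |z.2 - b'.2| ≤ 1 →
        s' = s := by
      intro s' b' hb' h3 h4
      obtain ⟨a', -, hac'⟩ := hg2 L s' z b' hz hb' h3 h4
      have k1 : z.1 - s * prd N k = (csq N (c a)).1 := congrArg Prod.fst hac
      have k2 : z.1 - s' * prd N k = (csq N (c a')).1 := congrArg Prod.fst hac'
      have k3 := hcs a
      have k4 := hcs a'
      have k5 : (s' - s) * (prd N k : ℤ) = (csq N (c a)).1 - (csq N (c a')).1 := by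
        rw [← k1, ← k2]; ring
      have hkk : (2 : ℤ) ≤ k := by exact_mod_cast hk
      have hN0 : (0 : ℤ) ≤ N := by positivity
      by_contra hne
      rcases lt_or_gt_of_ne hne with h5 | h5
      · have h6 : s' - s ≤ -1 := by omega
        have h7 : (s' - s) * (prd N k : ℤ) ≤ (-1) * (prd N k : ℤ) :=
          mul_le_mul_of_nonneg_right h6 (by rw [hprd]; positivity)
        rw [hprd] at h7 k5
        omega
      · have h6 : 1 ≤ s' - s := by omega
        have h7 : 1 * (prd N k : ℤ) ≤ (s' - s) * (prd N k : ℤ) :=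
          mul_le_mul_of_nonneg_right h6 (by rw [hprd]; positivity)
        rw [hprd] at h7 k5
        omega
    have hbox : ∀ e ∈ sqE r z, e ∈ EP r (Bxs N k) → ∃ b' : ℤ × ℤ, b' ∈ BxS N k s ∧
        inSq r b' (src e) ∧ inSq r b' (tgt e) := by
      rintro e he ⟨b', ⟨s', hb's⟩, heb⟩
      have q1 := mem_sq he
      have q2 := mem_sq heb
      have q3 := close hr q1.1 q2.1
      have := huniq s' b' hb's q3.1 q3.2
      subst this
      exact ⟨b', hb's, q2.1, q2.2⟩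
    have hr' : (1 : ℤ) ≤ r := by exact_mod_cast hr
    have k1 : z.1 - s * prd N k = (csq N (c a)).1 := congrArg Prod.fst hac
    have k2 : z.2 - s * prd N k = (csq N (c a)).2 := congrArg Prod.snd hac
    have key : ∀ e ∈ sqE r z, e ∉ EP r (Bxs N k) → e ∈ EP r (TubeH N k c L) \ EP r (Bxs N k) :=
      fun e he hn => ⟨⟨z, hz, he⟩, hn⟩
    rcases hA.1 a with ⟨e1, e2, e3⟩ | ⟨e1, e2, e3⟩
    · have hq : csq N (c a) = ((N : ℤ), (c a).2) := by
        unfold csq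
        rw [if_neg (by omega), if_pos e1]
      rw [hq] at k1 k2
      refine left hr (fun e he hne => key e he fun hB => hne ?_) hu hv
      obtain ⟨b', hb', p1, p2⟩ := hbox e he hB
      obtain ⟨q1, q2⟩ := mem_sq he
      have w1 : b'.1 - s * prd N k < N := hb'.2.1
      have w2 : b'.1 + 1 ≤ z.1 := by simp only at k1; omega
      have w3 : (r : ℤ) * (b'.1 + 1) ≤ r * z.1 := mul_le_mul_of_nonneg_left w2 (by omega)
      have w4 : (r : ℤ) * (b'.1 + 1) = r * b'.1 + r := by ring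
      have := p1.2.1
      have := p2.2.1
      have := q1.1
      have := q2.1
      constructor <;> omega
    · have hq : csq N (c a) = ((c a).2, -(N : ℤ) - 1) := by
        unfold csq
        rw [if_neg (by omega), if_neg (by omega), if_pos e1]
      rw [hq] at k1 k2
      refine top hr (fun e he hne => key e he fun hB => hne ?_) hu hv
      obtain ⟨b', hb', p1, p2⟩ := hbox e he hB
      obtain ⟨q1, q2⟩ := mem_sq he
      have w1 : -(N : ℤ) ≤ b'.2 - s * prd N k := hb'.2.2.1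
      have w2 : z.2 + 1 ≤ b'.2 := by simp only at k2; omega
      have w3 : (r : ℤ) * (z.2 + 1) ≤ r * b'.2 := mul_le_mul_of_nonneg_left w2 (by omega)
      have w4 : (r : ℤ) * (z.2 + 1) = r * z.2 + r := by ring
      have := p1.2.2.1
      have := p2.2.2.1
      have := q1.2.2.2
      have := q2.2.2.2
      constructor <;> omega
  · refine full (F := EP r (TubeH N k c L) \ EP r (Bxs N k)) (fun e he => ⟨⟨z, hz, he⟩, ?_⟩) hu hv
    rintro ⟨b, ⟨s, hbs⟩, heb⟩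
    have q3 := close hr (mem_sq he).1 (mem_sq heb).1
    exact hb ⟨s, b, hbs, q3.1, q3.2⟩

lemma bk_of_shf {N k : ℕ} {s : ℤ} {z w : ℤ × ℤ} (h : shf N k s z = w) : z = Tg3.bk N k s w := by
  rw [← h, bk_shf]

end Th3

/-- the tubes are connected and contain their cells -/
theorem t_h3 (h2 : S_h2) : S_h3 := by
  intro N k c hk hN hA
  refine ⟨?_, ?_⟩
  · intro r L z z' u v hr hz hz' hu hv
    obtain ⟨E, hE⟩ := Th3.tube hk hA L
    exact Tg3.K.reach (fun w hw x y hx hy => Th3.inner h2 hk hN hA hr hw hx hy)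
      ((hE z hz).trans (hE z' hz').symm) hz u v hu hv
  · intro a s z hz
    obtain ⟨a, ha⟩ := a
    rw [Th3.bk_of_shf hz]
    change _ ∈ TubeH N k c (labC k a s)
    unfold labC
    rcases lt_trichotomy (2 * a + 1) k with h | h | h
    · rw [if_pos h]
      have hlab : labT k a s = (a, s) := by unfold labT; rw [if_neg (by omega)]
      exact (Th3.piece_tube hk hA (by omega) hlab).2.1
    · rw [if_neg (by omega), if_pos h]
      have hlab : labT k a s = (a, 0) := by unfold labT; rw [if_pos h]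
      exact (Th3.piece_tube hk hA (by omega) hlab).2.1
    · rw [if_neg (by omega), if_neg (by omega)]
      have hlab : labT k (k - 1 - a) (s - 1) = (k - 1 - a, s - 1) := by
        unfold labT; rw [if_neg (by omega)]
      have h3 := (Th3.piece_tube (c := c) hk hA (by omega) hlab).2.2.1
      have h4 : (⟨k - 1 - (k - 1 - a), by omega⟩ : Fin k) = ⟨a, ha⟩ :=
        Fin.ext (by show k - 1 - (k - 1 - a) = a; omega)
      rw [h4, sub_add_cancel] at h3
      exact h3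

end Pool.Agent.W808.HU
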