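import Pool.Agent.W808.HU.Stm
import Pool.Agent.H160R2.MU.T_g4

/-!
# Half-plane coarse geometry: no checkerboard, periodicity, extent
-/

set_option autoImplicit false

namespace Pool.Agent.W808.HU
open Pool.Agent.H160R2.MU (Cel csq cpos rad prd shf BxS Bxs EP inSq)
open Pool.Agent.H160R2.MU.Tg4 (Rt RP NI Cor Nb cor_rect cor_list mul_gap shf_shf)

namespace Th4

/-- rectangles of the tubes -/
def tbR (N k : ℕ) (C C' : Cel) (ρ : ℤ) : List Rt :=
  if C.1 = 1 then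
    if C'.1 = 1 then
      [(N, prd N k + ρ, C.2, C.2), (prd N k + ρ, prd N k + ρ, C.2, prd N k + C'.2),
        (prd N k + N, prd N k + ρ, prd N k + C'.2, prd N k + C'.2)]
    else
      [(N, prd N k + C'.2, C.2, C.2), (prd N k + C'.2, prd N k + C'.2, C.2, prd N k - N - 1)]
  else
    if C'.1 = 1 then
      [(C.2, C.2, -ρ - 1, -N - 1), (C.2, prd N k + ρ, -ρ - 1, -ρ - 1),
        (prd N k + ρ, prd N k + ρ, -ρ - 1, prd N k + C'.2),
        (prd N k + N, prd N k + ρ, prd N k + C'.2, prd N k + C'.2)]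
    else
      [(C.2, C.2, -ρ - 1, -N - 1), (C.2, prd N k + C'.2, -ρ - 1, -ρ - 1),
        (prd N k + C'.2, prd N k + C'.2, -ρ - 1, prd N k - N - 1)]

/-- admissibility of one cell -/
def Ok1 (N : ℕ) (C : Cel) : Prop :=
  (C.1 = 1 ∧ -(N : ℤ) ≤ C.2 ∧ C.2 + 3 ≤ N) ∨ (C.1 = 2 ∧ -(N : ℤ) + 2 ≤ C.2 ∧ C.2 < N)

lemma tb_iff (N k : ℕ) (C C' : Cel) (ρ : ℤ) (hC : Ok1 N C) (hC' : Ok1 N C') (z : ℤ × ℤ) :
    z ∈ TbS N k C C' ρ ↔ ∃ R ∈ tbR N k C C' ρ, RP R z := by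
  obtain ⟨c1, c2⟩ := C
  obtain ⟨c1', c2'⟩ := C'
  obtain ⟨x, y⟩ := z
  simp only [Ok1] at hC hC'
  have h4 : c1 = 1 ∨ c1 = 2 := by omega
  have h4' : c1' = 1 ∨ c1' = 2 := by omega
  generalize hp : (prd N k : ℤ) = p
  rcases h4 with rfl | rfl <;> rcases h4' with rfl | rfl <;>
  · simp only [TbS, tbR, RP, hp, Set.mem_ofPred_eq, if_true, List.mem_cons, List.not_mem_nil,
      or_false, exists_eq_or_imp, exists_eq_left, if_neg (show ¬ (2 : ℕ) = 1 by omega),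
      true_and]
    omega

lemma ni_TT (N k i : ℕ) (C C' : Cel) (hN : k + 4 ≤ N) (hC : Ok1 N C)
    (hC' : Ok1 N C') :
    ∀ R ∈ tbR N k C C' (rdh N i), ∀ R' ∈ tbR N k C C' (rdh N i), NI 0 R R' := by
  obtain ⟨c1, c2⟩ := C
  obtain ⟨c1', c2'⟩ := C'
  simp only [Ok1] at hC hC'
  have h4 : c1 = 1 ∨ c1 = 2 := by omega
  have h4' : c1' = 1 ∨ c1' = 2 := by omega
  obtain ⟨p, hp⟩ : ∃ p : ℤ, p = (prd N k : ℤ) := ⟨_, rfl⟩
  have hp' : p = 4 * (N + 4 * k) := by rw [hp, prd]; push_cast; ring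
  obtain ⟨ρ, hr⟩ : ∃ ρ : ℤ, ρ = rdh N i := ⟨_, rfl⟩
  have hr' : ρ = N + 1 + 2 * i := by rw [hr]; rfl
  intro R hR R' hR'
  rcases h4 with rfl | rfl <;> rcases h4' with rfl | rfl
  · simp only [tbR, ← hp, ← hr, if_true, List.mem_cons, List.not_mem_nil, or_false] at hR hR'
    rcases hR with rfl | rfl | rfl <;> rcases hR' with rfl | rfl | rfl <;>
      simp only [NI] <;> omega
  · simp only [tbR, ← hp, ← hr, if_true, List.mem_cons, List.not_mem_nil, or_false,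
      if_neg (show ¬ (2 : ℕ) = 1 by omega)] at hR hR'
    rcases hR with rfl | rfl <;> rcases hR' with rfl | rfl <;>
      simp only [NI] <;> omega
  · simp only [tbR, ← hp, ← hr, if_true, List.mem_cons, List.not_mem_nil, or_false,
      if_neg (show ¬ (2 : ℕ) = 1 by omega)] at hR hR'
    rcases hR with rfl | rfl | rfl | rfl <;> rcases hR' with rfl | rfl | rfl | rfl <;>
      simp only [NI] <;> omega
  · simp only [tbR, ← hp, ← hr, List.mem_cons, List.not_mem_nil, or_false,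
      if_neg (show ¬ (2 : ℕ) = 1 by omega)] at hR hR'
    rcases hR with rfl | rfl | rfl <;> rcases hR' with rfl | rfl | rfl <;>
      simp only [NI] <;> omega

/-- the middle tube and its translate by one period -/
lemma ni_MM (N k i : ℕ) (C : Cel) (hN : k + 4 ≤ N) (hC : Ok1 N C) :
    ∀ R ∈ tbR N k C C (rdh N i), ∀ R' ∈ tbR N k C C (rdh N i), NI (prd N k : ℤ) R R' := by
  obtain ⟨c1, c2⟩ := C
  simp only [Ok1] at hC
  have h4 : c1 = 1 ∨ c1 = 2 := by omega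
  obtain ⟨p, hp⟩ : ∃ p : ℤ, p = (prd N k : ℤ) := ⟨_, rfl⟩
  have hp' : p = 4 * (N + 4 * k) := by rw [hp, prd]; push_cast; ring
  obtain ⟨ρ, hr⟩ : ∃ ρ : ℤ, ρ = rdh N i := ⟨_, rfl⟩
  have hr' : ρ = N + 1 + 2 * i := by rw [hr]; rfl
  intro R hR R' hR'
  rw [← hp]
  rcases h4 with rfl | rfl
  · simp only [tbR, ← hp, ← hr, if_true, List.mem_cons, List.not_mem_nil, or_false] at hR hR'
    rcases hR with rfl | rfl | rfl <;> rcases hR' with rfl | rfl | rfl <;>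
      simp only [NI] <;> omega
  · simp only [tbR, ← hp, ← hr, List.mem_cons, List.not_mem_nil, or_false,
      if_neg (show ¬ (2 : ℕ) = 1 by omega)] at hR hR'
    rcases hR with rfl | rfl | rfl <;> rcases hR' with rfl | rfl | rfl <;>
      simp only [NI] <;> omega

/-- extent of a tube -/
lemma tb_bd (N k i : ℕ) (C C' : Cel) (hN : k + 4 ≤ N) (hi : 2 * i < k) (hC : Ok1 N C)
    (hC' : Ok1 N C') (z : ℤ × ℤ) (hz : z ∈ TbS N k C C' (rdh N i)) :
    (-(N : ℤ) ≤ z.1 ∧ z.1 ≤ 5 * N + 17 * k ∧ -(N : ℤ) - k - 2 ≤ z.2 ∧ z.2 ≤ 5 * N + 16 * k) ∧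
      3 ≤ z.1 - z.2 ∧ z.1 - z.2 ≤ 4 * (N + 4 * k) + 4 * N := by
  obtain ⟨c1, c2⟩ := C
  obtain ⟨c1', c2'⟩ := C'
  obtain ⟨x, y⟩ := z
  have hC0 := hC
  have hC0' := hC'
  simp only [Ok1] at hC hC'
  have h4 : c1 = 1 ∨ c1 = 2 := by omega
  have h4' : c1' = 1 ∨ c1' = 2 := by omega
  obtain ⟨p, hp⟩ : ∃ p : ℤ, p = (prd N k : ℤ) := ⟨_, rfl⟩
  have hp' : p = 4 * (N + 4 * k) := by rw [hp, prd]; push_cast; ring
  obtain ⟨ρ, hr⟩ : ∃ ρ : ℤ, ρ = rdh N i := ⟨_, rfl⟩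
  have hr' : ρ = N + 1 + 2 * i := by rw [hr]; rfl
  rw [← hr, tb_iff N k _ _ _ hC0 hC0'] at hz
  obtain ⟨R, hR, hz⟩ := hz
  rcases h4 with rfl | rfl <;> rcases h4' with rfl | rfl
  · simp only [tbR, ← hp, if_true, List.mem_cons, List.not_mem_nil, or_false] at hR
    rcases hR with rfl | rfl | rfl <;> simp only [RP] at hz <;> simp only <;> omega
  · simp only [tbR, ← hp, if_true, List.mem_cons, List.not_mem_nil, or_false,
      if_neg (show ¬ (2 : ℕ) = 1 by omega)] at hR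
    rcases hR with rfl | rfl <;> simp only [RP] at hz <;> simp only <;> omega
  · simp only [tbR, ← hp, if_true, List.mem_cons, List.not_mem_nil, or_false,
      if_neg (show ¬ (2 : ℕ) = 1 by omega)] at hR
    rcases hR with rfl | rfl | rfl | rfl <;> simp only [RP] at hz <;> simp only <;> omega
  · simp only [tbR, ← hp, List.mem_cons, List.not_mem_nil, or_false,
      if_neg (show ¬ (2 : ℕ) = 1 by omega)] at hR
    rcases hR with rfl | rfl | rfl <;> simp only [RP] at hz <;> simp only <;> omega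

section main

variable (N k : ℕ) (c : Fin k → Cel)

lemma mem_tb (i : ℕ) (s : ℤ) (hi : 2 * i < k) (x y : ℤ)
    (h : shf N k s (x, y) ∈ TbS N k (c ⟨i, by omega⟩) (c ⟨k - 1 - i, by omega⟩) (rdh N i)) :
    (x, y) ∈ Bxs N k ∪ CrrH N k c :=
  Or.inr ⟨labT k i s, i, s, hi, rfl, h⟩

lemma cor_TT (hN : k + 4 ≤ N) (hA : AdmH N k c) (i i' : ℕ) (s s' : ℤ) (hi : 2 * i < k)
    (hi' : 2 * i' < k) (hl : labT k i s = labT k i' s') (hss : s ≤ s') (z z' : ℤ × ℤ)
    (hz : shf N k s z ∈ TbS N k (c ⟨i, by omega⟩) (c ⟨k - 1 - i, by omega⟩) (rdh N i))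
    (hz' : shf N k s' z' ∈ TbS N k (c ⟨i', by omega⟩) (c ⟨k - 1 - i', by omega⟩) (rdh N i'))
    (hb : Nb z z') : Cor (Bxs N k ∪ CrrH N k c) z z' := by
  have hm : (0 : ℤ) ≤ prd N k := Int.natCast_nonneg _
  have hmv : (prd N k : ℤ) = 4 * (N + 4 * k) := by rw [prd]; push_cast; ring
  have hcase : i = i' ∧ (s = s' ∨ (s' = s + 1 ∧ 2 * i + 1 = k) ∨ s + 2 ≤ s') := by
    simp only [labT] at hl
    split_ifs at hl <;> simp only [Prod.mk.injEq] at hl <;> omega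
  obtain ⟨rfl, hcase⟩ := hcase
  have o1 : Ok1 N (c ⟨i, by omega⟩) := hA.1 _
  have o2 : Ok1 N (c ⟨k - 1 - i, by omega⟩) := hA.1 _
  have key : ∀ (D : ℤ), D = s' * prd N k - s * prd N k →
      (D = 0 ∨ (D = (prd N k : ℤ) ∧ 2 * i + 1 = k)) →
      Cor (Bxs N k ∪ CrrH N k c) z z' := by
    intro D hD h
    refine cor_list _ (s * prd N k) (s' * prd N k)
      (tbR N k (c ⟨i, by omega⟩) (c ⟨k - 1 - i, by omega⟩) (rdh N i))
      (tbR N k (c ⟨i, by omega⟩) (c ⟨k - 1 - i, by omega⟩) (rdh N i)) ?_ ?_ ?_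
      z z' ((tb_iff N k _ _ _ o1 o2 _).1 hz) ((tb_iff N k _ _ _ o1 o2 _).1 hz') hb
    · exact fun x y h => mem_tb N k c i s hi x y ((tb_iff N k _ _ _ o1 o2 _).2 h)
    · exact fun x y h => mem_tb N k c i s' hi x y ((tb_iff N k _ _ _ o1 o2 _).2 h)
    · rw [← hD]
      rcases h with rfl | ⟨rfl, h⟩
      · exact ni_TT N k i _ _ hN o1 o2
      · have e : (⟨k - 1 - i, by omega⟩ : Fin k) = ⟨i, by omega⟩ := by
          apply Fin.ext
          simp only
          omega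
        rw [e]
        exact ni_MM N k i _ hN o1
  have b1 := (tb_bd N k i _ _ hN hi o1 o2 _ hz).1
  have b2 := (tb_bd N k i _ _ hN hi o1 o2 _ hz').1
  obtain ⟨z1, z2⟩ := z
  obtain ⟨w1, w2⟩ := z'
  obtain ⟨hb1, hb2⟩ := hb
  rw [abs_le] at hb1 hb2
  simp only [shf] at b1 b2 hb1 hb2
  rcases hcase with rfl | ⟨rfl, h⟩ | h
  · exact key 0 (by ring) (Or.inl rfl)
  · exact key (prd N k : ℤ) (by ring) (Or.inr ⟨rfl, h⟩)
  · exfalso
    have := mul_gap (prd N k) s s' hm 2 (by omega)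
    omega

lemma cor_tube (hN : k + 4 ≤ N) (hA : AdmH N k c) (L : ℕ × ℤ) (z z' : ℤ × ℤ)
    (hz : z ∈ TubeH N k c L) (hz' : z' ∈ TubeH N k c L) (hb : Nb z z') :
    Cor (Bxs N k ∪ CrrH N k c) z z' := by
  have hb' : Nb z' z := by
    obtain ⟨h1, h2⟩ := hb
    exact ⟨by rwa [abs_sub_comm], by rwa [abs_sub_comm]⟩
  obtain ⟨i, s, hi, hL, hz⟩ := hz
  obtain ⟨i', s', hi', hL', hz'⟩ := hz'
  rcases le_total s s' with h | h
  · exact cor_TT N k c hN hA i i' s s' hi hi' (hL.trans hL'.symm) h z z' hz hz' hb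
  · exact (cor_TT N k c hN hA i' i s' s hi' hi (hL'.trans hL.symm) h z' z hz' hz hb').symm

lemma cor_box_tube (h2 : S_h2) (hN : k + 4 ≤ N) (hk : 2 ≤ k) (hA : AdmH N k c) (L : ℕ × ℤ) (s : ℤ)
    (z b : ℤ × ℤ) (hz : z ∈ TubeH N k c L) (hbx : b ∈ BxS N k s) (hb : Nb z b) :
    Cor (Bxs N k ∪ CrrH N k c) z b := by
  obtain ⟨a, -, ha⟩ := h2 N k c hk hN hA L s z b hz hbx hb.1 hb.2
  have hc := hA.1 a
  generalize c a = ca at *
  obtain ⟨c1, c2⟩ := ca
  obtain ⟨z1, z2⟩ := z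
  obtain ⟨b1, b2⟩ := b
  have h4 : c1 = 1 ∨ c1 = 2 := by
    simp only at hc
    omega
  simp only [shf, csq] at ha
  simp only [BxS, shf, Set.mem_ofPred_eq] at hbx
  simp only at hc
  rcases h4 with rfl | rfl
  · simp only [if_true, Prod.mk.injEq, if_neg (show ¬ (1 : ℕ) = 0 by omega)] at ha
    right
    left
    refine ⟨s, ?_⟩
    simp only [BxS, shf, Set.mem_ofPred_eq]
    omega
  · simp only [if_true, Prod.mk.injEq, if_neg (show ¬ (2 : ℕ) = 0 by omega),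
      if_neg (show ¬ (2 : ℕ) = 1 by omega)] at ha
    left
    left
    refine ⟨s, ?_⟩
    simp only [BxS, shf, Set.mem_ofPred_eq]
    omega

lemma cor_box_box (s s' : ℤ) (z b : ℤ × ℤ) (hk : 2 ≤ k) (hz : z ∈ BxS N k s) (hbx : b ∈ BxS N k s')
    (hb : Nb z b) : Cor (Bxs N k ∪ CrrH N k c) z b := by
  have hm : (0 : ℤ) ≤ prd N k := Int.natCast_nonneg _
  have hmv : (prd N k : ℤ) = 4 * (N + 4 * k) := by rw [prd]; push_cast; ring
  obtain ⟨z1, z2⟩ := z
  obtain ⟨b1, b2⟩ := b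
  obtain ⟨hb1, hb2⟩ := hb
  rw [abs_le] at hb1 hb2
  simp only [BxS, shf, Set.mem_ofPred_eq] at hz hbx
  simp only at hb1 hb2
  by_cases hs : s = s'
  · subst hs
    left
    left
    refine ⟨s, ?_⟩
    simp only [BxS, shf, Set.mem_ofPred_eq]
    omega
  · exfalso
    rcases lt_or_gt_of_ne hs with h | h
    · have := mul_gap (prd N k) s s' hm 1 (by omega)
      rw [one_mul] at this
      omega
    · have := mul_gap (prd N k) s' s hm 1 (by omega)
      rw [one_mul] at this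
      omega

lemma cor_all (h1 : S_h1) (h2 : S_h2) (hN : k + 4 ≤ N) (hk : 2 ≤ k) (hA : AdmH N k c)
    (z z' : ℤ × ℤ) (hz : z ∈ Bxs N k ∪ CrrH N k c) (hz' : z' ∈ Bxs N k ∪ CrrH N k c)
    (hb : Nb z z') : Cor (Bxs N k ∪ CrrH N k c) z z' := by
  have hb' : Nb z' z := by
    obtain ⟨h1, h2⟩ := hb
    exact ⟨by rwa [abs_sub_comm], by rwa [abs_sub_comm]⟩
  rcases hz with ⟨s, hz⟩ | ⟨L, hz⟩ <;> rcases hz' with ⟨s', hz'⟩ | ⟨L', hz'⟩
  · exact cor_box_box N k c s s' z z' hk hz hz' hb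
  · exact (cor_box_tube N k c h2 hN hk hA L' s z' z hz' hz hb').symm
  · exact cor_box_tube N k c h2 hN hk hA L s' z z' hz hz' hb
  · have hLL := h1 N k c hk hN hA L L' z z' hz hz' hb.1 hb.2
    subst hLL
    exact cor_tube N k c hN hA L z z' hz hz' hb

lemma mem_shf (s : ℤ) (z : ℤ × ℤ) (hz : z ∈ Bxs N k ∪ CrrH N k c) :
    shf N k s z ∈ Bxs N k ∪ CrrH N k c := by
  have e : ∀ t : ℤ, shf N k (t - s) (shf N k s z) = shf N k t z := by
    intro t
    rw [shf_shf]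
    congr 1
    ring
  rcases hz with ⟨t, hz⟩ | ⟨L, i, t, hi, -, hz⟩
  · left
    refine ⟨t - s, ?_⟩
    simp only [BxS, Set.mem_ofPred_eq, e]
    exact hz
  · right
    exact ⟨labT k i (t - s), i, t - s, hi, rfl, by rw [e]; exact hz⟩

end main

end Th4

open Th4 in
theorem t_h4 (h1 : S_h1) (h2 : S_h2) : S_h4 := by
  intro N k c hk hN hA
  refine ⟨?_, ?_⟩
  · rintro z ⟨L, i, t, hi, -, hz⟩
    have b := (tb_bd N k i _ _ hN hi (hA.1 _) (hA.1 _) _ hz).2.1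
    simp only [shf] at b
    omega
  intro P hP
  subst hP
  refine ⟨?_, ?_, ?_, ?_⟩
  · intro x y ha hb
    by_contra hcon
    push Not at hcon
    have hnb : Nb (x + 1, y) (x, y + 1) := by
      constructor <;> simp
    rcases cor_all N k c h1 h2 hN hk hA (x + 1, y) (x, y + 1) hcon.1 hcon.2 hnb with h | h
    · exact hb h
    · exact ha h
  · intro x y ha hb
    by_contra hcon
    push Not at hcon
    have hnb : Nb (x, y) (x + 1, y + 1) := by
      constructor <;> simp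
    rcases cor_all N k c h1 h2 hN hk hA (x, y) (x + 1, y + 1) hcon.1 hcon.2 hnb with h | h
    · exact hb h
    · exact ha h
  · intro z s
    constructor
    · exact mem_shf N k c s z
    · intro h
      have h3 := mem_shf N k c (-s) _ h
      rw [shf_shf] at h3
      have e : shf N k (-s + s) z = z := by
        simp only [shf, neg_add_cancel, zero_mul, sub_zero]
      rwa [e] at h3
  · intro z hz
    have hmv : (prd N k : ℤ) = 4 * (N + 4 * k) := by rw [prd]; push_cast; ring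
    rw [abs_le]
    obtain ⟨z1, z2⟩ := z
    rcases hz with ⟨t, hz⟩ | ⟨L, i, t, hi, -, hz⟩
    · simp only [BxS, shf, Set.mem_ofPred_eq] at hz
      simp only
      omega
    · have b := (tb_bd N k i _ _ hN hi (hA.1 _) (hA.1 _) _ hz).2
      simp only [shf] at b
      simp only
      omega

end Pool.Agent.W808.HU
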