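import Pool.Agent.W808.HB.All
import Pool.Agent.H160R2.MU.T_ABS
import Pool.Agent.H160R2.MU.T_PRB
import Pool.Agent.H160R2.MU.T_TRAP
import Pool.Agent.H160R2.MU.T_BADP
import Pool.Agent.W808.HU.T_CMP
import Pool.Agent.W808.HU.T_DEC
import Pool.Agent.W808.HU.T_DET
import Pool.Agent.W808.HU.T_DETP
import Pool.Agent.W808.HU.T_FIN
import Pool.Agent.W808.HU.T_HG
import Pool.Agent.W808.HU.T_HGa
import Pool.Agent.W808.HU.T_IND
import Pool.Agent.W808.HU.T_LAND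
import Pool.Agent.W808.HU.T_MON
import Pool.Agent.W808.HU.T_RCR
import Pool.Agent.W808.HU.T_SEPA
import Pool.Agent.W808.HU.T_SEPB
import Pool.Agent.W808.HU.T_SHARP
import Pool.Agent.W808.HU.T_STA
import Pool.Agent.W808.HU.T_STB
import Pool.Agent.W808.HU.T_TRP
import Pool.Agent.W808.HU.T_UB
import Pool.Agent.W808.HU.T_WC
import Pool.Agent.W808.HU.T_h12
import Pool.Agent.W808.HU.T_h3
import Pool.Agent.W808.HU.T_h4

/-!
# Upper bounds for the odd boundary arm events in the half-plane: assembly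
-/

set_option autoImplicit false

namespace Pool.Agent.W808.HU
open Pool.Agent.H160R2

theorem a_h3 : S_h3 := t_h3 t_h2
theorem a_h4 : S_h4 := t_h4 t_h1 t_h2
theorem a_DETP : S_DETP := t_DETP (t_DET t_h1 t_h2 a_h3)
theorem a_HG : S_HG := t_HG HB.a_X3 t_WC
theorem a_FIN : S_FIN := t_FIN HB.a_X3 HB.t_X6 HB.t_WG t_WC
theorem a_TRP : S_TRP := t_TRP MU.t_TRAP
theorem a_SEPB : S_SEPB := t_SEPB t_h1 t_h2 a_h4
theorem a_SEPA : S_SEPA := t_SEPA t_h1 t_h2 a_h4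
theorem a_STB : S_STB := t_STB MU.t_ABS MU.t_PRB a_SEPB a_TRP MU.t_BADP' t_DEC t_IND a_h4
theorem a_STA : S_STA := t_STA MU.t_ABS MU.t_PRB a_SEPA a_TRP MU.t_BADP' t_DEC t_IND a_h4 a_HG
theorem a_RCR : S_RCR := t_RCR t_LAND a_DETP a_STA a_STB a_FIN HB.a_X7 HB.t_AS
theorem a_UB : S_UB := t_UB a_RCR t_MON
theorem a_SHARP : S_SHARP := t_SHARP HB.a_LB t_CMP a_UB

end Pool.Agent.W808.HU
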