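import Pool.Agent.H160R2.MU.Defs
import Pool.Agent.W808.HB.Stm

/-!
# Upper bounds for the odd boundary arm events in the half-plane: definitions

Half-plane `{x ≥ y}` of `ℤ²` (edges `e` with `0 ≤ dco e`), `k` boundary vertices `(i, i)`, `i < k`, in
different open clusters (free boundary).  Cylinder: periodic with period `(n, n)`.
Class `0` = open clusters; class `1` = dual clusters (the face of lower left corner `v` is called `v`),
the faces `(i, i)` of the boundary with `i < k - 1` are free (modulo `n`), the others are wired between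
two boxes.
-/

set_option autoImplicit false

namespace Pool.Agent.W808.HU
open H974 H906.Cyl
open H12S (Dir hbE segD rimE H4 Crs Nr sqE)
open Pool.Agent.H160R2.ML (nm)
open Pool.Agent.H160R2.MU (Cel csq cpos rad prd shf BxS Bxs EP inSq PC Bad Trap Cc)

/-- the edges of the half-plane `x ≥ y` -/
def Hs : Set Edg := {e | 0 ≤ dco e}

/-- the edges of the half box `|v| ≤ R`, `x ≥ y` -/
def hbx (R : ℤ) : Set Edg := {e | 0 ≤ dco e ∧ nm (src e) ≤ R ∧ nm (tgt e) ≤ R}

/-- the boundary point number `i` of the box `s` -/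
def sv (n : ℕ) (s : ℤ) (i : ℕ) : Vtx := (s * n + i, s * n + i)

/-! ## the arm event in the half-plane -/

/-- the vertices `(i, i)`, `i < k`, are in different clusters of the half box, which reach distance `R` -/
def SEh (k : ℕ) (R : ℤ) (G : Set Edg) : Prop :=
  (∀ i j : ℕ, i < k → j < k → i ≠ j → ¬ Reach (G ∩ hbx R) (sv 0 0 i) (sv 0 0 j)) ∧
  (∀ i : ℕ, i < k → ∃ y : Vtx, nm y = R ∧ Reach (G ∩ hbx R) (sv 0 0 i) y)

/-- its probability -/
noncomputable def sPh (k R : ℕ) : ℝ :=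
  Pr (fun _ => (1 / 2 : ℝ)) (boxE R) (fun F => SEh k R (↑F : Set Edg))

/-! ## periodic configurations -/

/-- class 0: the boundary vertices of a box are pairwise not connected and each of them is connected to
another box -/
def P0 (n k : ℕ) (G : Set Edg) : Prop :=
  (∀ i j : ℕ, i < k → j < k → i ≠ j → ¬ Reach (G ∩ Hs) (sv n 0 i) (sv n 0 j)) ∧
  (∀ i : ℕ, i < k → ∃ s : ℤ, s ≠ 0 ∧ ∃ j : ℕ, j < k ∧ Reach (G ∩ Hs) (sv n 0 i) (sv n s j))

/-- the clusters of the boundary vertices stay at depth `< M` -/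
def Shl (n k M : ℕ) (G : Set Edg) : Prop :=
  ∀ (i : ℕ) (u : Vtx), i < k → Reach (G ∩ Hs) (sv n 0 i) u → u.1 - u.2 < M

/-- the primal edge crossed by the dual edge `e` (the face of lower left corner `v` is called `v`) -/
def du (e : Edg) : Edg := edz (e.1 + e.2.1 + 1) (dco e)

/-- the dual edges of the half-plane which cross a closed edge -/
def dl (G : Set Edg) : Set Edg := {e | 0 ≤ dco e ∧ du e ∉ G}

/-- the wires of the boundary faces outside the boxes -/
inductive W1 (n k : ℕ) : Vtx → Vtx → Prop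
  | wire (s : ℤ) (i : ℕ) : k ≤ i + 1 → i + 2 ≤ n → W1 n k (sv n s i) (sv n s (i + 1))

/-- class 1 connections -/
def R1 (n k : ℕ) (A : Set Edg) : Vtx → Vtx → Prop :=
  Relation.EqvGen (fun u v => W1 n k u v ∨ ∃ e ∈ A, src e = u ∧ tgt e = v)

/-- class 1: the faces `(i, i)`, `i < k - 1`, are pairwise not connected, not connected to the wired
faces, and each is connected to another box -/
def P1 (n k : ℕ) (G : Set Edg) : Prop :=
  (∀ i j : ℕ, i + 1 < k → j < k → i ≠ j → ¬ R1 n k (dl G) (sv n 0 i) (sv n 0 j)) ∧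
  (∀ i : ℕ, i + 1 < k → ¬ R1 n k (dl G) (sv n 0 i) (-1, -1)) ∧
  (∀ i : ℕ, i + 1 < k → ∃ s : ℤ, s ≠ 0 ∧ ∃ j : ℕ, j + 1 < k ∧ R1 n k (dl G) (sv n 0 i) (sv n s j))

/-! ## coarse geometry -/

/-- admissible cells: right side (`1`) or bottom side (`2`) of the box `[-N, N)²`, clockwise order, away
from the diagonal, far from each other -/
def AdmH (N k : ℕ) (c : Fin k → Cel) : Prop :=
  (∀ a, ((c a).1 = 1 ∧ -(N : ℤ) ≤ (c a).2 ∧ (c a).2 + 3 ≤ N) ∨
    ((c a).1 = 2 ∧ -(N : ℤ) + 2 ≤ (c a).2 ∧ (c a).2 < N)) ∧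
  (∀ a b, a < b → cpos N (c a) < cpos N (c b)) ∧
  (∀ a b, a ≠ b → 2 ≤ |(csq N (c a)).1 - (csq N (c b)).1| ∨ 2 ≤ |(csq N (c a)).2 - (csq N (c b)).2|)

/-- radius of the tube `i` -/
def rdh (N i : ℕ) : ℤ := N + 1 + 2 * i

/-- the tube from the cell `C` of the box `0` to the cell `C'` of the box `1`, radius `ρ` -/
def TbS (N k : ℕ) (C C' : Cel) (ρ : ℤ) : Set (ℤ × ℤ) := {z |
  let y0 : ℤ := if C.1 = 1 then C.2 else -ρ - 1
  let x0 : ℤ := if C.1 = 1 then N else C.2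
  let x1 : ℤ := if C'.1 = 1 then prd N k + ρ else prd N k + C'.2
  let y1 : ℤ := if C'.1 = 1 then prd N k + C'.2 else prd N k - N - 1
  (C.1 = 2 ∧ z.1 = x0 ∧ y0 ≤ z.2 ∧ z.2 ≤ -N - 1) ∨
  (z.2 = y0 ∧ x0 ≤ z.1 ∧ z.1 ≤ x1) ∨
  (z.1 = x1 ∧ y0 ≤ z.2 ∧ z.2 ≤ y1) ∨
  (C'.1 = 1 ∧ z.2 = y1 ∧ prd N k + N ≤ z.1 ∧ z.1 ≤ x1)}

/-- label of the tube number `i` between the boxes `s` and `s + 1` -/
def labT (k i : ℕ) (s : ℤ) : ℕ × ℤ := if 2 * i + 1 = k then (i, 0) else (i, s)

/-- label of the tube at the cell `a` of the box `s` -/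
def labC (k a : ℕ) (s : ℤ) : ℕ × ℤ := if 2 * a + 1 < k then (a, s) else if 2 * a + 1 = k then (a, 0)
  else (k - 1 - a, s - 1)

/-- the tube with label `L` -/
def TubeH (N k : ℕ) (c : Fin k → Cel) (L : ℕ × ℤ) : Set (ℤ × ℤ) := {z |
  ∃ (i : ℕ) (s : ℤ) (h : 2 * i < k), labT k i s = L ∧
    shf N k s z ∈ TbS N k (c ⟨i, by omega⟩) (c ⟨k - 1 - i, by omega⟩) (rdh N i)}

def CrrH (N k : ℕ) (c : Fin k → Cel) : Set (ℤ × ℤ) := {z | ∃ L, z ∈ TubeH N k c L}

/-! ## the configurations of the steps: `n = prd N k * r`, `M = 4 n` -/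

/-- the clusters land at the cells `c`, and different cells are not connected -/
def LandH (N r k : ℕ) (c : Fin k → Cel) (G : Set Edg) : Prop :=
  (∃ π : Fin k → ℕ, Function.Injective π ∧ ∀ a, π a < k ∧
    ∃ v : Vtx, inSq r (csq N (c a)) v ∧ nm v = (N * r : ℕ) ∧
      Reach (G ∩ hbx (N * r : ℕ)) (sv 0 0 (π a)) v) ∧
  (∀ a b, a ≠ b → ∀ u v : Vtx, inSq r (csq N (c a)) u → nm u = (N * r : ℕ) →
    inSq r (csq N (c b)) v → nm v = (N * r : ℕ) → ¬ Reach (G ∩ hbx (N * r : ℕ)) u v)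

open Classical in
/-- boxes random, tubes open, the rest closed -/
noncomputable def FA (N r k : ℕ) (c : Fin k → Cel) (n M : ℕ) (F : Finset Edg) : Finset Edg :=
  (CE n M).filter (fun e => (e ∈ EP r (Bxs N k) ∧ e ∈ F) ∨
    (e ∉ EP r (Bxs N k) ∧ e ∈ EP r (CrrH N k c)))

open Classical in
/-- boxes and tubes random, the rest closed -/
noncomputable def FB (N r k : ℕ) (c : Fin k → Cel) (n M : ℕ) (F : Finset Edg) : Finset Edg :=
  (CE n M).filter (fun e => (e ∈ EP r (Bxs N k) ∨ e ∈ EP r (CrrH N k c)) ∧ e ∈ F)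

/-- all clusters of class `c` in the central band are small (planar form) -/
def PTr (c n M l : ℕ) (F : Finset Edg) : Prop :=
  ∀ u v : Vtx, |u.1 - u.2| ≤ 2 * n → Reach (Cc c n M F) u v → Nr (4 * l) u v

end Pool.Agent.W808.HU
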